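import Pool.Agent.Helper36_XQ.Stmt4

/-!
Squad XQ (MP_5b0138_an), part A4, module EL3: points near the segment.
-/

set_option autoImplicit false

namespace Pool.Agent.XQ.K4.H84

open MeasureTheory Complex Filter Topology ProbabilityTheory Pool.Agent.H16Iso Pool.Agent.H62T
  Pool.Agent.H16F Pool.Agent.H38KL Pool.Agent.AEU
open scoped ENNReal NNReal

lemma e0_re (η : ℝ) : (I * exp ((η : ℂ) * I)).re = -Real.sin η := by
  simp [Complex.exp_ofReal_mul_I_re, Complex.exp_ofReal_mul_I_im]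

lemma e0_im (η : ℝ) : (I * exp ((η : ℂ) * I)).im = Real.cos η := by
  simp [Complex.exp_ofReal_mul_I_re, Complex.exp_ofReal_mul_I_im]

lemma e1_re (η : ℝ) : (-(I * exp (-((η : ℂ) * I)))).re = -Real.sin η := by
  have h : -((η : ℂ) * I) = (((-η : ℝ) : ℂ) * I) := by push_cast; ring
  rw [h]
  simp [Complex.exp_ofReal_mul_I_re, Complex.exp_ofReal_mul_I_im, -ofReal_neg]

lemma e1_im (η : ℝ) : (-(I * exp (-((η : ℂ) * I)))).im = -Real.cos η := by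
  have h : -((η : ℂ) * I) = (((-η : ℝ) : ℂ) * I) := by push_cast; ring
  rw [h]
  simp [Complex.exp_ofReal_mul_I_re, Complex.exp_ofReal_mul_I_im, -ofReal_neg]

lemma e2_re (ζ : ℝ) : (exp (((Real.pi / 2 - ζ : ℝ) : ℂ) * I)).re = Real.sin ζ := by
  rw [Complex.exp_ofReal_mul_I_re, Real.cos_pi_div_two_sub]

lemma e2_im (ζ : ℝ) : (exp (((Real.pi / 2 - ζ : ℝ) : ℂ) * I)).im = Real.cos ζ := by
  rw [Complex.exp_ofReal_mul_I_im, Real.sin_pi_div_two_sub]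

lemma e3_re (ζ : ℝ) : (exp (((-(Real.pi / 2 - ζ) : ℝ) : ℂ) * I)).re = Real.sin ζ := by
  rw [Complex.exp_ofReal_mul_I_re, Real.cos_neg, Real.cos_pi_div_two_sub]

lemma e3_im (ζ : ℝ) : (exp (((-(Real.pi / 2 - ζ) : ℝ) : ℂ) * I)).im = -Real.cos ζ := by
  rw [Complex.exp_ofReal_mul_I_im, Real.sin_neg, Real.sin_pi_div_two_sub]

lemma ip3_0 (η1 η2 ζ1 ζ2 : ℝ) (p : ℂ) :
    ip (u3 η1 η2 ζ1 ζ2 0) p = -Real.sin η1 * p.re + Real.cos η1 * p.im := by
  show ip (I * exp (η1 * I)) p = _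
  unfold ip
  rw [e0_re, e0_im]

lemma ip3_1 (η1 η2 ζ1 ζ2 : ℝ) (p : ℂ) :
    ip (u3 η1 η2 ζ1 ζ2 1) p = -Real.sin η2 * p.re - Real.cos η2 * p.im := by
  show ip (-(I * exp (-(η2 * I)))) p = _
  unfold ip
  rw [e1_re, e1_im]
  ring

lemma ip3_2 (η1 η2 ζ1 ζ2 : ℝ) (p : ℂ) :
    ip (u3 η1 η2 ζ1 ζ2 2) p = Real.sin ζ1 * p.re + Real.cos ζ1 * p.im := by
  show ip (exp ((Real.pi / 2 - ζ1 : ℝ) * I)) p = _
  unfold ip
  rw [e2_re, e2_im]

lemma ip3_3 (η1 η2 ζ1 ζ2 : ℝ) (p : ℂ) :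
    ip (u3 η1 η2 ζ1 ζ2 3) p = Real.sin ζ2 * p.re - Real.cos ζ2 * p.im := by
  show ip (exp ((-(Real.pi / 2 - ζ2) : ℝ) * I)) p = _
  unfold ip
  rw [e3_re, e3_im]
  ring

lemma h3_0 (ζ1 ζ2 d : ℝ) : h3 ζ1 ζ2 d 0 = 0 := rfl
lemma h3_1 (ζ1 ζ2 d : ℝ) : h3 ζ1 ζ2 d 1 = 0 := rfl

lemma h3_2 (ζ1 ζ2 d : ℝ) : h3 ζ1 ζ2 d 2 = Real.sin ζ1 * d := by
  show ip (exp ((Real.pi / 2 - ζ1 : ℝ) * I)) d = _
  unfold ip
  rw [e2_re, e2_im]
  simp

lemma h3_3 (ζ1 ζ2 d : ℝ) : h3 ζ1 ζ2 d 3 = Real.sin ζ2 * d := by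
  show ip (exp ((-(Real.pi / 2 - ζ2) : ℝ) * I)) d = _
  unfold ip
  rw [e3_re, e3_im]
  simp

lemma re_small {σ s X ρ1 r c Y : ℝ} (hσ : 0 < σ) (hs : σ ≤ s) (hX : s * X ≤ ρ1 + c * Y)
    (h1 : ρ1 ≤ r) (hc : |c| ≤ 1) (hY : |Y| ≤ r) (hr : 0 < r) : X ≤ 2 * r / σ := by
  have h2 : c * Y ≤ r := by
    calc c * Y ≤ |c * Y| := le_abs_self _
      _ = |c| * |Y| := abs_mul _ _
      _ ≤ 1 * |Y| := mul_le_mul_of_nonneg_right hc (abs_nonneg _)
      _ ≤ r := by rw [one_mul]; exact hY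
  have h3 : s * X ≤ 2 * r := by linarith
  rw [le_div_iff₀ hσ]
  by_cases h4 : X ≤ 0
  · nlinarith
  · nlinarith [not_le.1 h4]

theorem el3 : El3Statement := by
  intro η1 η2 ζ1 ζ2 d ρ hy hρ
  have hd := hy.dpos
  have s1 : 0 < Real.sin η1 := Real.sin_pos_of_pos_of_lt_pi hy.a1 (by linarith [hy.a2, hy.a4])
  have s2 : 0 < Real.sin η2 := Real.sin_pos_of_pos_of_lt_pi hy.a2 (by linarith [hy.a1, hy.a4])
  have s3 : 0 < Real.sin ζ1 := Real.sin_pos_of_pos_of_lt_pi hy.b1 (by linarith [hy.b2, hy.b4])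
  have s4 : 0 < Real.sin ζ2 := Real.sin_pos_of_pos_of_lt_pi hy.b2 (by linarith [hy.b1, hy.b4])
  obtain ⟨σ, hσ, c1, c2, c3, c4⟩ : ∃ σ : ℝ, 0 < σ ∧ σ ≤ Real.sin η1 ∧ σ ≤ Real.sin η2 ∧
      σ ≤ Real.sin ζ1 ∧ σ ≤ Real.sin ζ2 :=
    ⟨min (min (Real.sin η1) (Real.sin η2)) (min (Real.sin ζ1) (Real.sin ζ2)),
      lt_min (lt_min s1 s2) (lt_min s3 s4), (min_le_left _ _).trans (min_le_left _ _),
      (min_le_left _ _).trans (min_le_right _ _), (min_le_right _ _).trans (min_le_left _ _),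
      (min_le_right _ _).trans (min_le_right _ _)⟩
  have hσ1 : σ ≤ 1 := c1.trans (Real.sin_le_one _)
  set r := σ * ρ / 4 with hr
  have hr0 : 0 < r := by positivity
  have hrρ : r ≤ ρ / 4 := by rw [hr]; nlinarith
  have h2r : 2 * r / σ = ρ / 2 := by rw [hr]; field_simp; ring
  refine ⟨min r (r ^ 2 / (2 * (d + r))), lt_min hr0 (by positivity), ?_⟩
  intro p hp
  set ρ1 := min r (r ^ 2 / (2 * (d + r))) with hρ1
  have g1 : ρ1 ≤ r := min_le_left _ _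
  have g2 : 2 * ρ1 * (d + r) ≤ r ^ 2 := by
    have : ρ1 ≤ r ^ 2 / (2 * (d + r)) := min_le_right _ _
    rw [le_div_iff₀ (by positivity)] at this
    linarith
  have g0 : 0 < ρ1 := lt_min hr0 (by positivity)
  have a1 : |p.re| ≤ ‖p‖ := Complex.abs_re_le_norm p
  have a2 : |p.re - d| ≤ ‖p - d‖ := by
    have := Complex.abs_re_le_norm (p - d)
    simpa using this
  have a3 := abs_le.1 a1
  have a4 := abs_le.1 a2
  have re1 : -(ρ1 / 2) ≤ p.re := by linarith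
  have re2 : p.re ≤ d + ρ1 / 2 := by linarith
  have hn : ‖p‖ ^ 2 = p.re ^ 2 + p.im ^ 2 := by
    rw [← Complex.normSq_eq_norm_sq, Complex.normSq_apply]; ring
  have im1 : p.im ^ 2 ≤ r ^ 2 := by
    have b1 : ‖p‖ - p.re ≤ ρ1 := by linarith
    have b2 : 0 ≤ ‖p‖ - p.re := by linarith
    have b3 : ‖p‖ + p.re ≤ 2 * (d + r) := by
      have : ‖p‖ ≤ d + ρ1 := by linarith [norm_nonneg (p - d)]
      linarith
    have b4 : 0 ≤ ‖p‖ + p.re := by linarith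
    have b5 : p.im ^ 2 = (‖p‖ - p.re) * (‖p‖ + p.re) := by linear_combination -hn
    rw [b5]
    calc (‖p‖ - p.re) * (‖p‖ + p.re) ≤ ρ1 * (2 * (d + r)) := mul_le_mul b1 b3 b4 g0.le
      _ ≤ r ^ 2 := by linarith
  have im2 : |p.im| ≤ r := abs_le_of_sq_le_sq im1 hr0.le
  have im3 := abs_le.1 im2
  refine ⟨by linarith, by linarith, by linarith, ?_, ?_⟩
  · intro s hs h
    have key : p.re ≤ ρ / 2 := by
      rcases hs with rfl | rfl
      · rw [h3_0, ip3_0] at h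
        rw [← h2r]
        exact re_small (c := Real.cos η1) (Y := p.im) hσ c1 (by linarith) g1
          (Real.abs_cos_le_one _) im2 hr0
      · rw [h3_1, ip3_1] at h
        rw [← h2r]
        exact re_small (c := -Real.cos η2) (Y := p.im) hσ c2 (by linarith) g1
          (by rw [abs_neg]; exact Real.abs_cos_le_one _) im2 hr0
    have h5 : |p.re| ≤ ρ / 2 := abs_le.2 ⟨by linarith, key⟩
    have h6 := Complex.norm_le_abs_re_add_abs_im p
    linarith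
  · intro s hs h
    have key : d - p.re ≤ ρ / 2 := by
      rcases hs with rfl | rfl
      · rw [h3_2, ip3_2] at h
        rw [← h2r]
        exact re_small (c := Real.cos ζ1) (Y := p.im) hσ c3 (by linarith) g1
          (Real.abs_cos_le_one _) im2 hr0
      · rw [h3_3, ip3_3] at h
        rw [← h2r]
        exact re_small (c := -Real.cos ζ2) (Y := p.im) hσ c4 (by linarith) g1
          (by rw [abs_neg]; exact Real.abs_cos_le_one _) im2 hr0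
    have h5 : |p.re - d| ≤ ρ / 2 := abs_le.2 ⟨by linarith, by linarith⟩
    have h6 := Complex.norm_le_abs_re_add_abs_im (p - d)
    have e1 : (p - d).re = p.re - d := by simp
    have e2 : (p - d).im = p.im := by simp
    rw [e1, e2] at h6
    linarith

end Pool.Agent.XQ.K4.H84
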