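import Pool.Agent.Helper36_XQ.Stmt4
import Pool.Agent.Helper69_AEU.Per

/-!
Squad XQ (MP_5b0138_an), part A4, module POL: closed polygons.
-/

set_option autoImplicit false

namespace Pool.Agent.XQ.K4.H84

open MeasureTheory Complex Filter Topology ProbabilityTheory Pool.Agent.H16Iso Pool.Agent.H62T
  Pool.Agent.H16F Pool.Agent.H38KL Pool.Agent.AEU
open scoped ENNReal NNReal

section
variable {n : ℕ} [NeZero n]

lemma ofNat_add_n (k : ℕ) : Fin.ofNat n (n + k) = Fin.ofNat n k := by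
  apply Fin.ext
  simp [Fin.ofNat]

lemma ofNat_succ (k : ℕ) : Fin.ofNat n (k + 1) = Fin.ofNat n k + 1 := by
  apply Fin.ext
  simp [Fin.ofNat, Fin.val_add]

lemma ofNat_val (i : Fin n) : Fin.ofNat n i.1 = i := by
  apply Fin.ext
  simp [Fin.ofNat, Nat.mod_eq_of_lt i.2]

lemma Pl_range (x : Fin n → ℂ) :
    Pl x = ∑ k ∈ Finset.range n, ‖x (Fin.ofNat n k) - x (Fin.ofNat n (k + 1))‖ := by
  rw [Finset.sum_range]
  unfold Pl
  apply Finset.sum_congr rfl
  intro i _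
  rw [ofNat_succ, ofNat_val]

lemma tele (x : Fin n → ℂ) {a b : ℕ} (hab : a ≤ b) :
    ‖x (Fin.ofNat n a) - x (Fin.ofNat n b)‖
      ≤ ∑ k ∈ Finset.Ico a b, ‖x (Fin.ofNat n k) - x (Fin.ofNat n (k + 1))‖ := by
  have := dist_le_Ico_sum_dist (fun k => x (Fin.ofNat n k)) hab
  simpa only [dist_eq_norm] using this

lemma tele_cyc (x : Fin n → ℂ) {a b : ℕ} (hb : b < n) :
    ‖x (Fin.ofNat n b) - x (Fin.ofNat n a)‖
      ≤ ∑ k ∈ Finset.Ico b n, ‖x (Fin.ofNat n k) - x (Fin.ofNat n (k + 1))‖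
        + ∑ k ∈ Finset.range a, ‖x (Fin.ofNat n k) - x (Fin.ofNat n (k + 1))‖ := by
  have h1 := tele x (show b ≤ n + a by omega)
  rw [ofNat_add_n] at h1
  refine h1.trans (le_of_eq ?_)
  rw [← Finset.sum_Ico_consecutive _ hb.le (Nat.le_add_right n a)]
  congr 1
  rw [Finset.sum_Ico_eq_sum_range]
  simp only [Nat.add_sub_cancel_left]
  apply Finset.sum_congr rfl
  intro k _
  rw [ofNat_add_n, add_assoc, ofNat_add_n]

lemma tele_mono (x : Fin n → ℂ) (m : ℕ) (f : Fin (m + 1) → ℕ) (hf : Monotone f) :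
    ∑ i : Fin m, ‖x (Fin.ofNat n (f i.castSucc)) - x (Fin.ofNat n (f i.succ))‖
      ≤ ∑ k ∈ Finset.Ico (f 0) (f (Fin.last m)),
        ‖x (Fin.ofNat n k) - x (Fin.ofNat n (k + 1))‖ := by
  induction m with
  | zero => simp
  | succ m ih =>
    rw [Fin.sum_univ_castSucc]
    have h1 := ih (fun i => f i.castSucc) (fun i j hij => hf (Fin.castSucc_le_castSucc_iff.2 hij))
    have h2 := tele x (hf (Fin.castSucc_lt_last (Fin.last m)).le)
    have h3 : f 0 ≤ f (Fin.last m).castSucc := hf (Fin.zero_le _)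
    rw [← Finset.sum_Ico_consecutive _ h3 (hf (Fin.castSucc_lt_last (Fin.last m)).le)]
    have h4 : ∑ i : Fin m, ‖x (Fin.ofNat n (f i.castSucc.castSucc))
          - x (Fin.ofNat n (f i.castSucc.succ))‖
        = ∑ i : Fin m, ‖x (Fin.ofNat n (f i.castSucc.castSucc))
          - x (Fin.ofNat n (f i.succ.castSucc))‖ := by
      apply Finset.sum_congr rfl
      intro i _
      rw [Fin.succ_castSucc]
    rw [h4]
    have h5 : (Fin.last m).succ = Fin.last (m + 1) := Fin.succ_last m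
    rw [h5]
    exact add_le_add h1 h2

theorem pol1' (x : Fin n → ℂ) (m : ℕ) (f : Fin (m + 1) → ℕ) (hf : Monotone f)
    (hl : f (Fin.last m) < n) :
    ∑ i : Fin m, ‖x (Fin.ofNat n (f i.castSucc)) - x (Fin.ofNat n (f i.succ))‖
      + ‖x (Fin.ofNat n (f (Fin.last m))) - x (Fin.ofNat n (f 0))‖ ≤ Pl x := by
  have h1 := tele_mono x m f hf
  have h2 := tele_cyc x (a := f 0) hl
  have h3 : f 0 ≤ f (Fin.last m) := hf (Fin.zero_le _)
  have h4 : Pl x = ∑ k ∈ Finset.range (f 0), ‖x (Fin.ofNat n k) - x (Fin.ofNat n (k + 1))‖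
      + (∑ k ∈ Finset.Ico (f 0) (f (Fin.last m)), ‖x (Fin.ofNat n k) - x (Fin.ofNat n (k + 1))‖
      + ∑ k ∈ Finset.Ico (f (Fin.last m)) n, ‖x (Fin.ofNat n k) - x (Fin.ofNat n (k + 1))‖) := by
    rw [Pl_range, Finset.sum_Ico_consecutive _ h3 hl.le,
      Finset.range_eq_Ico, Finset.range_eq_Ico,
      Finset.sum_Ico_consecutive _ (Nat.zero_le _) (h3.trans hl.le)]
  rw [h4]
  linarith

lemma pol3 (x : Fin n → ℂ) {i j k : Fin n} (h1 : i ≤ j) (h2 : j ≤ k) :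
    ‖x i - x j‖ + ‖x j - x k‖ + ‖x k - x i‖ ≤ Pl x := by
  have hm : Monotone (![i.1, j.1, k.1] : Fin (2 + 1) → ℕ) := by
    rw [Fin.monotone_iff_le_succ]
    intro l
    fin_cases l
    · exact h1
    · exact h2
  have := pol1' x 2 ![i.1, j.1, k.1] hm (by show k.1 < n; exact k.2)
  rw [Fin.sum_univ_two] at this
  have e0 : (![i.1, j.1, k.1] : Fin (2 + 1) → ℕ) (Fin.castSucc 0) = i.1 := rfl
  have e1 : (![i.1, j.1, k.1] : Fin (2 + 1) → ℕ) (Fin.succ 0) = j.1 := rfl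
  have e2 : (![i.1, j.1, k.1] : Fin (2 + 1) → ℕ) (Fin.castSucc 1) = j.1 := rfl
  have e3 : (![i.1, j.1, k.1] : Fin (2 + 1) → ℕ) (Fin.succ 1) = k.1 := rfl
  have e4 : (![i.1, j.1, k.1] : Fin (2 + 1) → ℕ) (Fin.last 2) = k.1 := rfl
  have e5 : (![i.1, j.1, k.1] : Fin (2 + 1) → ℕ) 0 = i.1 := rfl
  rw [e0, e1, e2, e3, e4, e5] at this
  simpa only [ofNat_val] using this

theorem pol2 (x : Fin n → ℂ) (i j k : Fin n) :
    ‖x i - x j‖ + ‖x j - x k‖ + ‖x k - x i‖ ≤ Pl x := by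
  have s1 := norm_sub_rev (x i) (x j)
  have s2 := norm_sub_rev (x j) (x k)
  have s3 := norm_sub_rev (x k) (x i)
  rcases le_total i j with h1 | h1 <;> rcases le_total j k with h2 | h2 <;>
    rcases le_total i k with h3 | h3
  · exact pol3 x h1 h2
  · have := pol3 x h1 h2; exact this
  · have := pol3 x h3 h2; linarith
  · have := pol3 x h3 h1; linarith
  · have := pol3 x h1 h3; linarith
  · have := pol3 x h2 h3; linarith
  · have := pol3 x h2 h1; linarith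
  · have := pol3 x h2 h1; linarith

lemma pol4 (x : Fin n → ℂ) {i j k l : Fin n} (h1 : i ≤ j) (h2 : j ≤ k) (h3 : k ≤ l) :
    ‖x i - x j‖ + ‖x j - x k‖ + ‖x k - x l‖ + ‖x l - x i‖ ≤ Pl x := by
  have hm : Monotone (![i.1, j.1, k.1, l.1] : Fin (3 + 1) → ℕ) := by
    rw [Fin.monotone_iff_le_succ]
    intro r
    fin_cases r
    · exact h1
    · exact h2
    · exact h3
  have := pol1' x 3 ![i.1, j.1, k.1, l.1] hm (by show l.1 < n; exact l.2)
  rw [Fin.sum_univ_three] at this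
  have e0 : (![i.1, j.1, k.1, l.1] : Fin (3 + 1) → ℕ) (Fin.castSucc 0) = i.1 := rfl
  have e1 : (![i.1, j.1, k.1, l.1] : Fin (3 + 1) → ℕ) (Fin.succ 0) = j.1 := rfl
  have e2 : (![i.1, j.1, k.1, l.1] : Fin (3 + 1) → ℕ) (Fin.castSucc 1) = j.1 := rfl
  have e3 : (![i.1, j.1, k.1, l.1] : Fin (3 + 1) → ℕ) (Fin.succ 1) = k.1 := rfl
  have e6 : (![i.1, j.1, k.1, l.1] : Fin (3 + 1) → ℕ) (Fin.castSucc 2) = k.1 := rfl
  have e7 : (![i.1, j.1, k.1, l.1] : Fin (3 + 1) → ℕ) (Fin.succ 2) = l.1 := rfl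
  have e4 : (![i.1, j.1, k.1, l.1] : Fin (3 + 1) → ℕ) (Fin.last 3) = l.1 := rfl
  have e5 : (![i.1, j.1, k.1, l.1] : Fin (3 + 1) → ℕ) 0 = i.1 := rfl
  rw [e0, e1, e2, e3, e4, e5, e6, e7] at this
  simpa only [ofNat_val] using this

/-- the support function depends only on the set of the points -/
lemma hf_perm (p : Fin 4 → ℂ) (σ : Equiv.Perm (Fin 4)) : hf (fun i => p (σ i)) = hf p := by
  funext w
  unfold hf
  exact Equiv.iSup_comp (g := fun i => ip w (p i)) σ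

/-- sorting four indices -/
lemma sort4 (t : Fin 4 → Fin n) : ∃ σ : Equiv.Perm (Fin 4), Monotone (fun i => t (σ i)) :=
  ⟨Tuple.sort t, Tuple.monotone_sort t⟩

theorem pol3' (x : Fin n → ℂ) (i j k l : Fin n) :
    lam (hf ![x i, x j, x k, x l]) ≤ Pl x := by
  obtain ⟨σ, hσ⟩ := sort4 (![i, j, k, l] : Fin 4 → Fin n)
  set t := (![i, j, k, l] : Fin 4 → Fin n) with ht
  have e1 : (![x i, x j, x k, x l] : Fin 4 → ℂ) = fun r => x (t r) := by
    funext r; fin_cases r <;> rfl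
  rw [e1, ← hf_perm (fun r => x (t r)) σ]
  have e2 : (fun r => (fun r => x (t r)) (σ r))
      = ![x (t (σ 0)), x (t (σ 1)), x (t (σ 2)), x (t (σ 3))] := by
    funext r; fin_cases r <;> rfl
  rw [e2]
  refine (Pool.Agent.AEU.H69.per.2.2.1 _ _ _ _).trans ?_
  exact pol4 x (hσ (show (0 : Fin 4) ≤ 1 by decide)) (hσ (show (1 : Fin 4) ≤ 2 by decide))
    (hσ (show (2 : Fin 4) ≤ 3 by decide))

theorem pol_rot (x : Fin n → ℂ) (j : Fin n) : Pl (rot j x) = Pl x := by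
  unfold Pl rot
  rw [← Equiv.sum_comp (Equiv.addRight j) fun i => ‖x i - x (i + 1)‖]
  apply Finset.sum_congr rfl
  intro i _
  simp only [Equiv.coe_addRight]
  rw [add_right_comm i 1 j]

end

lemma dd_le_bl {u : Fin 4 → ℂ} {h : Fin 4 → ℝ} {A : Finset (Fin 4)} {s : Fin 4} (hs : s ∈ A)
    (x y : ℂ) : dd u h s x y ≤ bl u h A x y := by
  unfold bl
  refine le_trans ?_ (Finset.le_sup' _ (Finset.mem_univ s))
  rw [if_pos hs]

lemma ip_le_norm {u : ℂ} (hu : ‖u‖ = 1) (x : ℂ) : |ip u x| ≤ ‖x‖ := by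
  have h1 : ip u x = ((starRingEnd ℂ) u * x).re := by
    simp [ip, Complex.mul_re]
  rw [h1]
  refine (Complex.abs_re_le_norm _).trans ?_
  rw [norm_mul, Complex.norm_conj, hu, one_mul]

lemma ip_sub' (u x y : ℂ) : ip u (x - y) = ip u x - ip u y := by
  simp [ip]; ring

lemma ip_rf {u : Fin 4 → ℂ} {h : Fin 4 → ℝ} {s : Fin 4} (hu : ‖u s‖ = 1) (y : ℂ) :
    ip (u s) (rf u h s y) = 2 * h s - ip (u s) y := by
  have h1 : (u s).re ^ 2 + (u s).im ^ 2 = 1 := by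
    rw [← nsq, hu]; norm_num
  unfold rf
  have h2 : ip (u s) y = (u s).re * y.re + (u s).im * y.im := rfl
  set q := ip (u s) y - h s with hq
  have h3 : ip (u s) (y - ((2 * q : ℝ) : ℂ) * u s)
      = ip (u s) y - 2 * q * ((u s).re ^ 2 + (u s).im ^ 2) := by
    simp [ip]; ring
  rw [h3, h1, hq]; ring

lemma vis_ip {u : Fin 4 → ℂ} {h : Fin 4 → ℝ} {A : Finset (Fin 4)} {s : Fin 4} (hs : s ∈ A)
    (hu : ‖u s‖ = 1) (x y : ℂ) : h s - bl u h A x y ≤ ip (u s) x := by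
  have h1 := dd_le_bl (u := u) (h := h) hs x y
  unfold dd at h1
  split_ifs at h1 with hc
  · have h2 := ip_le_norm hu (x - rf u h s y)
    rw [ip_sub', ip_rf hu] at h2
    have h3 := (abs_le.1 h2).1
    linarith [hc.2]
  · have h2 := ip_le_norm hu (x - y)
    rw [ip_sub'] at h2
    have h3 := (abs_le.1 h2).1
    by_cases h4 : ip (u s) x < h s
    · have h5 : h s ≤ ip (u s) y := by
        by_contra h5
        exact hc ⟨h4, not_le.1 h5⟩
      linarith
    · have h5 := norm_nonneg (x - y)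
      linarith [not_lt.1 h4]

theorem pol : PolStatement := by
  refine ⟨fun n _ x m f hf hl => pol1' x m f hf.monotone hl, fun n _ x i j k => pol2 x i j k,
    fun n _ x i j k l => pol3' x i j k l, fun n _ x j => pol_rot x j, ?_⟩
  intro u h n _ x A hu
  refine ⟨?_, fun j s hs => vis_ip hs (hu s) _ _, ?_⟩
  · unfold Pl Ln
    exact Finset.sum_le_sum fun j _ => le_bl hu _ _ _
  · intro δ hS
    refine ⟨fun j => (le_bl hu _ _ _).trans_lt (hS j), fun j s hs => ?_⟩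
    have h1 := vis_ip (h := h) hs (hu s) (x j) (x (j + 1))
    have h2 := hS j
    linarith

end Pool.Agent.XQ.K4.H84
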