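import Pool.Agent.Helper36_XQ.Stmt4

/-!
Squad XQ (MP_5b0138_an), part A4, modules IN1 and IN2: integrals over windows.
-/

set_option autoImplicit false

namespace Pool.Agent.XQ.K4.H84

open MeasureTheory Complex Filter Topology
open scoped ENNReal NNReal

lemma lint_prod {g h : ℝ → ℝ≥0∞} (hg : Measurable g) (hh : Measurable h) :
    ∫⁻ x : ℂ, g x.re * h x.im = (∫⁻ p, g p) * ∫⁻ q, h q := by
  have h1 : ∫⁻ x : ℂ, g x.re * h x.im = ∫⁻ z : ℝ × ℝ, g z.1 * h z.2 := by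
    rw [← (Complex.volume_preserving_equiv_real_prod).lintegral_comp_emb
      Complex.measurableEquivRealProd.measurableEmbedding]
    rfl
  rw [h1]
  exact lintegral_prod_mul hg.aemeasurable hh.aemeasurable

lemma meas_Rct (a b ρ : ℝ) : MeasurableSet (Rct a b ρ) := by
  unfold Rct
  apply MeasurableSet.inter
  · exact measurableSet_lt measurable_const Complex.measurable_re
  · apply MeasurableSet.inter
    · exact measurableSet_lt Complex.measurable_re measurable_const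
    · exact measurableSet_lt (Complex.measurable_im.abs) measurable_const

lemma meas_RcU (a b ρ : ℝ) : MeasurableSet (RcU a b ρ) := by
  unfold RcU
  apply MeasurableSet.inter
  · exact measurableSet_lt measurable_const Complex.measurable_re
  · apply MeasurableSet.inter
    · exact measurableSet_lt Complex.measurable_re measurable_const
    · apply MeasurableSet.inter
      · exact measurableSet_lt measurable_const Complex.measurable_im
      · exact measurableSet_lt Complex.measurable_im measurable_const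

lemma lint_Rct (a b ρ : ℝ) {h : ℝ → ℝ≥0∞} (hh : Measurable h) :
    ∫⁻ x in Rct a b ρ, h x.im = ENNReal.ofReal (b - a) * ∫⁻ q in Set.Ioo (-ρ) ρ, h q := by
  have h1 : ∫⁻ x in Rct a b ρ, h x.im
      = ∫⁻ x : ℂ, (Set.Ioo a b).indicator 1 x.re * (Set.Ioo (-ρ) ρ).indicator h x.im := by
    rw [← lintegral_indicator (meas_Rct a b ρ)]
    apply lintegral_congr
    intro x
    by_cases h1 : x ∈ Rct a b ρ
    · have h2 : x.re ∈ Set.Ioo a b := ⟨h1.1, h1.2.1⟩
      have h3 : x.im ∈ Set.Ioo (-ρ) ρ := abs_lt.1 h1.2.2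
      simp [Set.indicator_of_mem h1, Set.indicator_of_mem h2, Set.indicator_of_mem h3]
    · rw [Set.indicator_of_notMem h1]
      by_cases h2 : x.re ∈ Set.Ioo a b
      · have h3 : x.im ∉ Set.Ioo (-ρ) ρ := fun h3 => h1 ⟨h2.1, h2.2, abs_lt.2 h3⟩
        simp [Set.indicator_of_notMem h3]
      · simp [Set.indicator_of_notMem h2]
  rw [h1, lint_prod (measurable_one.indicator measurableSet_Ioo) (hh.indicator measurableSet_Ioo),
    lintegral_indicator measurableSet_Ioo, lintegral_indicator measurableSet_Ioo]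
  simp [Real.volume_Ioo]

lemma lint_RcU (a b ρ : ℝ) {h : ℝ → ℝ≥0∞} (hh : Measurable h) :
    ∫⁻ x in RcU a b ρ, h x.im = ENNReal.ofReal (b - a) * ∫⁻ q in Set.Ioo 0 ρ, h q := by
  have h1 : ∫⁻ x in RcU a b ρ, h x.im
      = ∫⁻ x : ℂ, (Set.Ioo a b).indicator 1 x.re * (Set.Ioo 0 ρ).indicator h x.im := by
    rw [← lintegral_indicator (meas_RcU a b ρ)]
    apply lintegral_congr
    intro x
    by_cases h1 : x ∈ RcU a b ρ
    · have h2 : x.re ∈ Set.Ioo a b := ⟨h1.1, h1.2.1⟩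
      have h3 : x.im ∈ Set.Ioo 0 ρ := h1.2.2
      simp [Set.indicator_of_mem h1, Set.indicator_of_mem h2, Set.indicator_of_mem h3]
    · rw [Set.indicator_of_notMem h1]
      by_cases h2 : x.re ∈ Set.Ioo a b
      · have h3 : x.im ∉ Set.Ioo 0 ρ := fun h3 => h1 ⟨h2.1, h2.2, h3⟩
        simp [Set.indicator_of_notMem h3]
      · simp [Set.indicator_of_notMem h2]
  rw [h1, lint_prod (measurable_one.indicator measurableSet_Ioo) (hh.indicator measurableSet_Ioo),
    lintegral_indicator measurableSet_Ioo, lintegral_indicator measurableSet_Ioo]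
  simp [Real.volume_Ioo]

/-- Gaussian integral, upper bound -/
lemma gau_up {c κ : ℝ} (hc : 0 < c) (hκ : 0 < κ) (s : Set ℝ) :
    ∫⁻ q in s, ENNReal.ofReal (Real.exp (-(κ * (c * q ^ 2))))
      ≤ ENNReal.ofReal (Real.sqrt (Real.pi / c) * κ ^ (-(1 / 2) : ℝ)) := by
  calc ∫⁻ q in s, ENNReal.ofReal (Real.exp (-(κ * (c * q ^ 2))))
      ≤ ∫⁻ q, ENNReal.ofReal (Real.exp (-(κ * (c * q ^ 2)))) := setLIntegral_le_lintegral _ _
    _ = ENNReal.ofReal (∫ q : ℝ, Real.exp (-(κ * c) * q ^ 2)) := by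
        rw [ofReal_integral_eq_lintegral_ofReal (integrable_exp_neg_mul_sq (mul_pos hκ hc))
          (Eventually.of_forall fun q => (Real.exp_pos _).le)]
        apply lintegral_congr
        intro q
        congr 2
        ring
    _ = ENNReal.ofReal (Real.sqrt (Real.pi / c) * κ ^ (-(1 / 2) : ℝ)) := by
        rw [integral_gaussian, Real.rpow_neg hκ.le, ← Real.sqrt_eq_rpow, ← div_eq_mul_inv,
          ← Real.sqrt_div' _ hκ.le, div_div, mul_comm κ c]

lemma rpow_half_inv {κ : ℝ} (hκ : 0 < κ) : (κ ^ (-(1 / 2) : ℝ)) ^ 2 = κ⁻¹ := by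
  rw [← Real.rpow_natCast, ← Real.rpow_mul hκ.le]
  norm_num
  exact Real.rpow_neg_one κ

lemma rpow_three {κ : ℝ} (hκ : 0 < κ) :
    κ ^ (-(3 / 2) : ℝ) = κ ^ (-(1 / 2) : ℝ) * κ⁻¹ := by
  rw [← Real.rpow_neg_one κ, ← Real.rpow_add hκ]
  norm_num

lemma small_half {κ ρ : ℝ} (hρ : 0 < ρ) (h : 1 / ρ ^ 2 ≤ κ) : κ ^ (-(1 / 2) : ℝ) ≤ ρ := by
  have h0 : 0 < 1 / ρ ^ 2 := by positivity
  have hκ : 0 < κ := lt_of_lt_of_le h0 h
  have h1 : (κ ^ (-(1 / 2) : ℝ)) ^ 2 ≤ ρ ^ 2 := by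
    rw [rpow_half_inv hκ]
    rw [inv_le_comm₀ hκ (by positivity)]
    rw [← one_div]; exact h
  exact le_of_sq_le_sq h1 hρ.le

/-- Gaussian integral, lower bound -/
lemma gau_low {c κ ρ : ℝ} (hc : 0 < c) (hρ : 0 < ρ) (hκ : 1 / ρ ^ 2 ≤ κ) :
    ENNReal.ofReal (2 * Real.exp (-c) * κ ^ (-(1 / 2) : ℝ))
      ≤ ∫⁻ q in Set.Ioo (-ρ) ρ, ENNReal.ofReal (Real.exp (-(κ * (c * q ^ 2)))) := by
  have h0 : 0 < 1 / ρ ^ 2 := by positivity
  have hκ0 : 0 < κ := lt_of_lt_of_le h0 hκ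
  set r := κ ^ (-(1 / 2) : ℝ) with hr
  have hr0 : 0 < r := Real.rpow_pos_of_pos hκ0 _
  have hrρ : r ≤ ρ := small_half hρ hκ
  calc ENNReal.ofReal (2 * Real.exp (-c) * r)
      = ENNReal.ofReal (Real.exp (-c)) * ENNReal.ofReal (r - (-r)) := by
        rw [← ENNReal.ofReal_mul (Real.exp_pos _).le]
        congr 1; ring
    _ = ∫⁻ _q in Set.Ioo (-r) r, ENNReal.ofReal (Real.exp (-c)) := by
        rw [setLIntegral_const, Real.volume_Ioo]
    _ ≤ ∫⁻ q in Set.Ioo (-r) r, ENNReal.ofReal (Real.exp (-(κ * (c * q ^ 2)))) := by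
        apply setLIntegral_mono' measurableSet_Ioo
        intro q hq
        apply ENNReal.ofReal_le_ofReal
        apply Real.exp_le_exp.2
        have h1 : q ^ 2 ≤ r ^ 2 := by
          apply sq_le_sq'
          · linarith only [hq.1]
          · exact hq.2.le
        rw [hr, rpow_half_inv hκ0] at h1
        have h2 : κ * q ^ 2 ≤ 1 := by
          calc κ * q ^ 2 ≤ κ * κ⁻¹ := mul_le_mul_of_nonneg_left h1 hκ0.le
            _ = 1 := mul_inv_cancel₀ hκ0.ne'
        nlinarith only [hc, h2]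
    _ ≤ _ := lintegral_mono_set (Set.Ioo_subset_Ioo (by linarith) hrρ)

lemma gau2_up {c κ : ℝ} (hc : 0 < c) (hκ : 0 < κ) (s : Set ℝ) :
    ∫⁻ q in s, ENNReal.ofReal (q ^ 2 * Real.exp (-(κ * (c * q ^ 2))))
      ≤ ENNReal.ofReal (2 / c * Real.sqrt (Real.pi / (c / 2)) * κ ^ (-(3 / 2) : ℝ)) := by
  have h1 : ∀ q : ℝ, q ^ 2 * Real.exp (-(κ * (c * q ^ 2)))
      ≤ 2 / c * κ⁻¹ * Real.exp (-(κ * (c / 2 * q ^ 2))) := by
    intro q
    have h2 : κ * (c * q ^ 2) / 2 + 1 ≤ Real.exp (κ * (c * q ^ 2) / 2) := Real.add_one_le_exp _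
    have h3 : Real.exp (-(κ * (c * q ^ 2)))
        = Real.exp (-(κ * (c / 2 * q ^ 2))) * Real.exp (-(κ * (c * q ^ 2) / 2)) := by
      rw [← Real.exp_add]; congr 1; ring
    rw [h3]
    have h4 : q ^ 2 * Real.exp (-(κ * (c * q ^ 2) / 2)) ≤ 2 / c * κ⁻¹ := by
      rw [Real.exp_neg, ← div_eq_mul_inv, div_le_iff₀ (Real.exp_pos _)]
      calc q ^ 2 = 2 / c * κ⁻¹ * (κ * (c * q ^ 2) / 2) := by field_simp
        _ ≤ 2 / c * κ⁻¹ * Real.exp (κ * (c * q ^ 2) / 2) := by
          apply mul_le_mul_of_nonneg_left (by linarith) (by positivity)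
    calc q ^ 2 * (Real.exp (-(κ * (c / 2 * q ^ 2))) * Real.exp (-(κ * (c * q ^ 2) / 2)))
        = (q ^ 2 * Real.exp (-(κ * (c * q ^ 2) / 2))) * Real.exp (-(κ * (c / 2 * q ^ 2))) := by ring
      _ ≤ _ := mul_le_mul_of_nonneg_right h4 (Real.exp_pos _).le
  calc ∫⁻ q in s, ENNReal.ofReal (q ^ 2 * Real.exp (-(κ * (c * q ^ 2))))
      ≤ ∫⁻ q in s, ENNReal.ofReal (2 / c * κ⁻¹)
          * ENNReal.ofReal (Real.exp (-(κ * (c / 2 * q ^ 2)))) := by
        apply lintegral_mono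
        intro q
        simp only
        rw [← ENNReal.ofReal_mul (by positivity)]
        exact ENNReal.ofReal_le_ofReal (h1 q)
    _ = ENNReal.ofReal (2 / c * κ⁻¹)
          * ∫⁻ q in s, ENNReal.ofReal (Real.exp (-(κ * (c / 2 * q ^ 2)))) := by
        rw [lintegral_const_mul]
        fun_prop
    _ ≤ ENNReal.ofReal (2 / c * κ⁻¹)
          * ENNReal.ofReal (Real.sqrt (Real.pi / (c / 2)) * κ ^ (-(1 / 2) : ℝ)) := by
        gcongr
        exact gau_up (by positivity) hκ s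
    _ = _ := by
        rw [← ENNReal.ofReal_mul (by positivity), rpow_three hκ]
        congr 1; ring

lemma gau2_low {c κ ρ : ℝ} (hc : 0 < c) (hρ : 0 < ρ) (hκ : 1 / ρ ^ 2 ≤ κ) :
    ENNReal.ofReal (Real.exp (-c) / 8 * κ ^ (-(3 / 2) : ℝ))
      ≤ ∫⁻ q in Set.Ioo 0 ρ, ENNReal.ofReal (q ^ 2 * Real.exp (-(κ * (c * q ^ 2)))) := by
  have h0 : 0 < 1 / ρ ^ 2 := by positivity
  have hκ0 : 0 < κ := lt_of_lt_of_le h0 hκ
  set r := κ ^ (-(1 / 2) : ℝ) with hr
  have hr0 : 0 < r := Real.rpow_pos_of_pos hκ0 _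
  have hrρ : r ≤ ρ := small_half hρ hκ
  calc ENNReal.ofReal (Real.exp (-c) / 8 * κ ^ (-(3 / 2) : ℝ))
      = ENNReal.ofReal (κ⁻¹ / 4 * Real.exp (-c)) * ENNReal.ofReal (r - r / 2) := by
        rw [← ENNReal.ofReal_mul (by positivity), rpow_three hκ0]
        congr 1; rw [hr]; ring
    _ = ∫⁻ _q in Set.Ioo (r / 2) r, ENNReal.ofReal (κ⁻¹ / 4 * Real.exp (-c)) := by
        rw [setLIntegral_const, Real.volume_Ioo]
    _ ≤ ∫⁻ q in Set.Ioo (r / 2) r, ENNReal.ofReal (q ^ 2 * Real.exp (-(κ * (c * q ^ 2)))) := by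
        apply setLIntegral_mono' measurableSet_Ioo
        intro q hq
        apply ENNReal.ofReal_le_ofReal
        have h1 : q ^ 2 ≤ r ^ 2 := by
          apply sq_le_sq'
          · linarith only [hr0, hq.1]
          · exact hq.2.le
        have h1' : (r / 2) ^ 2 ≤ q ^ 2 := by
          apply sq_le_sq'
          · linarith only [hr0, hq.1]
          · exact hq.1.le
        have h4 : r ^ 2 = κ⁻¹ := by rw [hr]; exact rpow_half_inv hκ0
        rw [h4] at h1
        have h5 : κ⁻¹ / 4 ≤ q ^ 2 := by rw [← h4]; linarith only [h1']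
        have h2 : κ * q ^ 2 ≤ 1 := by
          calc κ * q ^ 2 ≤ κ * κ⁻¹ := mul_le_mul_of_nonneg_left h1 hκ0.le
            _ = 1 := mul_inv_cancel₀ hκ0.ne'
        apply mul_le_mul h5 _ (Real.exp_pos _).le (sq_nonneg _)
        apply Real.exp_le_exp.2
        nlinarith only [hc, h2]
    _ ≤ _ := lintegral_mono_set (Set.Ioo_subset_Ioo (by linarith) hrρ)

/-- bounds for the distance -/
lemma nrm_up {p q a : ℝ} (ha : 0 < a) (hp : a ≤ p) : Real.sqrt (p ^ 2 + q ^ 2) ≤ p + q ^ 2 / (2 * a) := by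
  have hp0 : 0 < p := lt_of_lt_of_le ha hp
  have h2 : q ^ 2 / (2 * p) ≤ q ^ 2 / (2 * a) := by
    apply div_le_div_of_nonneg_left (sq_nonneg q) (by positivity) (by linarith)
  have h3 : Real.sqrt (p ^ 2 + q ^ 2) ≤ p + q ^ 2 / (2 * p) := by
    apply Real.sqrt_le_iff.2
    refine ⟨by positivity, ?_⟩
    have : (p + q ^ 2 / (2 * p)) ^ 2 = p ^ 2 + q ^ 2 + (q ^ 2 / (2 * p)) ^ 2 := by
      field_simp; ring
    rw [this]
    linarith only [sq_nonneg (q ^ 2 / (2 * p))]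
  linarith

lemma nrm_low {p q b ρ c : ℝ} (hb : p ≤ b) (hq : |q| ≤ ρ) (hc : 0 < c)
    (hc1 : c ≤ 1) (h : c * (2 * b + ρ ^ 2) ≤ 1) :
    p + c * q ^ 2 ≤ Real.sqrt (p ^ 2 + q ^ 2) := by
  apply Real.le_sqrt_of_sq_le
  have h1 : q ^ 2 ≤ ρ ^ 2 := by
    rw [← sq_abs q]
    exact pow_le_pow_left₀ (abs_nonneg q) hq 2
  have h2 : 2 * p * c + c ^ 2 * q ^ 2 ≤ 1 := by
    have : c ^ 2 * q ^ 2 ≤ c * ρ ^ 2 := by
      have : c ^ 2 ≤ c := by nlinarith
      nlinarith [sq_nonneg q]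
    nlinarith only [h, this, hb, hc]
  linarith only [sq_nonneg q, mul_le_mul_of_nonneg_right h2 (sq_nonneg q)]

lemma nrm_eq (x : ℂ) : ‖x‖ = Real.sqrt (x.re ^ 2 + x.im ^ 2) := by
  rw [Complex.norm_def, Complex.normSq_apply]
  congr 1; ring

lemma nrm_sub (x : ℂ) (d : ℝ) : ‖x - d‖ = Real.sqrt ((d - x.re) ^ 2 + x.im ^ 2) := by
  rw [nrm_eq]
  simp only [sub_re, sub_im, ofReal_re, ofReal_im]
  congr 1; ring


/-- bounds for the length through one window -/
lemma len1 {a b d ρ : ℝ} (ha : 0 < a) (hab : a < b) (hbd : b < d) (hρ : 0 < ρ) :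
    ∃ c C : ℝ, 0 < c ∧ 0 < C ∧ ∀ x : ℂ, a < x.re → x.re < b → |x.im| < ρ →
      d + c * x.im ^ 2 ≤ ‖x‖ + ‖x - d‖ ∧ ‖x‖ + ‖x - d‖ ≤ d + C * x.im ^ 2 := by
  have hb : 0 < b := ha.trans hab
  have hdb : 0 < d - b := sub_pos.2 hbd
  refine ⟨1 / (1 + 2 * b + ρ ^ 2), 1 / (2 * a) + 1 / (2 * (d - b)), by positivity, by positivity,
    ?_⟩
  intro x h1 h2 h3
  have e2 := nrm_sub x d
  rw [e2, nrm_eq x]
  constructor
  · have h4 : x.re + 1 / (1 + 2 * b + ρ ^ 2) * x.im ^ 2 ≤ Real.sqrt (x.re ^ 2 + x.im ^ 2) := by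
      apply nrm_low h2.le h3.le (by positivity)
      · rw [div_le_one (by positivity)]; linarith only [ha, h1, h2, sq_nonneg ρ]
      · rw [div_mul_eq_mul_div, one_mul, div_le_one (by positivity)]; linarith
    have h5 : d - x.re ≤ Real.sqrt ((d - x.re) ^ 2 + x.im ^ 2) :=
      Real.le_sqrt_of_sq_le (by linarith only [sq_nonneg x.im])
    linarith
  · have h4 := nrm_up (q := x.im) ha h1.le
    have h5 := nrm_up (p := d - x.re) (q := x.im) hdb (by linarith)
    have h6 : (1 / (2 * a) + 1 / (2 * (d - b))) * x.im ^ 2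
        = x.im ^ 2 / (2 * a) + x.im ^ 2 / (2 * (d - b)) := by ring
    rw [h6]; linarith

lemma ofR_mul_exp (κ d X : ℝ) : ENNReal.ofReal (Real.exp (-(κ * (d + X))))
    = ENNReal.ofReal (Real.exp (-(κ * d))) * ENNReal.ofReal (Real.exp (-(κ * X))) := by
  rw [← ENNReal.ofReal_mul (Real.exp_pos _).le, ← Real.exp_add]
  congr 2; ring

theorem in1 : In1Statement := by
  intro a b d ρ ha hab hbd hρ
  obtain ⟨c, C, hc, hC, hl⟩ := len1 ha hab hbd hρ
  have hba : 0 < b - a := sub_pos.2 hab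
  refine ⟨min ((b - a) * (2 * Real.exp (-C))) ((b - a) * (Real.exp (-C) / 8)),
    max ((b - a) * Real.sqrt (Real.pi / c))
      ((b - a) * (2 / c * Real.sqrt (Real.pi / (c / 2)))), 1 / ρ ^ 2, ?_, ?_, by positivity, ?_⟩
  · exact lt_min (by positivity) (by positivity)
  · exact lt_max_of_lt_left (by positivity)
  intro κ hκ
  have hκ0 : 0 < κ := lt_of_lt_of_le (by positivity) hκ
  have m1 : ∀ c : ℝ, Measurable fun q : ℝ => ENNReal.ofReal (Real.exp (-(κ * (c * q ^ 2)))) := by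
    intro c; fun_prop
  have m2 : ∀ c : ℝ,
      Measurable fun q : ℝ => ENNReal.ofReal (q ^ 2 * Real.exp (-(κ * (c * q ^ 2)))) := by
    intro c; fun_prop
  have m1' : ∀ c : ℝ,
      Measurable fun x : ℂ => ENNReal.ofReal (Real.exp (-(κ * (c * x.im ^ 2)))) :=
    fun c => (m1 c).comp Complex.measurable_im
  have m2' : ∀ c : ℝ,
      Measurable fun x : ℂ => ENNReal.ofReal (x.im ^ 2 * Real.exp (-(κ * (c * x.im ^ 2)))) :=
    fun c => (m2 c).comp Complex.measurable_im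
  refine ⟨⟨?_, ?_⟩, ?_, ?_⟩
  · calc ENNReal.ofReal (min ((b - a) * (2 * Real.exp (-C))) ((b - a) * (Real.exp (-C) / 8))
          * κ ^ (-(1 / 2) : ℝ) * Real.exp (-(κ * d)))
        ≤ ENNReal.ofReal (Real.exp (-(κ * d)) * ((b - a)
          * (2 * Real.exp (-C) * κ ^ (-(1 / 2) : ℝ)))) := by
          apply ENNReal.ofReal_le_ofReal
          have h1 := min_le_left ((b - a) * (2 * Real.exp (-C))) ((b - a) * (Real.exp (-C) / 8))
          have h2 := mul_le_mul_of_nonneg_right (mul_le_mul_of_nonneg_right h1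
            (Real.rpow_nonneg hκ0.le (-(1 / 2) : ℝ))) (Real.exp_pos (-(κ * d))).le
          refine h2.trans (le_of_eq ?_)
          ring
      _ = ENNReal.ofReal (Real.exp (-(κ * d))) * (ENNReal.ofReal (b - a)
          * ENNReal.ofReal (2 * Real.exp (-C) * κ ^ (-(1 / 2) : ℝ))) := by
          rw [← ENNReal.ofReal_mul hba.le, ← ENNReal.ofReal_mul (Real.exp_pos _).le]
      _ ≤ ENNReal.ofReal (Real.exp (-(κ * d))) * (ENNReal.ofReal (b - a)
          * ∫⁻ q in Set.Ioo (-ρ) ρ, ENNReal.ofReal (Real.exp (-(κ * (C * q ^ 2))))) := by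
          gcongr
          exact gau_low hC hρ hκ
      _ = ∫⁻ x in Rct a b ρ, ENNReal.ofReal (Real.exp (-(κ * d)))
          * ENNReal.ofReal (Real.exp (-(κ * (C * x.im ^ 2)))) := by
          rw [lintegral_const_mul _ (m1' C), lint_Rct a b ρ (m1 C)]
      _ ≤ _ := by
          apply setLIntegral_mono' (meas_Rct a b ρ)
          intro x hx
          rw [← ofR_mul_exp]
          apply ENNReal.ofReal_le_ofReal
          apply Real.exp_le_exp.2
          have := (hl x hx.1 hx.2.1 hx.2.2).2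
          nlinarith only [hκ0, this]
  · calc ∫⁻ x in Rct a b ρ, ENNReal.ofReal (Real.exp (-(κ * (‖x‖ + ‖x - d‖))))
        ≤ ∫⁻ x in Rct a b ρ, ENNReal.ofReal (Real.exp (-(κ * d)))
          * ENNReal.ofReal (Real.exp (-(κ * (c * x.im ^ 2)))) := by
          apply setLIntegral_mono' (meas_Rct a b ρ)
          intro x hx
          rw [← ofR_mul_exp]
          apply ENNReal.ofReal_le_ofReal
          apply Real.exp_le_exp.2
          have := (hl x hx.1 hx.2.1 hx.2.2).1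
          nlinarith only [hκ0, this]
      _ = ENNReal.ofReal (Real.exp (-(κ * d))) * (ENNReal.ofReal (b - a)
          * ∫⁻ q in Set.Ioo (-ρ) ρ, ENNReal.ofReal (Real.exp (-(κ * (c * q ^ 2))))) := by
          rw [lintegral_const_mul _ (m1' c), lint_Rct a b ρ (m1 c)]
      _ ≤ ENNReal.ofReal (Real.exp (-(κ * d))) * (ENNReal.ofReal (b - a)
          * ENNReal.ofReal (Real.sqrt (Real.pi / c) * κ ^ (-(1 / 2) : ℝ))) := by
          gcongr
          exact gau_up hc hκ0 _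
      _ = ENNReal.ofReal (Real.exp (-(κ * d)) * ((b - a)
          * (Real.sqrt (Real.pi / c) * κ ^ (-(1 / 2) : ℝ)))) := by
          rw [← ENNReal.ofReal_mul hba.le, ← ENNReal.ofReal_mul (Real.exp_pos _).le]
      _ ≤ _ := by
          apply ENNReal.ofReal_le_ofReal
          have h1 := le_max_left ((b - a) * Real.sqrt (Real.pi / c))
            ((b - a) * (2 / c * Real.sqrt (Real.pi / (c / 2))))
          have h2 := mul_le_mul_of_nonneg_right (mul_le_mul_of_nonneg_right h1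
            (Real.rpow_nonneg hκ0.le (-(1 / 2) : ℝ))) (Real.exp_pos (-(κ * d))).le
          refine le_trans (le_of_eq ?_) h2
          ring
  · calc ENNReal.ofReal (min ((b - a) * (2 * Real.exp (-C))) ((b - a) * (Real.exp (-C) / 8))
          * κ ^ (-(3 / 2) : ℝ) * Real.exp (-(κ * d)))
        ≤ ENNReal.ofReal (Real.exp (-(κ * d)) * ((b - a)
          * (Real.exp (-C) / 8 * κ ^ (-(3 / 2) : ℝ)))) := by
          apply ENNReal.ofReal_le_ofReal
          have h1 := min_le_right ((b - a) * (2 * Real.exp (-C))) ((b - a) * (Real.exp (-C) / 8))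
          have h2 := mul_le_mul_of_nonneg_right (mul_le_mul_of_nonneg_right h1
            (Real.rpow_nonneg hκ0.le (-(3 / 2) : ℝ))) (Real.exp_pos (-(κ * d))).le
          refine h2.trans (le_of_eq ?_)
          ring
      _ = ENNReal.ofReal (Real.exp (-(κ * d))) * (ENNReal.ofReal (b - a)
          * ENNReal.ofReal (Real.exp (-C) / 8 * κ ^ (-(3 / 2) : ℝ))) := by
          rw [← ENNReal.ofReal_mul hba.le, ← ENNReal.ofReal_mul (Real.exp_pos _).le]
      _ ≤ ENNReal.ofReal (Real.exp (-(κ * d))) * (ENNReal.ofReal (b - a)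
          * ∫⁻ q in Set.Ioo 0 ρ, ENNReal.ofReal (q ^ 2 * Real.exp (-(κ * (C * q ^ 2))))) := by
          gcongr
          exact gau2_low hC hρ hκ
      _ = ∫⁻ x in RcU a b ρ, ENNReal.ofReal (Real.exp (-(κ * d)))
          * ENNReal.ofReal (x.im ^ 2 * Real.exp (-(κ * (C * x.im ^ 2)))) := by
          rw [lintegral_const_mul _ (m2' C), lint_RcU a b ρ (m2 C)]
      _ ≤ _ := by
          apply setLIntegral_mono' (meas_RcU a b ρ)
          intro x hx
          rw [← ENNReal.ofReal_mul (Real.exp_pos _).le]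
          apply ENNReal.ofReal_le_ofReal
          have := (hl x hx.1 hx.2.1 (abs_lt.2 ⟨by linarith [hx.2.2.1], hx.2.2.2⟩)).2
          have h3 : Real.exp (-(κ * d)) * Real.exp (-(κ * (C * x.im ^ 2)))
              ≤ Real.exp (-(κ * (‖x‖ + ‖x - d‖))) := by
            rw [← Real.exp_add]
            apply Real.exp_le_exp.2
            nlinarith only [hκ0, this]
          calc Real.exp (-(κ * d)) * (x.im ^ 2 * Real.exp (-(κ * (C * x.im ^ 2))))
              = x.im ^ 2 * (Real.exp (-(κ * d)) * Real.exp (-(κ * (C * x.im ^ 2)))) := by ring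
            _ ≤ _ := mul_le_mul_of_nonneg_left h3 (sq_nonneg _)
  · calc ∫⁻ x in RcU a b ρ, ENNReal.ofReal (x.im ^ 2 * Real.exp (-(κ * (‖x‖ + ‖x - d‖))))
        ≤ ∫⁻ x in RcU a b ρ, ENNReal.ofReal (Real.exp (-(κ * d)))
          * ENNReal.ofReal (x.im ^ 2 * Real.exp (-(κ * (c * x.im ^ 2)))) := by
          apply setLIntegral_mono' (meas_RcU a b ρ)
          intro x hx
          rw [← ENNReal.ofReal_mul (Real.exp_pos _).le]
          apply ENNReal.ofReal_le_ofReal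
          have := (hl x hx.1 hx.2.1 (abs_lt.2 ⟨by linarith [hx.2.2.1], hx.2.2.2⟩)).1
          have h3 : Real.exp (-(κ * (‖x‖ + ‖x - d‖)))
              ≤ Real.exp (-(κ * d)) * Real.exp (-(κ * (c * x.im ^ 2))) := by
            rw [← Real.exp_add]
            apply Real.exp_le_exp.2
            nlinarith only [hκ0, this]
          calc x.im ^ 2 * Real.exp (-(κ * (‖x‖ + ‖x - d‖)))
              ≤ x.im ^ 2 * (Real.exp (-(κ * d)) * Real.exp (-(κ * (c * x.im ^ 2)))) :=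
                mul_le_mul_of_nonneg_left h3 (sq_nonneg _)
            _ = _ := by ring
      _ = ENNReal.ofReal (Real.exp (-(κ * d))) * (ENNReal.ofReal (b - a)
          * ∫⁻ q in Set.Ioo 0 ρ, ENNReal.ofReal (q ^ 2 * Real.exp (-(κ * (c * q ^ 2))))) := by
          rw [lintegral_const_mul _ (m2' c), lint_RcU a b ρ (m2 c)]
      _ ≤ ENNReal.ofReal (Real.exp (-(κ * d))) * (ENNReal.ofReal (b - a)
          * ENNReal.ofReal (2 / c * Real.sqrt (Real.pi / (c / 2)) * κ ^ (-(3 / 2) : ℝ))) := by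
          gcongr
          exact gau2_up hc hκ0 _
      _ = ENNReal.ofReal (Real.exp (-(κ * d)) * ((b - a)
          * (2 / c * Real.sqrt (Real.pi / (c / 2)) * κ ^ (-(3 / 2) : ℝ)))) := by
          rw [← ENNReal.ofReal_mul hba.le, ← ENNReal.ofReal_mul (Real.exp_pos _).le]
      _ ≤ _ := by
          apply ENNReal.ofReal_le_ofReal
          have h1 := le_max_right ((b - a) * Real.sqrt (Real.pi / c))
            ((b - a) * (2 / c * Real.sqrt (Real.pi / (c / 2))))
          have h2 := mul_le_mul_of_nonneg_right (mul_le_mul_of_nonneg_right h1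
            (Real.rpow_nonneg hκ0.le (-(3 / 2) : ℝ))) (Real.exp_pos (-(κ * d))).le
          refine le_trans (le_of_eq ?_) h2
          ring

/-- bounds for the length through two windows -/
lemma len2 {a1 b1 a2 b2 D ρ : ℝ} (ha : 0 < a1) (h1 : a1 < b1) (h2 : b1 < a2) (h3 : a2 < b2)
    (h4 : b2 < D) (hρ : 0 < ρ) :
    ∃ c C : ℝ, 0 < c ∧ 0 < C ∧ ∀ z y : ℂ, z ∈ Rct a1 b1 ρ → y ∈ Rct a2 b2 ρ →
      D + c * z.im ^ 2 + c * y.im ^ 2 ≤ ‖z‖ + ‖z - y‖ + ‖y - D‖ ∧
      ‖z‖ + ‖z - y‖ + ‖y - D‖ ≤ D + C * z.im ^ 2 + C * y.im ^ 2 := by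
  have hb1 : 0 < b1 := ha.trans h1
  have hD : 0 < D - b2 := sub_pos.2 h4
  have hDa : 0 < D - a2 := by linarith
  have hm : 0 < a2 - b1 := sub_pos.2 h2
  have hDp : 0 < D := by linarith
  refine ⟨1 / (1 + 2 * D + ρ ^ 2), 1 / (2 * a1) + 1 / (a2 - b1) + 1 / (2 * (D - b2)),
    by positivity, by positivity, ?_⟩
  intro z y hz hy
  have e2 := nrm_sub y D
  have e3 : ‖z - y‖ = Real.sqrt ((y.re - z.re) ^ 2 + (y.im - z.im) ^ 2) := by
    rw [nrm_eq]; simp only [sub_re, sub_im]; congr 1; ring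
  rw [e2, e3, nrm_eq z]
  constructor
  · have h5 : z.re + 1 / (1 + 2 * D + ρ ^ 2) * z.im ^ 2 ≤ Real.sqrt (z.re ^ 2 + z.im ^ 2) := by
      apply nrm_low (b := D) (by linarith [hz.2.1]) hz.2.2.le (by positivity)
      · rw [div_le_one (by positivity)]; linarith only [ha, h1, h2, h3, h4, sq_nonneg ρ]
      · rw [div_mul_eq_mul_div, one_mul, div_le_one (by positivity)]; linarith
    have h6 : (D - y.re) + 1 / (1 + 2 * D + ρ ^ 2) * y.im ^ 2
        ≤ Real.sqrt ((D - y.re) ^ 2 + y.im ^ 2) := by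
      apply nrm_low (b := D) (by linarith [hy.1]) hy.2.2.le (by positivity)
      · rw [div_le_one (by positivity)]; linarith only [ha, h1, h2, h3, h4, sq_nonneg ρ]
      · rw [div_mul_eq_mul_div, one_mul, div_le_one (by positivity)]; linarith
    have h7 : y.re - z.re ≤ Real.sqrt ((y.re - z.re) ^ 2 + (y.im - z.im) ^ 2) :=
      Real.le_sqrt_of_sq_le (by linarith only [sq_nonneg (y.im - z.im)])
    linarith
  · have h5 := nrm_up (q := z.im) ha hz.1.le
    have h6 := nrm_up (p := D - y.re) (q := y.im) hD (by linarith [hy.2.1])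
    have h7 := nrm_up (p := y.re - z.re) (q := y.im - z.im) hm (by linarith [hy.1, hz.2.1])
    have h8 : (y.im - z.im) ^ 2 / (2 * (a2 - b1)) ≤ (z.im ^ 2 + y.im ^ 2) / (a2 - b1) := by
      rw [div_le_div_iff₀ (by positivity) hm]
      linarith only [mul_nonneg hm.le (sq_nonneg (y.im + z.im))]
    have h9 : (1 / (2 * a1) + 1 / (a2 - b1) + 1 / (2 * (D - b2))) * z.im ^ 2
        = z.im ^ 2 / (2 * a1) + z.im ^ 2 / (a2 - b1) + z.im ^ 2 / (2 * (D - b2)) := by ring
    have h10 : (1 / (2 * a1) + 1 / (a2 - b1) + 1 / (2 * (D - b2))) * y.im ^ 2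
        = y.im ^ 2 / (2 * a1) + y.im ^ 2 / (a2 - b1) + y.im ^ 2 / (2 * (D - b2)) := by ring
    have h11 : (z.im ^ 2 + y.im ^ 2) / (a2 - b1)
        = z.im ^ 2 / (a2 - b1) + y.im ^ 2 / (a2 - b1) := by ring
    have h12 : 0 ≤ y.im ^ 2 / (2 * a1) := by positivity
    have h13 : 0 ≤ z.im ^ 2 / (2 * (D - b2)) := by positivity
    rw [h9, h10]
    rw [h11] at h8
    linarith only [h5, h6, h7, h8, h12, h13]

lemma ofR_mul_exp2 (κ d X Y : ℝ) : ENNReal.ofReal (Real.exp (-(κ * (d + X + Y))))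
    = ENNReal.ofReal (Real.exp (-(κ * d))) * (ENNReal.ofReal (Real.exp (-(κ * X)))
      * ENNReal.ofReal (Real.exp (-(κ * Y)))) := by
  rw [← ENNReal.ofReal_mul (Real.exp_pos _).le, ← ENNReal.ofReal_mul (Real.exp_pos _).le,
    ← Real.exp_add, ← Real.exp_add]
  congr 2; ring

lemma two_win (κ c a1 b1 a2 b2 D ρ : ℝ) :
    ∫⁻ z in Rct a1 b1 ρ, ∫⁻ y in Rct a2 b2 ρ, ENNReal.ofReal (Real.exp (-(κ * D)))
      * (ENNReal.ofReal (Real.exp (-(κ * (c * z.im ^ 2))))
        * ENNReal.ofReal (Real.exp (-(κ * (c * y.im ^ 2)))))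
    = ENNReal.ofReal (Real.exp (-(κ * D))) * ((ENNReal.ofReal (b1 - a1)
        * ∫⁻ q in Set.Ioo (-ρ) ρ, ENNReal.ofReal (Real.exp (-(κ * (c * q ^ 2)))))
        * (ENNReal.ofReal (b2 - a2)
        * ∫⁻ q in Set.Ioo (-ρ) ρ, ENNReal.ofReal (Real.exp (-(κ * (c * q ^ 2)))))) := by
  have m1 : Measurable fun q : ℝ => ENNReal.ofReal (Real.exp (-(κ * (c * q ^ 2)))) := by
    fun_prop
  have m2 : Measurable fun x : ℂ => ENNReal.ofReal (Real.exp (-(κ * (c * x.im ^ 2)))) :=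
    m1.comp Complex.measurable_im
  have h1 : ∀ z : ℂ, ∫⁻ y in Rct a2 b2 ρ, ENNReal.ofReal (Real.exp (-(κ * D)))
      * (ENNReal.ofReal (Real.exp (-(κ * (c * z.im ^ 2))))
        * ENNReal.ofReal (Real.exp (-(κ * (c * y.im ^ 2)))))
      = ENNReal.ofReal (Real.exp (-(κ * D))) * (ENNReal.ofReal (Real.exp (-(κ * (c * z.im ^ 2))))
        * (ENNReal.ofReal (b2 - a2)
        * ∫⁻ q in Set.Ioo (-ρ) ρ, ENNReal.ofReal (Real.exp (-(κ * (c * q ^ 2)))))) := by
    intro z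
    rw [lintegral_const_mul _ (m2.const_mul _), lintegral_const_mul _ m2, lint_Rct a2 b2 ρ m1]
  simp_rw [h1]
  rw [lintegral_const_mul _ (m2.mul_const _), lintegral_mul_const _ m2, lint_Rct a1 b1 ρ m1]

theorem in2 : In2Statement := by
  intro a1 b1 a2 b2 D ρ ha h1 h2 h3 h4 hρ
  obtain ⟨c, C, hc, hC, hl⟩ := len2 ha h1 h2 h3 h4 hρ
  have hba1 : 0 < b1 - a1 := sub_pos.2 h1
  have hba2 : 0 < b2 - a2 := sub_pos.2 h3
  refine ⟨(b1 - a1) * (2 * Real.exp (-C)) * ((b2 - a2) * (2 * Real.exp (-C))),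
    (b1 - a1) * Real.sqrt (Real.pi / c) * ((b2 - a2) * Real.sqrt (Real.pi / c)), 1 / ρ ^ 2,
    by positivity, by positivity, by positivity, ?_⟩
  intro κ hκ
  have hκ0 : 0 < κ := lt_of_lt_of_le (by positivity) hκ
  have hk : κ⁻¹ = κ ^ (-(1 / 2) : ℝ) * κ ^ (-(1 / 2) : ℝ) := by
    rw [← pow_two, rpow_half_inv hκ0]
  constructor
  · calc ENNReal.ofReal ((b1 - a1) * (2 * Real.exp (-C)) * ((b2 - a2) * (2 * Real.exp (-C))) * κ⁻¹
          * Real.exp (-(κ * D)))
        = ENNReal.ofReal (Real.exp (-(κ * D))) * ((ENNReal.ofReal (b1 - a1)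
          * ENNReal.ofReal (2 * Real.exp (-C) * κ ^ (-(1 / 2) : ℝ))) * (ENNReal.ofReal (b2 - a2)
          * ENNReal.ofReal (2 * Real.exp (-C) * κ ^ (-(1 / 2) : ℝ)))) := by
          rw [← ENNReal.ofReal_mul hba1.le, ← ENNReal.ofReal_mul hba2.le,
            ← ENNReal.ofReal_mul (by positivity), ← ENNReal.ofReal_mul (Real.exp_pos _).le, hk]
          congr 1; ring
      _ ≤ ENNReal.ofReal (Real.exp (-(κ * D))) * ((ENNReal.ofReal (b1 - a1)
        * ∫⁻ q in Set.Ioo (-ρ) ρ, ENNReal.ofReal (Real.exp (-(κ * (C * q ^ 2)))))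
        * (ENNReal.ofReal (b2 - a2)
        * ∫⁻ q in Set.Ioo (-ρ) ρ, ENNReal.ofReal (Real.exp (-(κ * (C * q ^ 2)))))) := by
          have := gau_low hC hρ hκ
          gcongr
      _ = _ := (two_win κ C a1 b1 a2 b2 D ρ).symm
      _ ≤ _ := by
          apply setLIntegral_mono' (meas_Rct a1 b1 ρ)
          intro z hz
          apply setLIntegral_mono' (meas_Rct a2 b2 ρ)
          intro y hy
          rw [← ofR_mul_exp2]
          apply ENNReal.ofReal_le_ofReal
          apply Real.exp_le_exp.2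
          have := (hl z y hz hy).2
          nlinarith only [hκ0, this]
  · calc ∫⁻ z in Rct a1 b1 ρ, ∫⁻ y in Rct a2 b2 ρ,
          ENNReal.ofReal (Real.exp (-(κ * (‖z‖ + ‖z - y‖ + ‖y - D‖))))
        ≤ ∫⁻ z in Rct a1 b1 ρ, ∫⁻ y in Rct a2 b2 ρ, ENNReal.ofReal (Real.exp (-(κ * D)))
          * (ENNReal.ofReal (Real.exp (-(κ * (c * z.im ^ 2))))
          * ENNReal.ofReal (Real.exp (-(κ * (c * y.im ^ 2))))) := by
          apply setLIntegral_mono' (meas_Rct a1 b1 ρ)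
          intro z hz
          apply setLIntegral_mono' (meas_Rct a2 b2 ρ)
          intro y hy
          rw [← ofR_mul_exp2]
          apply ENNReal.ofReal_le_ofReal
          apply Real.exp_le_exp.2
          have := (hl z y hz hy).1
          nlinarith only [hκ0, this]
      _ = _ := two_win κ c a1 b1 a2 b2 D ρ
      _ ≤ ENNReal.ofReal (Real.exp (-(κ * D))) * ((ENNReal.ofReal (b1 - a1)
          * ENNReal.ofReal (Real.sqrt (Real.pi / c) * κ ^ (-(1 / 2) : ℝ)))
          * (ENNReal.ofReal (b2 - a2)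
          * ENNReal.ofReal (Real.sqrt (Real.pi / c) * κ ^ (-(1 / 2) : ℝ)))) := by
          have := gau_up hc hκ0 (Set.Ioo (-ρ) ρ)
          gcongr
      _ = _ := by
          rw [← ENNReal.ofReal_mul hba1.le, ← ENNReal.ofReal_mul hba2.le,
            ← ENNReal.ofReal_mul (by positivity), ← ENNReal.ofReal_mul (Real.exp_pos _).le, hk]
          congr 1; ring

end Pool.Agent.XQ.K4.H84
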