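import Pool.Agent.Helper84_XQ.Slx

set_option autoImplicit false

namespace Pool.Agent.XQ.H84

open MeasureTheory Complex Filter Topology Pool.Agent.H62T
open Pool.Agent.H16F (Sublin)
open Pool.Agent.AEU
open Pool.Agent.XQ

theorem dt_eq_ip (a b : ℂ) : dt a b = ip (I * a) b := by
  unfold dt ip; simp; ring

/-- the hull does not depend on the order of the points -/
theorem hf_perm {m : ℕ} (x : Fin m → ℂ) (e : Equiv.Perm (Fin m)) : hf (fun i => x (e i)) = hf x := by
  funext w
  unfold hf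
  exact e.iSup_comp (g := fun i => ip w (x i))

theorem ip_seg {s x y p : ℂ} {c : ℝ} (hx : ip s x < c) (hy : ip s y < c) (hp : p ∈ segment ℝ x y) :
    ip s p < c := by
  obtain ⟨a, b, ha, hb, hab, rfl⟩ := hp
  have : ip s (a • x + b • y) = a * ip s x + b * ip s y := by
    rw [Complex.real_smul, Complex.real_smul, ip_add_right, ip_smul_right, ip_smul_right]
  rw [this]
  rcases ha.eq_or_lt with h | h
  · have : b = 1 := by linarith
    rw [← h, this]; linarith
  · have h1 : a * ip s x < a * c := mul_lt_mul_of_pos_left hx h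
    have h2 : b * ip s y ≤ b * c := mul_le_mul_of_nonneg_left hy.le hb
    have h3 : a * c + b * c = c := by rw [← add_mul, hab, one_mul]
    linarith

/-- strictly exposed points are not in the hull of the others -/
theorem not_hull {ι : Type} {x : ι → ℂ} {s : ℂ} {c : ℝ} {J : Set ι} (h : ∀ j ∈ J, ip s (x j) < c)
    {p : ℂ} (hp : p ∈ convexHull ℝ (x '' J)) : ip s p < c := by
  have hconv : Convex ℝ {z : ℂ | ip s z < c} := by
    intro a ha b hb t u ht hu htu
    exact ip_seg ha hb ⟨t, u, ht, hu, htu, rfl⟩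
  have : x '' J ⊆ {z : ℂ | ip s z < c} := by
    rintro _ ⟨j, hj, rfl⟩
    exact h j hj
  exact convexHull_min this hconv hp

/-- four points in convex position: after a permutation the diagonals cross -/
theorem exists_cross (x : Fin 4 → ℂ) (s : Fin 4 → ℂ) (c : Fin 4 → ℝ)
    (h0 : ∀ i, ip (s i) (x i) = c i) (h : ∀ i j, j ≠ i → ip (s i) (x j) < c i) :
    ∃ (e : Equiv.Perm (Fin 4)) (p : ℂ), p ∈ segment ℝ (x (e 0)) (x (e 2)) ∧
      p ∈ segment ℝ (x (e 1)) (x (e 3)) := by
  have hnai : ¬ AffineIndependent ℝ x := by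
    intro hai
    have h1 := hai.card_le_finrank_succ
    have h2 : Module.finrank ℝ (vectorSpan ℝ (Set.range x)) ≤ Module.finrank ℝ ℂ :=
      Submodule.finrank_le _
    rw [Complex.finrank_real_complex] at h2
    simp at h1
    omega
  obtain ⟨J, p, hp1, hp2⟩ := Convex.radon_partition hnai
  -- neither part is empty or a singleton
  have hne : ∀ K : Set (Fin 4), p ∈ convexHull ℝ (x '' K) → K.Nonempty := by
    intro K hK
    by_contra hcon
    rw [Set.not_nonempty_iff_eq_empty] at hcon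
    rw [hcon] at hK
    simp at hK
  have hsing : ∀ K : Set (Fin 4), p ∈ convexHull ℝ (x '' K) → p ∈ convexHull ℝ (x '' Kᶜ) →
      ∀ i, K ≠ {i} := by
    intro K hK hK' i hi
    rw [hi] at hK hK'
    simp only [Set.image_singleton, convexHull_singleton, Set.mem_singleton_iff] at hK
    have := not_hull (s := s i) (c := c i) (J := ({i} : Set (Fin 4))ᶜ) (x := x) (fun j hj => h i j hj) hK'
    rw [hK, h0 i] at this
    exact lt_irrefl _ this
  have hJJ : p ∈ convexHull ℝ (x '' Jᶜᶜ) := by rwa [compl_compl]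
  have hpair : ∀ (K : Set (Fin 4)) (a b : Fin 4), K = {a, b} → p ∈ convexHull ℝ (x '' K) →
      p ∈ segment ℝ (x a) (x b) := by
    intro K a b hK hp
    rw [hK, Set.image_pair, convexHull_pair] at hp
    exact hp
  have n1 := hne J hp1
  have n2 := hne Jᶜ hp2
  have s1 := hsing J hp1 hp2
  have s2 := hsing Jᶜ hp2 hJJ
  -- enumerate
  have key : ∃ e : Equiv.Perm (Fin 4), J = {e 0, e 2} ∧ Jᶜ = {e 1, e 3} := by
    classical
    have hfin : ∀ K : Finset (Fin 4), K.Nonempty → Kᶜ.Nonempty → (∀ i, K ≠ {i}) → (∀ i, Kᶜ ≠ {i}) →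
        ∃ e : Equiv.Perm (Fin 4), K = {e 0, e 2} ∧ Kᶜ = {e 1, e 3} := by decide
    obtain ⟨e, he1, he2⟩ := hfin J.toFinset (by simpa using n1) (by
        obtain ⟨y, hy⟩ := n2
        exact ⟨y, by simpa using hy⟩) (fun i hi => s1 i (by
        ext y
        have := Finset.ext_iff.1 hi y
        simpa using this)) (fun i hi => s2 i (by
        ext y
        have := Finset.ext_iff.1 hi y
        simpa using this))
    refine ⟨e, ?_, ?_⟩
    · ext y
      have := Finset.ext_iff.1 he1 y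
      simpa using this
    · ext y
      have := Finset.ext_iff.1 he2 y
      simpa using this
  obtain ⟨e, he1, he2⟩ := key
  exact ⟨e, p, hpair _ _ _ he1 hp1, hpair _ _ _ he2 hp2⟩


theorem segment_param {x y p : ℂ} (hp : p ∈ segment ℝ x y) :
    ∃ t : ℝ, 0 ≤ t ∧ t ≤ 1 ∧ p = x + (t : ℂ) * (y - x) := by
  obtain ⟨a, b, ha, hb, hab, rfl⟩ := hp
  refine ⟨b, hb, by linarith, ?_⟩
  have : a = 1 - b := by linarith
  rw [this, Complex.real_smul, Complex.real_smul]
  push_cast
  ring

/-- a quadrilateral inscribed in `X` -/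
structure Quad (X : Finset HP) (h : ℂ → ℝ) (a b c d : ℂ) (sa sb sc sd : HP) : Prop where
  ne : Ne4 sa sb sc sd
  ma : sa ∈ X
  mb : sb ∈ X
  mc : sc ∈ X
  md : sd ∈ X
  oa : ip sa.1 a = sa.2
  ob : ip sb.1 b = sb.2
  oc : ip sc.1 c = sc.2
  od : ip sd.1 d = sd.2
  ia : ∀ t ∈ X, t ≠ sa → ip t.1 a < t.2
  ib : ∀ t ∈ X, t ≠ sb → ip t.1 b < t.2
  ic : ∀ t ∈ X, t ≠ sc → ip t.1 c < t.2
  id : ∀ t ∈ X, t ≠ sd → ip t.1 d < t.2
  body : h = hf ![a, b, c, d]
  cross : ∃ p, p ∈ segment ℝ a c ∧ p ∈ segment ℝ b d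
  pos : 0 < dt (c - a) (d - b)

theorem Quad.rot {X : Finset HP} {h : ℂ → ℝ} {a b c d : ℂ} {sa sb sc sd : HP}
    (q : Quad X h a b c d sa sb sc sd) : Quad X h b c d a sb sc sd sa where
  ne := by
    obtain ⟨h1, h2, h3, h4, h5, h6⟩ := q.ne
    exact ⟨h4, h5, h1.symm, h6, h2.symm, h3.symm⟩
  ma := q.mb
  mb := q.mc
  mc := q.md
  md := q.ma
  oa := q.ob
  ob := q.oc
  oc := q.od
  od := q.oa
  ia := q.ib
  ib := q.ic
  ic := q.id
  id := q.ia
  body := by
    rw [q.body]
    have := hf_perm ![a, b, c, d] (finRotate 4)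
    rw [← this]
    congr 1
    funext i
    fin_cases i <;> rfl
  cross := by
    obtain ⟨p, h1, h2⟩ := q.cross
    exact ⟨p, h2, by rwa [segment_symm]⟩
  pos := by
    have := q.pos
    have e : dt (d - b) (a - c) = dt (c - a) (d - b) := by
      unfold dt; simp only [Complex.sub_re, Complex.sub_im]; ring
    rw [e]; exact this

/-- the body touches exactly the four sides -/
theorem Quad.touch {X : Finset HP} {h : ℂ → ℝ} {a b c d : ℂ} {sa sb sc sd : HP}
    (q : Quad X h a b c d sa sb sc sd) (hul : HulStatement) (t : HP) (ht : t ∈ touch X h) :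
    t = sa ∨ t = sb ∨ t = sc ∨ t = sd := by
  by_contra hcon
  push Not at hcon
  obtain ⟨h1, h2, h3, h4⟩ := hcon
  have htX : t ∈ X ∧ h t.1 = t.2 := by simpa [AEU.touch] using ht
  obtain ⟨_, _, _, _, _, hlt⟩ := hul 3 ![a, b, c, d]
  have : hf ![a, b, c, d] t.1 < t.2 := by
    rw [hlt]
    intro i
    fin_cases i
    · exact q.ia t htX.1 h1
    · exact q.ib t htX.1 h2
    · exact q.ic t htX.1 h3
    · exact q.id t htX.1 h4
  rw [← q.body] at this
  exact (ne_of_lt this) htX.2

theorem ip_pos_of_ip {s x y : ℂ} {c : ℝ} (hx : ip s x = c) (hy : ip s y < c) : 0 < ip s (x - y) := by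
  rw [ip_sub_right, hx]; linarith

theorem first_order {a M δ : ℝ} (hδ : 0 < δ) (h : ∀ r : ℝ, |r| < δ → 0 ≤ r * a + r ^ 2 * M) : a = 0 := by
  by_contra hne
  have hM : 0 < |M| + 1 := by positivity
  -- r = - sign(a) * small
  set ρ : ℝ := min (δ / 2) (|a| / (2 * (|M| + 1))) with hρ
  have ha : 0 < |a| := abs_pos.2 hne
  have hρ0 : 0 < ρ := lt_min (by linarith) (by positivity)
  have hρ1 : ρ < δ := lt_of_le_of_lt (min_le_left _ _) (by linarith)
  have hρ2 : ρ * (|M| + 1) ≤ |a| / 2 := by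
    have := min_le_right (δ / 2) (|a| / (2 * (|M| + 1)))
    calc ρ * (|M| + 1) ≤ |a| / (2 * (|M| + 1)) * (|M| + 1) := mul_le_mul_of_nonneg_right this hM.le
      _ = |a| / 2 := by field_simp
  have hMle : M ≤ |M| := le_abs_self M
  rcases lt_or_gt_of_ne hne with h1 | h1
  · have h2 := h ρ (by rw [abs_of_pos hρ0]; exact hρ1)
    rw [abs_of_neg h1] at hρ2
    have h3 : ρ * M ≤ ρ * (|M| + 1) := mul_le_mul_of_nonneg_left (by linarith) hρ0.le
    nlinarith only [h2, hM, hMle, hρ0, hρ2]
  · have h2 := h (-ρ) (by rw [abs_neg, abs_of_pos hρ0]; exact hρ1)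
    rw [abs_of_pos h1] at hρ2
    have h3 : ρ * M ≤ ρ * (|M| + 1) := mul_le_mul_of_nonneg_left (by linarith) hρ0.le
    nlinarith

/-- unit vector -/
noncomputable def uv (z : ℂ) : ℂ := z / (‖z‖ : ℂ)

theorem norm_uv {z : ℂ} (h : z ≠ 0) : ‖uv z‖ = 1 := by
  unfold uv
  rw [norm_div, Complex.norm_real, norm_norm]
  exact div_self (norm_ne_zero_iff.2 h)

/-- the reflection law at the point `b` -/
theorem Quad.law {X : Finset HP} {h : ℂ → ℝ} {a b c d : ℂ} {sa sb sc sd : HP}
    (q : Quad X h a b c d sa sb sc sd) (hX : Pg X) (hul : HulStatement) (per : PerStatement)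
    (hmin : MinF X h) :
    (b ≠ a ∧ c ≠ b) ∧ (∃ μ : ℝ, 0 < μ ∧ uv (b - a) - uv (c - b) = (μ : ℂ) * sb.1) ∧
      0 < dt (uv (b - a)) (uv (c - b)) := by
  obtain ⟨hab, hac, had, hbc, hbd, hcd⟩ := q.ne
  have hsb : ‖sb.1‖ = 1 := hX.unit _ q.mb
  have hbb : ip sb.1 sb.1 = 1 := by rw [← normSq_ip, hsb]; norm_num
  have p1 : 0 < ip sb.1 (b - a) := ip_pos_of_ip q.ob (q.ia sb q.mb hab.symm)
  have p2 : 0 < ip sb.1 (b - c) := ip_pos_of_ip q.ob (q.ic sb q.mb hbc)
  have hba : b - a ≠ 0 := by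
    intro h0; rw [h0] at p1; simp [ip] at p1
  have hcb : c - b ≠ 0 := by
    intro h0
    have : b - c = 0 := by rw [← neg_sub, h0, neg_zero]
    rw [this] at p2; simp [ip] at p2
  have hbc' : b - c ≠ 0 := by
    intro h0; rw [h0] at p2; simp [ip] at p2
  have hn1 : 0 < ‖b - a‖ := norm_pos_iff.2 hba
  have hn2 : 0 < ‖c - b‖ := norm_pos_iff.2 hcb
  obtain ⟨_, _, per3, per4⟩ := per
  obtain ⟨p, hp1, hp2⟩ := q.cross
  have hlam : lam h = ‖a - b‖ + ‖b - c‖ + ‖c - d‖ + ‖d - a‖ := by
    rw [q.body]; exact per4 a b c d p hp1 hp2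
  -- the tangent direction
  set t : ℂ := I * sb.1 with ht
  have hbt : ip sb.1 t = 0 := by
    rw [ht]; unfold ip; simp; ring
  -- small moves stay inside
  have hev2 : ∀ u ∈ X, ∀ᶠ r : ℝ in 𝓝 0, ip u.1 (b + (r : ℂ) * t) ≤ u.2 := by
    intro u hu
    by_cases hub : u = sb
    · subst hub
      filter_upwards with r
      rw [ip_add_right, ip_smul_right, hbt, q.ob]; simp
    have hlt := q.ib u hu hub
    have : Tendsto (fun r : ℝ => ip u.1 b + r * ip u.1 t) (𝓝 0) (𝓝 (ip u.1 b + 0 * ip u.1 t)) :=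
      ((tendsto_id.mul_const (ip u.1 t)).const_add (ip u.1 b))
    rw [zero_mul, add_zero] at this
    filter_upwards [this.eventually (gt_mem_nhds hlt)] with r hr
    rw [ip_add_right, ip_smul_right]
    exact le_of_lt hr
  have hev3 : ∀ᶠ r : ℝ in 𝓝 0, ∀ u ∈ X, ip u.1 (b + (r : ℂ) * t) ≤ u.2 :=
    (Filter.eventually_all_finset X).2 hev2
  obtain ⟨δ, hδ, hball⟩ := Metric.eventually_nhds_iff.1 hev3
  have hcl : ∀ {y : ℂ} {s : HP}, ip s.1 y = s.2 → (∀ u ∈ X, u ≠ s → ip u.1 y < u.2) → ∀ u ∈ X,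
      ip u.1 y ≤ u.2 := by
    intro y s h1 h2 u hu
    by_cases hus : u = s
    · rw [hus, h1]
    · exact (h2 u hu hus).le
  -- the minimality
  have key : ∀ r : ℝ, |r| < δ → 0 ≤ r * (ip (uv (b - a) - uv (c - b)) t) +
      r ^ 2 * (‖t‖ ^ 2 / (2 * ‖b - a‖) + ‖t‖ ^ 2 / (2 * ‖b - c‖)) := by
    intro r hr
    have hmem := hball (y := r) (by simpa using hr)
    obtain ⟨hsub, hin, _, _, hle, _⟩ := hul 3 ![a, b + (r : ℂ) * t, c, d]
    have hfits : Fits X (hf ![a, b + (r : ℂ) * t, c, d]) := by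
      intro u hu
      rw [hle]
      intro i
      fin_cases i
      · exact hcl q.oa q.ia u hu
      · exact hmem u hu
      · exact hcl q.oc q.ic u hu
      · exact hcl q.od q.id u hu
    have htouch : AEU.touch X h ⊆ AEU.touch X (hf ![a, b + (r : ℂ) * t, c, d]) := by
      intro u hu
      have huX : u ∈ X := (Finset.mem_filter.1 hu).1
      refine Finset.mem_filter.2 ⟨huX, le_antisymm (hfits u huX) ?_⟩
      rcases q.touch hul u hu with rfl | rfl | rfl | rfl
      · have h1 : ip u.1 a ≤ hf ![a, b + (r : ℂ) * t, c, d] u.1 := hin 0 u.1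
        rw [q.oa] at h1; exact h1
      · have h1 : ip u.1 (b + (r : ℂ) * t) ≤ hf ![a, b + (r : ℂ) * t, c, d] u.1 := hin 1 u.1
        rw [ip_add_right, ip_smul_right, hbt, q.ob, mul_zero, add_zero] at h1
        exact h1
      · have h1 : ip u.1 c ≤ hf ![a, b + (r : ℂ) * t, c, d] u.1 := hin 2 u.1
        rw [q.oc] at h1; exact h1
      · have h1 : ip u.1 d ≤ hf ![a, b + (r : ℂ) * t, c, d] u.1 := hin 3 u.1
        rw [q.od] at h1; exact h1
    have h1 := hmin _ hsub hfits htouch
    have h2 := per3 a (b + (r : ℂ) * t) c d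
    rw [hlam] at h1
    have m1 := norm_move (b - a) t hba (-r)
    have m2 := norm_move (b - c) t hbc' (-r)
    have e1 : ‖a - (b + (r : ℂ) * t)‖ = ‖b - a - ((-r : ℝ) : ℂ) * t‖ := by
      rw [← norm_neg]; congr 1; push_cast; ring
    have e2 : ‖b + (r : ℂ) * t - c‖ = ‖b - c - ((-r : ℝ) : ℂ) * t‖ := by
      congr 1; push_cast; ring
    rw [e1, e2] at h2
    have e3 : ‖a - b‖ = ‖b - a‖ := norm_sub_rev _ _
    rw [e3] at h1
    have e4 : ip (uv (b - a) - uv (c - b)) t = ip (b - a) t / ‖b - a‖ + ip (b - c) t / ‖b - c‖ := by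
      unfold uv
      have : ip ((b - a) / (‖b - a‖ : ℂ) - (c - b) / (‖c - b‖ : ℂ)) t =
          ip ((b - a) / (‖b - a‖ : ℂ)) t - ip ((c - b) / (‖c - b‖ : ℂ)) t := by
        unfold ip; simp only [Complex.sub_re, Complex.sub_im]; ring
      rw [this, ip_div_left, ip_div_left, norm_sub_rev c b]
      have : ip (c - b) t = - ip (b - c) t := by
        unfold ip; simp only [Complex.sub_re, Complex.sub_im]; ring
      rw [this]; ring
    rw [e4]
    linarith only [h1, h2, m1, m2]
  have hzero := first_order hδ key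
  -- the multiple
  have hrep : ∀ z : ℂ, ip z t = 0 → z = ((ip sb.1 z : ℝ) : ℂ) * sb.1 := by
    intro z hz
    have hs := normSq_of_norm hsb
    rw [ht] at hz
    unfold ip at hz ⊢
    simp only [Complex.mul_re, Complex.mul_im, Complex.I_re, Complex.I_im, zero_mul, one_mul, zero_sub,
      zero_add] at hz
    apply Complex.ext
    · simp only [Complex.mul_re, Complex.ofReal_re, Complex.ofReal_im, zero_mul, sub_zero]
      linear_combination (-z.re) * hs - sb.1.im * hz
    · simp only [Complex.mul_im, Complex.ofReal_re, Complex.ofReal_im, zero_mul, add_zero]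
      linear_combination (-z.im) * hs + sb.1.re * hz
  have hmu : 0 < ip sb.1 (uv (b - a) - uv (c - b)) := by
    rw [ip_sub_right]
    unfold uv
    rw [ip_div_right, ip_div_right]
    have : ip sb.1 (c - b) = - ip sb.1 (b - c) := by rw [ip_sub_right, ip_sub_right]; ring
    rw [this]
    have h1 := div_pos p1 hn1
    have h2 := div_pos p2 hn2
    rw [neg_div]
    linarith
  -- the orientation
  have hdt : 0 < dt (b - a) (c - b) := by
    obtain ⟨t1, h10, h11, hp1'⟩ := segment_param hp1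
    obtain ⟨t2, h20, h21, hp2'⟩ := segment_param hp2
    have ht2 : 0 < t2 := by
      rcases h20.eq_or_lt with h | h
      · exfalso
        rw [← h] at hp2'
        simp only [Complex.ofReal_zero, zero_mul, add_zero] at hp2'
        have := ip_seg (q.ia sb q.mb hab.symm) (q.ic sb q.mb hbc) hp1
        rw [hp2', q.ob] at this
        exact lt_irrefl _ this
      · exact h
    have e : b - a = (t1 : ℂ) * (c - a) - (t2 : ℂ) * (d - b) := by
      have : a + (t1 : ℂ) * (c - a) = b + (t2 : ℂ) * (d - b) := by rw [← hp1', ← hp2']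
      linear_combination -this
    have e2 : dt (b - a) (c - b) = t2 * dt (c - a) (d - b) := by
      have h3 : dt (b - a) (c - b) = dt (b - a) (c - a) := by
        unfold dt; simp only [Complex.sub_re, Complex.sub_im]; ring
      rw [h3, e]
      unfold dt
      simp only [Complex.sub_re, Complex.sub_im, Complex.mul_re, Complex.mul_im, Complex.ofReal_re,
        Complex.ofReal_im]
      ring
    rw [e2]
    exact mul_pos ht2 q.pos
  have hdt2 : dt (uv (b - a)) (uv (c - b)) = dt (b - a) (c - b) / (‖b - a‖ * ‖c - b‖) := by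
    unfold uv
    have h1 : ∀ z w : ℂ, ∀ r s : ℝ, dt (z / (r : ℂ)) (w / (s : ℂ)) = dt z w / (r * s) := by
      intro z w r s
      have h2 : z / (r : ℂ) = ((r⁻¹ : ℝ) : ℂ) * z := by push_cast; rw [div_eq_mul_inv, mul_comm]
      have h3 : w / (s : ℂ) = ((s⁻¹ : ℝ) : ℂ) * w := by push_cast; rw [div_eq_mul_inv, mul_comm]
      rw [h2, h3]
      unfold dt
      simp only [Complex.mul_re, Complex.mul_im, Complex.ofReal_re, Complex.ofReal_im]
      rw [div_eq_mul_inv, mul_inv]
      ring
    exact h1 _ _ _ _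
  refine ⟨⟨sub_ne_zero.1 hba, sub_ne_zero.1 hcb⟩, ⟨_, hmu, hrep _ hzero⟩, ?_⟩
  rw [hdt2]
  positivity

/-- turning angle -/
theorem turn {u v n : ℂ} {μ : ℝ} (hu : ‖u‖ = 1) (hv : ‖v‖ = 1) (hn : ‖n‖ = 1) (hμ : 0 < μ)
    (h : u - v = (μ : ℂ) * n) (hdt : 0 < dt u v) :
    ∃ τ : ℝ, 0 < τ ∧ τ < Real.pi ∧ v = u * exp (τ * I) ∧ n = -I * (u * exp ((τ / 2 : ℝ) * I)) := by
  have hu0 : u ≠ 0 := by intro h0; rw [h0] at hu; simp at hu
  set z : ℂ := v / u with hz
  have hz1 : ‖z‖ = 1 := by rw [hz, norm_div, hu, hv]; norm_num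
  have hzim : z.im = dt u v := by
    have : z = v * (starRingEnd ℂ) u := by
      rw [hz, div_eq_mul_inv, Complex.inv_def]
      have : Complex.normSq u = 1 := by rw [Complex.normSq_eq_norm_sq, hu]; norm_num
      rw [this]; simp
    rw [this]
    unfold dt
    simp only [Complex.mul_im, Complex.conj_re, Complex.conj_im]
    ring
  have harg : 0 < Complex.arg z ∧ Complex.arg z < Real.pi := by
    have h1 : 0 < z.im := by rw [hzim]; exact hdt
    constructor
    · rcases (Complex.arg_nonneg_iff.2 h1.le).eq_or_lt with h2 | h2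
      · exfalso
        have := Complex.arg_eq_zero_iff.1 h2.symm
        linarith [this.2]
      · exact h2
    · rcases (Complex.arg_le_pi z).eq_or_lt with h2 | h2
      · exfalso
        have := Complex.arg_eq_pi_iff.1 h2
        linarith [this.2]
      · exact h2
  refine ⟨Complex.arg z, harg.1, harg.2, ?_, ?_⟩
  · have h1 := Complex.norm_mul_exp_arg_mul_I z
    rw [hz1, Complex.ofReal_one, one_mul] at h1
    rw [h1, hz]
    field_simp
  · have h1 := Complex.norm_mul_exp_arg_mul_I z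
    rw [hz1, Complex.ofReal_one, one_mul] at h1
    set τ := Complex.arg z with hτ
    have hv' : v = u * exp (τ * I) := by rw [h1, hz]; field_simp
    have hs : 0 < Real.sin (τ / 2) := Real.sin_pos_of_pos_of_lt_pi (by linarith [harg.1]) (by
      have := Real.pi_pos
      linarith [harg.2])
    -- `u - v = 2 sin (τ/2) * (-I u e^{iτ/2})`
    have e1 : u - v = ((2 * Real.sin (τ / 2) : ℝ) : ℂ) * (-I * (u * exp ((τ / 2 : ℝ) * I))) := by
      rw [hv']
      have h2 : exp (τ * I) = exp ((τ / 2 : ℝ) * I) * exp ((τ / 2 : ℝ) * I) := by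
        rw [← Complex.exp_add]; congr 1; push_cast; ring
      rw [h2, Complex.exp_mul_I, ← Complex.ofReal_cos, ← Complex.ofReal_sin]
      have h3 : Real.cos (τ / 2) ^ 2 + Real.sin (τ / 2) ^ 2 = 1 := Real.cos_sq_add_sin_sq _
      have h4 : ((Real.cos (τ / 2) : ℝ) : ℂ) ^ 2 + ((Real.sin (τ / 2) : ℝ) : ℂ) ^ 2 = 1 := by
        exact_mod_cast h3
      push_cast
      push_cast at h4
      linear_combination (-u) * h4 + 2 * u * Complex.sin (τ / 2) ^ 2 * Complex.I_sq - u *
        Complex.sin (τ / 2) ^ 2 * Complex.I_sq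
    have e2 : ((μ : ℝ) : ℂ) * n = ((2 * Real.sin (τ / 2) : ℝ) : ℂ) *
        (-I * (u * exp ((τ / 2 : ℝ) * I))) := by rw [← h, e1]
    have e3 : μ = 2 * Real.sin (τ / 2) := by
      have := congrArg norm e2
      rw [norm_mul, norm_mul, hn, norm_mul, norm_mul, hu, Complex.norm_exp_ofReal_mul_I] at this
      simp only [norm_neg, Complex.norm_I, mul_one, Complex.norm_real, Real.norm_eq_abs] at this
      rw [abs_of_pos hμ, abs_of_pos (by positivity)] at this
      exact this
    rw [e3] at e2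
    have e4 : ((2 * Real.sin (τ / 2) : ℝ) : ℂ) ≠ 0 := by
      have : (2 * Real.sin (τ / 2)) ≠ 0 := by positivity
      exact_mod_cast this
    exact mul_left_cancel₀ e4 e2

/-- the normals of a shortest quadrilateral -/
theorem Quad.normals {X : Finset HP} {h : ℂ → ℝ} {a b c d : ℂ} {sa sb sc sd : HP}
    (q : Quad X h a b c d sa sb sc sd) (hX : Pg X) (hul : HulStatement) (per : PerStatement)
    (hmin : MinF X h) : sa.1 * sc.1 = -(sb.1 * sd.1) := by
  obtain ⟨⟨n1, n2⟩, ⟨μb, hμb, eb⟩, db⟩ := q.law hX hul per hmin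
  obtain ⟨⟨_, n3⟩, ⟨μc, hμc, ec⟩, dc⟩ := q.rot.law hX hul per hmin
  obtain ⟨⟨_, n4⟩, ⟨μd, hμd, ed⟩, dd⟩ := q.rot.rot.law hX hul per hmin
  obtain ⟨_, ⟨μa, hμa, ea⟩, da⟩ := q.rot.rot.rot.law hX hul per hmin
  have u1 := norm_uv (sub_ne_zero.2 n1)
  have u2 := norm_uv (sub_ne_zero.2 n2)
  have u3 := norm_uv (sub_ne_zero.2 n3)
  have u4 := norm_uv (sub_ne_zero.2 n4)
  obtain ⟨τb, b1, b2, b3, b4⟩ := turn u1 u2 (hX.unit _ q.mb) hμb eb db
  obtain ⟨τc, c1, c2, c3, c4⟩ := turn u2 u3 (hX.unit _ q.mc) hμc ec dc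
  obtain ⟨τd, d1, d2, d3, d4⟩ := turn u3 u4 (hX.unit _ q.md) hμd ed dd
  obtain ⟨τa, a1, a2, a3, a4⟩ := turn u4 u1 (hX.unit _ q.ma) hμa ea da
  generalize uv (b - a) = U1 at *
  generalize uv (c - b) = U2 at *
  generalize uv (d - c) = U3 at *
  generalize uv (a - d) = U4 at *
  have hU1 : U1 ≠ 0 := by intro h0; rw [h0] at u1; simp at u1
  -- the sum of the turning angles
  have hS : exp (((τa + τb + τc + τd : ℝ) : ℂ) * I) = 1 := by
    have h1 : U1 = U1 * exp (((τa + τb + τc + τd : ℝ) : ℂ) * I) := by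
      have h2 : exp (((τa + τb + τc + τd : ℝ) : ℂ) * I) =
          exp (τb * I) * exp (τc * I) * exp (τd * I) * exp (τa * I) := by
        rw [← Complex.exp_add, ← Complex.exp_add, ← Complex.exp_add]; congr 1; push_cast; ring
      rw [h2]
      calc U1 = U4 * exp (τa * I) := a3
        _ = U3 * exp (τd * I) * exp (τa * I) := by rw [d3]
        _ = U2 * exp (τc * I) * exp (τd * I) * exp (τa * I) := by rw [c3]
        _ = U1 * exp (τb * I) * exp (τc * I) * exp (τd * I) * exp (τa * I) := by rw [b3]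
        _ = _ := by ring
    have h3 : U1 * (exp (((τa + τb + τc + τd : ℝ) : ℂ) * I) - 1) = 0 := by
      linear_combination -h1
    rcases mul_eq_zero.1 h3 with h4 | h4
    · exact absurd h4 hU1
    · exact sub_eq_zero.1 h4
  obtain ⟨k, hk⟩ := Complex.exp_eq_one_iff.1 hS
  have hk' : τa + τb + τc + τd = k * (2 * Real.pi) := by
    have h1 : (((τa + τb + τc + τd : ℝ) : ℂ)) * I = ((k * (2 * Real.pi) : ℝ) : ℂ) * I := by
      rw [hk]; push_cast; ring
    have h2 := mul_right_cancel₀ Complex.I_ne_zero h1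
    exact_mod_cast h2
  have hpi := Real.pi_pos
  have hk1 : k = 1 := by
    have h1 : (0 : ℝ) < k := by
      by_contra hcon
      push Not at hcon
      nlinarith only [b1, c1, d1, a1, hk', hcon, b2]
    have h2 : (k : ℝ) < 2 := by
      by_contra hcon
      push Not at hcon
      nlinarith only [b2, c2, d2, a2, hk', b1, hcon]
    have h3 : 0 < k := by exact_mod_cast h1
    have h4 : k < 2 := by exact_mod_cast h2
    omega
  have hsum : τa + τb + τc + τd = 2 * Real.pi := by rw [hk', hk1]; simp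
  have hhalf : exp (((τa / 2 + τb / 2 + τc / 2 + τd / 2 : ℝ) : ℂ) * I) = -1 := by
    have : τa / 2 + τb / 2 + τc / 2 + τd / 2 = Real.pi := by linarith
    rw [this]; exact Complex.exp_pi_mul_I
  have hsplit : exp (((τa / 2 + τb / 2 + τc / 2 + τd / 2 : ℝ) : ℂ) * I) =
      exp ((τa / 2 : ℝ) * I) * exp ((τb / 2 : ℝ) * I) * exp ((τc / 2 : ℝ) * I) *
        exp ((τd / 2 : ℝ) * I) := by
    rw [← Complex.exp_add, ← Complex.exp_add, ← Complex.exp_add]; congr 1; push_cast; ring
  rw [hsplit] at hhalf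
  have hb2 : exp (τb * I) = exp ((τb / 2 : ℝ) * I) * exp ((τb / 2 : ℝ) * I) := by
    rw [← Complex.exp_add]; congr 1; push_cast; ring
  have hd2 : exp (τd * I) = exp ((τd / 2 : ℝ) * I) * exp ((τd / 2 : ℝ) * I) := by
    rw [← Complex.exp_add]; congr 1; push_cast; ring
  rw [a4, b4, c4, d4]
  have e4 : U4 = U3 * (exp ((τd / 2 : ℝ) * I) * exp ((τd / 2 : ℝ) * I)) := by rw [d3, hd2]
  have e2 : U2 = U1 * (exp ((τb / 2 : ℝ) * I) * exp ((τb / 2 : ℝ) * I)) := by rw [b3, hb2]
  rw [e4, e2]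
  generalize exp ((τa / 2 : ℝ) * I) = Ea at *
  generalize exp ((τb / 2 : ℝ) * I) = Eb at *
  generalize exp ((τc / 2 : ℝ) * I) = Ec at *
  generalize exp ((τd / 2 : ℝ) * I) = Ed at *
  linear_combination (I ^ 2 * U1 * U3 * Eb * Ed) * hhalf

/-- (C4R) -/
theorem c4r (hul : HulStatement) (per : PerStatement) : C4rStatement := by
  intro X hX h x s hsh hmin
  obtain ⟨e, p, hp1, hp2⟩ := exists_cross x (fun i => (s i).1) (fun i => (s i).2) hsh.on
    (fun i j hj => hsh.ins j (s i) (hsh.mem i) (fun h' => hj (hsh.inj h'.symm)))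
  -- a quadruple for every permutation with crossing diagonals and positive orientation
  have mk : ∀ e : Equiv.Perm (Fin 4), (∃ p, p ∈ segment ℝ (x (e 0)) (x (e 2)) ∧
      p ∈ segment ℝ (x (e 1)) (x (e 3))) → 0 < dt (x (e 2) - x (e 0)) (x (e 3) - x (e 1)) →
      (s (e 0)).1 * (s (e 2)).1 = -((s (e 1)).1 * (s (e 3)).1) := by
    intro e hcr hpos
    have hne : ∀ i j : Fin 4, i ≠ j → s (e i) ≠ s (e j) := fun i j hij h' =>
      hij (e.injective (hsh.inj h'))
    have q : Quad X h (x (e 0)) (x (e 1)) (x (e 2)) (x (e 3)) (s (e 0)) (s (e 1)) (s (e 2))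
        (s (e 3)) := {
      ne := ⟨hne _ _ (by decide), hne _ _ (by decide), hne _ _ (by decide), hne _ _ (by decide),
        hne _ _ (by decide), hne _ _ (by decide)⟩
      ma := hsh.mem _
      mb := hsh.mem _
      mc := hsh.mem _
      md := hsh.mem _
      oa := hsh.on _
      ob := hsh.on _
      oc := hsh.on _
      od := hsh.on _
      ia := hsh.ins _
      ib := hsh.ins _
      ic := hsh.ins _
      id := hsh.ins _
      body := by
        rw [hsh.body, ← hf_perm x e]
        congr 1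
        funext i
        fin_cases i <;> rfl
      cross := hcr
      pos := hpos }
    exact q.normals hX hul per hmin
  rcases lt_trichotomy (dt (x (e 2) - x (e 0)) (x (e 3) - x (e 1))) 0 with hD | hD | hD
  · -- exchange two points
    refine ⟨e, ?_⟩
    have hsw0 : (Equiv.swap (1 : Fin 4) 3) 0 = 0 := by decide
    have hsw1 : (Equiv.swap (1 : Fin 4) 3) 1 = 3 := by decide
    have hsw2 : (Equiv.swap (1 : Fin 4) 3) 2 = 2 := by decide
    have hsw3 : (Equiv.swap (1 : Fin 4) 3) 3 = 1 := by decide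
    have := mk ((Equiv.swap (1 : Fin 4) 3).trans e) (by
      simp only [Equiv.trans_apply, hsw0, hsw1, hsw2, hsw3]
      exact ⟨p, hp1, by rwa [segment_symm]⟩) (by
      simp only [Equiv.trans_apply, hsw0, hsw1, hsw2, hsw3]
      have e1 : dt (x (e 2) - x (e 0)) (x (e 1) - x (e 3)) =
          - dt (x (e 2) - x (e 0)) (x (e 3) - x (e 1)) := by
        unfold dt; simp only [Complex.sub_re, Complex.sub_im]; ring
      rw [e1]; linarith)
    simp only [Equiv.trans_apply, hsw0, hsw1, hsw2, hsw3] at this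
    rw [this]; ring
  · -- degenerate case is impossible
    exfalso
    have hlt : ∀ i j : Fin 4, i ≠ j → ip (s (e i)).1 (x (e j)) < (s (e i)).2 := fun i j hij =>
      hsh.ins (e j) (s (e i)) (hsh.mem _) (fun h' => hij (e.injective (hsh.inj h')))
    obtain ⟨t1, h10, h11, hp1'⟩ := segment_param hp1
    obtain ⟨t2, h20, h21, hp2'⟩ := segment_param hp2
    generalize hA : x (e 2) - x (e 0) = A at *
    generalize hB : x (e 3) - x (e 1) = B at *
    have hp : x (e 1) - x (e 0) = (t1 : ℂ) * A - (t2 : ℂ) * B := by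
      have : x (e 0) + (t1 : ℂ) * A = x (e 1) + (t2 : ℂ) * B := by rw [← hp1', ← hp2']
      linear_combination -this
    -- `x (e 1) - x (e 0)` is a multiple of `A`
    have hA0 : A ≠ 0 := by
      intro h0
      have h1 := hlt 0 2 (by decide)
      have h2 : x (e 2) = x (e 0) := by rw [← sub_eq_zero, hA, h0]
      rw [h2, hsh.on] at h1
      exact lt_irrefl _ h1
    have hcol : dt A (x (e 1) - x (e 0)) = 0 := by
      rw [hp]
      have : dt A ((t1 : ℂ) * A - (t2 : ℂ) * B) = - t2 * dt A B := by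
        unfold dt
        simp only [Complex.sub_re, Complex.sub_im, Complex.mul_re, Complex.mul_im, Complex.ofReal_re,
          Complex.ofReal_im]
        ring
      rw [this, hD, mul_zero]
    obtain ⟨k, hk⟩ : ∃ k : ℝ, x (e 1) - x (e 0) = (k : ℂ) * A := by
      refine ⟨ip A (x (e 1) - x (e 0)) / ip A A, ?_⟩
      have hAA : ip A A ≠ 0 := by
        rw [← normSq_ip]; positivity
      generalize x (e 1) - x (e 0) = W at *
      unfold dt at hcol
      apply Complex.ext
      · simp only [Complex.mul_re, Complex.ofReal_re, Complex.ofReal_im, zero_mul, sub_zero]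
        rw [div_mul_eq_mul_div, eq_div_iff hAA]
        unfold ip
        linear_combination (-A.im) * hcol
      · simp only [Complex.mul_im, Complex.ofReal_re, Complex.ofReal_im, zero_mul, add_zero]
        rw [div_mul_eq_mul_div, eq_div_iff hAA]
        unfold ip
        linear_combination A.re * hcol
    have x1 : x (e 1) = x (e 0) + (k : ℂ) * A := by linear_combination hk
    have x2 : x (e 2) = x (e 0) + A := by linear_combination hA
    have c02 := hlt 0 2 (by decide)
    have c01 := hlt 0 1 (by decide)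
    have c20 := hlt 2 0 (by decide)
    have c21 := hlt 2 1 (by decide)
    have c10 := hlt 1 0 (by decide)
    have c12 := hlt 1 2 (by decide)
    have o0 := hsh.on (e 0)
    have o1 := hsh.on (e 1)
    have o2 := hsh.on (e 2)
    rw [x2, ip_add_right] at c02 c12 o2
    rw [x1, ip_add_right, ip_smul_right] at c01 c21 o1
    have d0 : ip (s (e 0)).1 A < 0 := by linarith
    have d2 : 0 < ip (s (e 2)).1 A := by linarith
    have hk0 : 0 < k := by
      by_contra hcon
      push Not at hcon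
      linarith only [c01, o0, mul_nonneg_of_nonpos_of_nonpos hcon d0.le]
    have hk1 : k < 1 := by
      by_contra hcon
      push Not at hcon
      have : 0 ≤ (k - 1) * ip (s (e 2)).1 A := mul_nonneg (by linarith) d2.le
      linarith
    have d1 : 0 < k * ip (s (e 1)).1 A := by linarith
    have d1' : 0 < ip (s (e 1)).1 A := (mul_pos_iff_of_pos_left hk0).1 d1
    have : 0 < (1 - k) * ip (s (e 1)).1 A := mul_pos (by linarith) d1'
    linarith
  · exact ⟨e, mk e ⟨p, hp1, hp2⟩ hD⟩

end Pool.Agent.XQ.H84
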