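import Pool.Agent.Helper84_XQ.Tax

set_option autoImplicit false

namespace Pool.Agent.XQ.H84

open MeasureTheory Complex Filter Topology Pool.Agent.H62T
open Pool.Agent.H16F (Sublin)
open Pool.Agent.AEU
open Pool.Agent.XQ

/-- a vector orthogonal to `I * s` is a multiple of the unit vector `s` -/
theorem rep_of_ip {s z : ℂ} (hs : ‖s‖ = 1) (hz : ip z (I * s) = 0) :
    z = ((ip s z : ℝ) : ℂ) * s := by
  have hs' := normSq_of_norm hs
  unfold ip at hz ⊢
  simp only [Complex.mul_re, Complex.mul_im, Complex.I_re, Complex.I_im, zero_mul, one_mul, zero_sub,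
    zero_add] at hz
  apply Complex.ext
  · simp only [Complex.mul_re, Complex.ofReal_re, Complex.ofReal_im, zero_mul, sub_zero]
    linear_combination (-z.re) * hs' - s.im * hz
  · simp only [Complex.mul_im, Complex.ofReal_re, Complex.ofReal_im, zero_mul, add_zero]
    linear_combination (-z.im) * hs' + s.re * hz

/-- the case of an edge -/
theorem cl3_edge (vxx : VxxStatement) (slx : SlxStatement) {X : Finset HP} (hX : Pg X) {h : ℂ → ℝ}
    {i j q : HP} {v x : ℂ} (hv : VxOf X i j v) (hx : VxOf X j q x) (hiq : i ≠ q)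
    (hbody : h = hf ![v, x]) (hlam : lam h = 2 * ‖v - x‖)
    (hmin : ∀ a b : ℂ, a ∈ Cl X → b ∈ Cl X → (Vx X a ∨ Vx X b) →
      (ip i.1 a = i.2 ∨ ip i.1 b = i.2) → (ip j.1 a = j.2 ∨ ip j.1 b = j.2) →
      (ip q.1 a = q.2 ∨ ip q.1 b = q.2) → lam h ≤ 2 * ‖a - b‖) : ShA X h i j q v x := by
  obtain ⟨_, hact, _, _, hvx, _⟩ := vxx X hX
  have ix := hact j q x hx i hv.mem₁ hv.ne hiq
  have qv := hact i j v hv q hx.mem₂ hiq.symm hx.ne.symm
  have hvx0 : v - x ≠ 0 := by
    intro h0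
    rw [sub_eq_zero.1 h0, hx.on₂] at qv
    exact lt_irrefl _ qv
  have hxv0 : x - v ≠ 0 := fun h0 => hvx0 (by rw [← neg_sub, h0, neg_zero])
  have hn : 0 < ‖x - v‖ := norm_pos_iff.2 hxv0
  have hn' : 0 < ‖v - x‖ := norm_pos_iff.2 hvx0
  refine ⟨hv, hx, hiq, ?_, ?_, hbody⟩
  · by_contra hcon
    push Not at hcon
    obtain ⟨_, h2⟩ := slx X hX i j v hv x hx.cl x hx.cl (sub_ne_zero.1 hxv0) (sub_ne_zero.1 hxv0)
    have hac : Ac ((x - v) / (‖x - v‖ : ℂ) + (x - v) / (‖x - v‖ : ℂ)) i j := by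
      unfold Ac
      rw [ip_add_left, ip_div_left, ip_add_left, ip_div_left]
      have e1 : ip (x - v) j.1 = 0 := by
        rw [ip_comm, ip_sub_right, hx.on₁, hv.on₂]; ring
      have e2 : ip (x - v) i.1 < 0 := by
        rw [ip_comm, ip_sub_right, hv.on₁]; linarith
      have e3 : ip (x - v) i.1 / ‖x - v‖ < 0 := div_neg_of_neg_of_pos e2 hn
      have e4 := mul_pos_of_neg_of_neg hcon e3
      rw [e1, zero_div, add_zero, mul_add]
      linarith
    obtain ⟨w', hw1, _, hw3, hw4⟩ := h2 hac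
    have h3 := hmin w' x hw1 hx.cl (Or.inr ⟨j, q, hx⟩) (Or.inl hw3) (Or.inr hx.on₁) (Or.inr hx.on₂)
    have e1 : ‖x - w'‖ = ‖w' - x‖ := norm_sub_rev _ _
    have e2 : ‖x - v‖ = ‖v - x‖ := norm_sub_rev _ _
    rw [e1, e2] at hw4
    rw [hlam] at h3
    linarith only [hw4, h3]
  · by_contra hcon
    push Not at hcon
    have hqj : VxOf X q j x := (hvx j q x hx).2.1
    obtain ⟨_, h2⟩ := slx X hX q j x hqj v hv.cl v hv.cl (sub_ne_zero.1 hvx0) (sub_ne_zero.1 hvx0)
    have hac : Ac ((v - x) / (‖v - x‖ : ℂ) + (v - x) / (‖v - x‖ : ℂ)) q j := by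
      unfold Ac
      rw [ip_add_left, ip_div_left, ip_add_left, ip_div_left]
      have e1 : ip (v - x) j.1 = 0 := by
        rw [ip_comm, ip_sub_right, hx.on₁, hv.on₂]; ring
      have e2 : ip (v - x) q.1 < 0 := by
        rw [ip_comm, ip_sub_right, hx.on₂]; linarith
      have e3 : ip (v - x) q.1 / ‖v - x‖ < 0 := div_neg_of_neg_of_pos e2 hn'
      have e4 := mul_pos_of_neg_of_neg hcon e3
      rw [e1, ip_comm q.1 j.1, zero_div, add_zero, mul_add]
      linarith
    obtain ⟨w', hw1, _, hw3, hw4⟩ := h2 hac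
    have h3 := hmin v w' hv.cl hw1 (Or.inl ⟨i, j, hv⟩) (Or.inl hv.on₁) (Or.inl hv.on₂) (Or.inr hw3)
    have e1 : ‖w' - v‖ = ‖v - w'‖ := norm_sub_rev _ _
    have e2 : ‖x - v‖ = ‖v - x‖ := norm_sub_rev _ _
    rw [e1, e2] at hw4
    rw [hlam] at h3
    linarith

/-- small moves along a side -/
theorem move_inside {X : Finset HP} {q : HP} {x t : ℂ} (hq : ip q.1 x = q.2) (ht : ip q.1 t = 0)
    (hin : ∀ u ∈ X, u ≠ q → ip u.1 x < u.2) :
    ∃ δ > 0, ∀ r : ℝ, |r| < δ → x + (r : ℂ) * t ∈ Cl X := by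
  have hev2 : ∀ u ∈ X, ∀ᶠ r : ℝ in 𝓝 0, ip u.1 (x + (r : ℂ) * t) ≤ u.2 := by
    intro u hu
    by_cases hub : u = q
    · subst hub
      filter_upwards with r
      rw [ip_add_right, ip_smul_right, ht, hq]; simp
    have hlt := hin u hu hub
    have : Tendsto (fun r : ℝ => ip u.1 x + r * ip u.1 t) (𝓝 0) (𝓝 (ip u.1 x + 0 * ip u.1 t)) :=
      ((tendsto_id.mul_const (ip u.1 t)).const_add (ip u.1 x))
    rw [zero_mul, add_zero] at this
    filter_upwards [this.eventually (gt_mem_nhds hlt)] with r hr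
    rw [ip_add_right, ip_smul_right]
    exact le_of_lt hr
  have hev3 : ∀ᶠ r : ℝ in 𝓝 0, ∀ u ∈ X, ip u.1 (x + (r : ℂ) * t) ≤ u.2 :=
    (Filter.eventually_all_finset X).2 hev2
  obtain ⟨δ, hδ, hball⟩ := Metric.eventually_nhds_iff.1 hev3
  exact ⟨δ, hδ, fun r hr => hball (y := r) (by simpa using hr)⟩

/-- (CL3) -/
theorem cl3 (vxx : VxxStatement) (hul : HulStatement) (lams : LamStatement) (per : PerStatement)
    (slx : SlxStatement) : Cl3Statement := by
  classical
  intro X hX h hsp hcard hmin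
  obtain ⟨hon, hact, _, _, hvx, hnv, _, htv, _, _, hcon⟩ := vxx X hX
  rcases hsp.sp with ⟨v, ⟨i, j, hv⟩, vin⟩ | h4
  swap
  · omega
  obtain ⟨ti, tj⟩ := htv i j v h hv hsp.fits vin
  -- the third side
  obtain ⟨q, hq, hqi, hqj⟩ : ∃ q ∈ touch X h, q ≠ i ∧ q ≠ j := by
    by_contra hne
    push Not at hne
    have hsub : touch X h ⊆ {i, j} := by
      intro t ht
      by_cases hti : t = i
      · simp [hti]
      · simp [hne t ht hti]
    have := Finset.card_le_card hsub
    have h2 : ({i, j} : Finset HP).card ≤ 2 := Finset.card_le_two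
    omega
  have htouch : touch X h = {i, j, q} := by
    have hsub : ({i, j, q} : Finset HP) ⊆ touch X h := by
      intro t ht
      simp only [Finset.mem_insert, Finset.mem_singleton] at ht
      rcases ht with rfl | rfl | rfl <;> assumption
    have h3 : ({i, j, q} : Finset HP).card = 3 :=
      Finset.card_eq_three.2 ⟨i, j, q, hv.ne, hqi.symm, hqj.symm, rfl⟩
    exact (Finset.eq_of_subset_of_card_le hsub (by omega)).symm
  have qX : q ∈ X := (mem_touch.1 hq).1
  have iX := hv.mem₁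
  have jX := hv.mem₂
  obtain ⟨x, xin, xcl, xq⟩ := hcon h hsp.sub hsp.fits q hq
  have qv := hact i j v hv q qX hqi hqj
  have hxv0 : x - v ≠ 0 := by
    intro h0
    rw [← sub_eq_zero.1 h0, xq] at qv
    exact lt_irrefl _ qv
  have hn : 0 < ‖x - v‖ := norm_pos_iff.2 hxv0
  -- minimality for segments
  have hseg : ∀ a b : ℂ, a ∈ Cl X → b ∈ Cl X → (Vx X a ∨ Vx X b) →
      (ip i.1 a = i.2 ∨ ip i.1 b = i.2) → (ip j.1 a = j.2 ∨ ip j.1 b = j.2) →
      (ip q.1 a = q.2 ∨ ip q.1 b = q.2) → lam h ≤ 2 * ‖a - b‖ := by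
    intro a b ha hb hvab h1 h2 h3
    obtain ⟨g1, g2, g3, g4, _⟩ := hf2 hul a b
    have hfit : Fits X (hf ![a, b]) := fun t ht => g4 _ _ (ha t ht) (hb t ht)
    have hmem : ∀ t ∈ X, (ip t.1 a = t.2 ∨ ip t.1 b = t.2) → t ∈ touch X (hf ![a, b]) := by
      intro t ht ht'
      refine mem_touch.2 ⟨ht, le_antisymm (hfit t ht) ?_⟩
      rcases ht' with h' | h'
      · rw [← h']; exact g2 _
      · rw [← h']; exact g3 _
    have hsub : touch X h ⊆ touch X (hf ![a, b]) := by
      rw [htouch]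
      intro t ht
      simp only [Finset.mem_insert, Finset.mem_singleton] at ht
      rcases ht with rfl | rfl | rfl
      · exact hmem _ iX h1
      · exact hmem _ jX h2
      · exact hmem _ qX h3
    have hspec : Special X (hf ![a, b]) := by
      refine ⟨g1, hfit, ?_, ?_⟩
      · have := Finset.card_le_card hsub
        omega
      · rcases hvab with hva | hvb
        · exact Or.inl ⟨a, hva, g2⟩
        · exact Or.inl ⟨b, hvb, g3⟩
    have := hmin _ hspec hsub
    rwa [per.1] at this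
  -- the body is the segment
  have hbody : h = hf ![v, x] := by
    obtain ⟨g1, g2, g3, g4, _⟩ := hf2 hul v x
    have hle : ∀ w, hf ![v, x] w ≤ h w := fun w => g4 _ _ (vin w) (xin w)
    obtain ⟨_, hm, _⟩ := lams
    obtain ⟨_, h2⟩ := hm _ h g1 hsp.sub hle
    refine (h2 ?_).symm
    rw [per.1]
    exact hseg v x hv.cl xcl (Or.inl ⟨i, j, hv⟩) (Or.inl hv.on₁) (Or.inl hv.on₂) (Or.inr xq)
  have hlam : lam h = 2 * ‖v - x‖ := by rw [hbody]; exact per.1 _ _
  by_cases hvxx : Vx X x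
  · left
    obtain ⟨s, t, hst⟩ := hvxx
    -- other side at `x`
    have key : ∃ t', VxOf X t' q x := by
      rcases hon s t x hst q qX xq with h' | h'
      · exact ⟨t, by rw [h']; exact (hvx s t x hst).2.1⟩
      · exact ⟨s, by rw [h']; exact hst⟩
    obtain ⟨t', ht'⟩ := key
    have htt := (htv t' q x h ht' hsp.fits xin).1
    rw [htouch] at htt
    simp only [Finset.mem_insert, Finset.mem_singleton] at htt
    rcases htt with rfl | rfl | rfl
    · -- the edge on `i`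
      have hv' := (hvx t' j v hv).2.1
      exact ⟨j, t', q, v, x, cl3_edge vxx slx hX hv' ht' hqj.symm hbody hlam
        (fun a b ha hb h0 h1 h2 h3 => hseg a b ha hb h0 h2 h1 h3)⟩
    · exact ⟨i, t', q, v, x, cl3_edge vxx slx hX hv ht' hqi.symm hbody hlam hseg⟩
    · exact absurd rfl ht'.ne
  · right
    have hin := hnv x xcl q qX xq hvxx
    have hqu := hX.unit q qX
    have hqt : ip q.1 (I * q.1) = 0 := by rw [ip_I]; unfold dt; ring
    obtain ⟨δ, hδ, hmv⟩ := move_inside xq hqt hin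
    have hfo : ∀ r : ℝ, |r| < δ → 0 ≤ r * (ip (x - v) (I * q.1) / ‖x - v‖) +
        r ^ 2 * (‖I * q.1‖ ^ 2 / (2 * ‖x - v‖)) := by
      intro r hr
      have h1 := hseg v (x + (r : ℂ) * (I * q.1)) hv.cl (hmv r hr) (Or.inl ⟨i, j, hv⟩)
        (Or.inl hv.on₁) (Or.inl hv.on₂) (Or.inr (by rw [ip_add_right, ip_smul_right, hqt, xq]; ring))
      rw [hlam] at h1
      have h2 := norm_move (x - v) (I * q.1) hxv0 (-r)
      have e1 : ‖v - (x + (r : ℂ) * (I * q.1))‖ = ‖x - v - ((-r : ℝ) : ℂ) * (I * q.1)‖ := by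
        rw [← norm_neg]; congr 1; push_cast; ring
      have e2 : ‖v - x‖ = ‖x - v‖ := norm_sub_rev _ _
      rw [e1, e2] at h1
      linarith only [h1, h2]
    have hz := first_order hδ hfo
    have hz' : ip (x - v) (I * q.1) = 0 := by
      rcases div_eq_zero_iff.1 hz with h' | h'
      · exact h'
      · exact absurd h' hn.ne'
    have hrep := rep_of_ip hqu hz'
    have hd : ip q.1 (x - v) = q.2 - ip q.1 v := by rw [ip_sub_right, xq]
    have hx : x = v + ((ip q.1 (x - v) : ℝ) : ℂ) * q.1 := by linear_combination hrep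
    refine ⟨i, j, q, v, ip q.1 (x - v), hv, qX, by rw [hd]; linarith, ?_, ?_, ?_⟩
    · rw [← hx]; exact xq
    · rw [← hx]; exact hin
    · rw [← hx]; exact hbody

/-- (BRX) -/
theorem brx (vxx : VxxStatement) (hul : HulStatement) (per : PerStatement) : BrxStatement := by
  classical
  intro X hX h i j q v d hB hneg
  obtain ⟨hspec, htouch, hij, hiq, hjq, hv, hlam, _, _⟩ := tbx vxx hul per X hX h i j q v d hB
  obtain ⟨hon, hact, _, _, hvx, _⟩ := vxx X hX
  obtain ⟨_, _, hdt⟩ := hvx i j v hB.vi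
  have iX := hB.vi.mem₁
  have jX := hB.vi.mem₂
  have qX := hB.qP
  have hi := hX.unit i iX
  have hj := hX.unit j jX
  have hq := hX.unit q qX
  have hii : ip i.1 i.1 = 1 := by rw [← normSq_ip, hi]; norm_num
  have hjj : ip j.1 j.1 = 1 := by rw [← normSq_ip, hj]; norm_num
  have hqq : ip q.1 q.1 = 1 := by rw [← normSq_ip, hq]; norm_num
  have hc2 : 0 < 1 - ip i.1 j.1 ^ 2 := by
    have h1 := dt_sq hi hj
    have : 0 < dt i.1 j.1 ^ 2 := by positivity
    linarith
  have hd := hB.pos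
  have hfi := hB.inner i iX hiq
  have hfj := hB.inner j jX hjq
  have niq : ip i.1 q.1 < 0 := by
    rw [ip_add_right, ip_smul_right, hB.vi.on₁] at hfi
    by_contra hcon
    push Not at hcon
    linarith only [hfi, mul_nonneg hd.le hcon]
  have njq : ip j.1 q.1 < 0 := by
    rw [ip_add_right, ip_smul_right, hB.vi.on₂] at hfj
    by_contra hcon
    push Not at hcon
    linarith only [hfj, mul_nonneg hd.le hcon]
  set c : ℝ := ip i.1 j.1 with hc
  -- directions of the two sides at `v`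
  set p : ℂ := (c : ℂ) * i.1 - j.1 with hp
  set p' : ℂ := (c : ℂ) * j.1 - i.1 with hp'
  set A : ℝ := -ip j.1 q.1 / (1 - c ^ 2) with hA
  set A' : ℝ := -ip i.1 q.1 / (1 - c ^ 2) with hA'
  have hA0 : 0 < A := div_pos (by linarith) hc2
  have hA0' : 0 < A' := div_pos (by linarith) hc2
  have hip : ip i.1 p = 0 := by rw [hp, ip_sub_right, ip_smul_right, hii, ← hc]; ring
  have hjp : ip j.1 p = -(1 - c ^ 2) := by
    rw [hp, ip_sub_right, ip_smul_right, hjj, ip_comm j.1 i.1, ← hc]; ring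
  have hjp' : ip j.1 p' = 0 := by
    rw [hp', ip_sub_right, ip_smul_right, hjj, ip_comm j.1 i.1, ← hc]; ring
  have hip' : ip i.1 p' = -(1 - c ^ 2) := by
    rw [hp', ip_sub_right, ip_smul_right, hii, ← hc]; ring
  have hqrep : q.1 = (A : ℂ) * p + (A' : ℂ) * p' := by
    have hz : q.1 - ((A : ℂ) * p + (A' : ℂ) * p') = 0 := by
      refine eq_zero_of_ip hdt ?_ ?_
      · rw [ip_sub_right, ip_add_right, ip_smul_right, ip_smul_right, hip, hip', hA']
        field_simp
        ring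
      · rw [ip_sub_right, ip_add_right, ip_smul_right, ip_smul_right, hjp, hjp', hA]
        field_simp
        ring
    linear_combination hz
  set z : ℂ := (A : ℂ) * p - (A' : ℂ) * p' with hz
  have hzlt : ‖z‖ < 1 := by
    have hpp : ip p p' = -c * (1 - c ^ 2) := by
      rw [hp', ip_sub_right, ip_smul_right, ip_comm p j.1, ip_comm p i.1, hip, hjp]; ring
    have h1 : ‖z‖ ^ 2 = ‖q.1‖ ^ 2 - 4 * A * A' * ip p p' := by
      rw [hqrep, hz, normSq_ip, normSq_ip]
      unfold ip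
      simp only [Complex.sub_re, Complex.sub_im, Complex.add_re, Complex.add_im, Complex.mul_re,
        Complex.mul_im, Complex.ofReal_re, Complex.ofReal_im]
      ring
    rw [hq, hpp] at h1
    have h2 : 0 < 4 * A * A' * (-c * (1 - c ^ 2)) := by
      have : 0 < -c := by linarith
      positivity
    have h3 : ‖z‖ ^ 2 < 1 ^ 2 := by rw [h1]; linarith
    exact lt_of_pow_lt_pow_left₀ 2 zero_le_one h3
  -- the new points
  have hv1 : ∀ᶠ r : ℝ in 𝓝[>] 0, ∀ t ∈ X, ip t.1 (v + (r : ℂ) * ((A : ℂ) * p)) ≤ t.2 := by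
    refine (Filter.eventually_all_finset X).2 ?_
    intro t ht
    by_cases hti : t = i
    · subst hti
      filter_upwards with r
      rw [ip_add_right, ip_smul_right, ip_smul_right, hip, hB.vi.on₁]; simp
    by_cases htj : t = j
    · subst htj
      filter_upwards [self_mem_nhdsWithin] with r hr
      rw [ip_add_right, ip_smul_right, ip_smul_right, hjp, hB.vi.on₂]
      have hr' : (0 : ℝ) < r := hr
      have : 0 < r * (A * (1 - c ^ 2)) := by positivity
      linarith only [this]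
    have hlt := hact i j v hB.vi t ht hti htj
    have : Tendsto (fun r : ℝ => ip t.1 v + r * ip t.1 ((A : ℂ) * p)) (𝓝[>] 0)
        (𝓝 (ip t.1 v + 0 * ip t.1 ((A : ℂ) * p))) :=
      ((tendsto_id.mul_const _).const_add _).mono_left nhdsWithin_le_nhds
    rw [zero_mul, add_zero] at this
    filter_upwards [this.eventually (gt_mem_nhds hlt)] with r hr
    rw [ip_add_right, ip_smul_right]
    exact le_of_lt hr
  have hv2 : ∀ᶠ r : ℝ in 𝓝[>] 0, ∀ t ∈ X, ip t.1 (v + (r : ℂ) * ((A' : ℂ) * p')) ≤ t.2 := by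
    refine (Filter.eventually_all_finset X).2 ?_
    intro t ht
    by_cases htj : t = j
    · subst htj
      filter_upwards with r
      rw [ip_add_right, ip_smul_right, ip_smul_right, hjp', hB.vi.on₂]; simp
    by_cases hti : t = i
    · subst hti
      filter_upwards [self_mem_nhdsWithin] with r hr
      rw [ip_add_right, ip_smul_right, ip_smul_right, hip', hB.vi.on₁]
      have hr' : (0 : ℝ) < r := hr
      have : 0 < r * (A' * (1 - c ^ 2)) := by positivity
      linarith only [this]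
    have hlt := hact i j v hB.vi t ht hti htj
    have : Tendsto (fun r : ℝ => ip t.1 v + r * ip t.1 ((A' : ℂ) * p')) (𝓝[>] 0)
        (𝓝 (ip t.1 v + 0 * ip t.1 ((A' : ℂ) * p'))) :=
      ((tendsto_id.mul_const _).const_add _).mono_left nhdsWithin_le_nhds
    rw [zero_mul, add_zero] at this
    filter_upwards [this.eventually (gt_mem_nhds hlt)] with r hr
    rw [ip_add_right, ip_smul_right]
    exact le_of_lt hr
  set M : ℝ := ‖(A : ℂ) * p‖ ^ 2 / (2 * ‖(d : ℂ) * q.1‖) + ‖(A' : ℂ) * p'‖ ^ 2 / (2 * ‖(d : ℂ) * q.1‖)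
    with hM
  have hev1 : ∀ᶠ r : ℝ in 𝓝[>] 0, r * M < 1 - ‖z‖ := by
    have : Tendsto (fun r : ℝ => r * M) (𝓝[>] 0) (𝓝 (0 * M)) :=
      (tendsto_id.mul_const M).mono_left nhdsWithin_le_nhds
    rw [zero_mul] at this
    exact this.eventually (gt_mem_nhds (by linarith))
  obtain ⟨r, ⟨⟨h1, h2⟩, h3⟩, h4⟩ := (((hv1.and hv2).and hev1).and self_mem_nhdsWithin).exists
  have hr : (0 : ℝ) < r := h4
  have hdq : (d : ℂ) * q.1 ≠ 0 := by
    intro h0
    have := congrArg norm h0
    rw [norm_mul, hq, Complex.norm_real, Real.norm_of_nonneg hd.le, norm_zero] at this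
    linarith
  have hdn : ‖(d : ℂ) * q.1‖ = d := by
    rw [norm_mul, hq, Complex.norm_real, Real.norm_of_nonneg hd.le, mul_one]
  have hfcl : ∀ t ∈ X, ip t.1 (v + (d : ℂ) * q.1) ≤ t.2 := by
    intro t ht
    by_cases htq : t = q
    · rw [htq, hB.foot]
    · exact (hB.inner t ht htq).le
  refine ⟨hf ![v + (r : ℂ) * ((A : ℂ) * p), v + (r : ℂ) * ((A' : ℂ) * p'), v + (d : ℂ) * q.1],
    (hul 2 _).1, ?_, ?_, ?_⟩
  · exact fun t ht => hf3_le hul (h1 t ht) (h2 t ht) (hfcl t ht)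
  · intro t ht
    have htX : t ∈ X := by
      simp only [Finset.mem_insert, Finset.mem_singleton] at ht
      rcases ht with rfl | rfl | rfl <;> assumption
    refine mem_touch.2 ⟨htX, le_antisymm (hf3_le hul (h1 t htX) (h2 t htX) (hfcl t htX)) ?_⟩
    obtain ⟨g1, g2, g3⟩ := le_hf3 (a := v + (r : ℂ) * ((A : ℂ) * p))
      (b := v + (r : ℂ) * ((A' : ℂ) * p')) (c := v + (d : ℂ) * q.1) hul t.1
    simp only [Finset.mem_insert, Finset.mem_singleton] at ht
    rcases ht with rfl | rfl | rfl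
    · rw [ip_add_right, ip_smul_right, ip_smul_right, hip, hB.vi.on₁] at g1
      simpa using g1
    · rw [ip_add_right, ip_smul_right, ip_smul_right, hjp', hB.vi.on₂] at g2
      simpa using g2
    · rw [hB.foot] at g3; exact g3
  · rw [hlam, per.2.1]
    have n1 := norm_move ((d : ℂ) * q.1) ((A : ℂ) * p) hdq r
    have n2 := norm_move ((d : ℂ) * q.1) ((A' : ℂ) * p') hdq r
    have e1 : ‖v + (d : ℂ) * q.1 - (v + (r : ℂ) * ((A : ℂ) * p))‖ =
        ‖(d : ℂ) * q.1 - (r : ℂ) * ((A : ℂ) * p)‖ := by congr 1; ring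
    have e2 : ‖v + (r : ℂ) * ((A' : ℂ) * p') - (v + (d : ℂ) * q.1)‖ =
        ‖(d : ℂ) * q.1 - (r : ℂ) * ((A' : ℂ) * p')‖ := by
      rw [← norm_neg]; congr 1; ring
    have e3 : ‖v + (r : ℂ) * ((A : ℂ) * p) - (v + (r : ℂ) * ((A' : ℂ) * p'))‖ = r * ‖z‖ := by
      have : v + (r : ℂ) * ((A : ℂ) * p) - (v + (r : ℂ) * ((A' : ℂ) * p')) = (r : ℂ) * z := by
        rw [hz]; ring
      rw [this, norm_mul, Complex.norm_real, Real.norm_of_nonneg hr.le]
    rw [e1, e2, e3]
    have e4 : ip ((d : ℂ) * q.1) ((A : ℂ) * p) / ‖(d : ℂ) * q.1‖ +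
        ip ((d : ℂ) * q.1) ((A' : ℂ) * p') / ‖(d : ℂ) * q.1‖ = 1 := by
      rw [← add_div, ← ip_add_right, ← hqrep, ip_smul_left, hqq, hdn]
      field_simp
    have h5 : r * (r * M) < r * (1 - ‖z‖) := mul_lt_mul_of_pos_left h3 hr
    have h6 : r * (r * M) = r ^ 2 * (‖(A : ℂ) * p‖ ^ 2 / (2 * ‖(d : ℂ) * q.1‖)) +
        r ^ 2 * (‖(A' : ℂ) * p'‖ ^ 2 / (2 * ‖(d : ℂ) * q.1‖)) := by rw [hM]; ring
    rw [h6] at h5
    rw [hdn] at n1 n2 e4 h5
    have e5 : r * (ip ((d : ℂ) * q.1) ((A : ℂ) * p) / d) +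
        r * (ip ((d : ℂ) * q.1) ((A' : ℂ) * p') / d) = r := by
      rw [← mul_add, e4, mul_one]
    linarith

end Pool.Agent.XQ.H84
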