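import Pool.Agent.Helper84_XQ.Ac4

set_option autoImplicit false

namespace Pool.Agent.XQ.H84

open MeasureTheory Complex Filter Topology Pool.Agent.H62T
open Pool.Agent.H16F (Sublin)
open Pool.Agent.AEU
open Pool.Agent.XQ

theorem normSq_ip (z : ℂ) : ‖z‖ ^ 2 = ip z z := by
  have := Complex.normSq_eq_norm_sq z
  rw [Complex.normSq_apply] at this
  unfold ip; linarith

/-- first order bound for the length -/
theorem norm_move (u d : ℂ) (hu : u ≠ 0) (r : ℝ) :
    ‖u - (r : ℂ) * d‖ ≤ ‖u‖ - r * (ip u d / ‖u‖) + r ^ 2 * (‖d‖ ^ 2 / (2 * ‖u‖)) := by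
  have hA : 0 < ‖u‖ := norm_pos_iff.2 hu
  have h1 : ‖u - (r : ℂ) * d‖ ^ 2 = ‖u‖ ^ 2 - 2 * r * ip u d + r ^ 2 * ‖d‖ ^ 2 := by
    rw [normSq_ip, normSq_ip, normSq_ip]
    simp only [ip, Complex.sub_re, Complex.sub_im, Complex.mul_re, Complex.mul_im, Complex.ofReal_re,
      Complex.ofReal_im]
    ring
  have h2 : 2 * ‖u‖ * ‖u - (r : ℂ) * d‖ ≤ ‖u‖ ^ 2 + ‖u - (r : ℂ) * d‖ ^ 2 := by
    nlinarith [sq_nonneg (‖u‖ - ‖u - (r : ℂ) * d‖)]
  have h3 : ‖u‖ - r * (ip u d / ‖u‖) + r ^ 2 * (‖d‖ ^ 2 / (2 * ‖u‖)) =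
      (‖u‖ ^ 2 + (‖u‖ ^ 2 - 2 * r * ip u d + r ^ 2 * ‖d‖ ^ 2)) / (2 * ‖u‖) := by
    field_simp
    ring
  rw [h3, ← h1, le_div_iff₀ (by positivity)]
  linarith

theorem ip_comm (a b : ℂ) : ip a b = ip b a := by unfold ip; ring

theorem ip_add_right (a b c : ℂ) : ip a (b + c) = ip a b + ip a c := by
  unfold ip; simp only [Complex.add_re, Complex.add_im]; ring

theorem ip_sub_right (a b c : ℂ) : ip a (b - c) = ip a b - ip a c := by
  unfold ip; simp only [Complex.sub_re, Complex.sub_im]; ring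

theorem ip_smul_right (a b : ℂ) (r : ℝ) : ip a ((r : ℂ) * b) = r * ip a b := by
  unfold ip; simp only [Complex.mul_re, Complex.mul_im, Complex.ofReal_re, Complex.ofReal_im]; ring

theorem ip_add_left (a b c : ℂ) : ip (a + b) c = ip a c + ip b c := by
  unfold ip; simp only [Complex.add_re, Complex.add_im]; ring

theorem ip_smul_left (a b : ℂ) (r : ℝ) : ip ((r : ℂ) * a) b = r * ip a b := by
  unfold ip; simp only [Complex.mul_re, Complex.mul_im, Complex.ofReal_re, Complex.ofReal_im]; ring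

theorem ip_div_left (a b : ℂ) (r : ℝ) : ip (a / (r : ℂ)) b = ip a b / r := by
  have : a / (r : ℂ) = ((r⁻¹ : ℝ) : ℂ) * a := by push_cast; rw [div_eq_mul_inv, mul_comm]
  rw [this, ip_smul_left]
  rw [div_eq_mul_inv, mul_comm]

theorem ip_div_right (a b : ℂ) (r : ℝ) : ip a (b / (r : ℂ)) = ip a b / r := by
  rw [ip_comm, ip_div_left, ip_comm]

/-- a vector orthogonal to two independent vectors vanishes -/
theorem eq_zero_of_ip {a b z : ℂ} (h : dt a b ≠ 0) (h1 : ip a z = 0) (h2 : ip b z = 0) : z = 0 := by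
  unfold dt at h
  unfold ip at h1 h2
  have e1 : (a.re * b.im - a.im * b.re) * z.re = 0 := by linear_combination b.im * h1 - a.im * h2
  have e2 : (a.re * b.im - a.im * b.re) * z.im = 0 := by linear_combination a.re * h2 - b.re * h1
  have r1 : z.re = 0 := by
    rcases mul_eq_zero.1 e1 with h' | h'
    · exact absurd h' h
    · exact h'
  have r2 : z.im = 0 := by
    rcases mul_eq_zero.1 e2 with h' | h'
    · exact absurd h' h
    · exact h'
  exact Complex.ext r1 r2

/-- `dt² + ip² = 1` for unit vectors -/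
theorem dt_sq {a b : ℂ} (ha : ‖a‖ = 1) (hb : ‖b‖ = 1) : dt a b ^ 2 + ip a b ^ 2 = 1 := by
  have h1 := normSq_of_norm ha
  have h2 := normSq_of_norm hb
  unfold dt ip
  calc _ = (a.re * a.re + a.im * a.im) * (b.re * b.re + b.im * b.im) := by ring
    _ = 1 := by rw [h1, h2]; ring

/-- (SLX) -/
theorem slx (vxx : VxxStatement) : SlxStatement := by
  intro P hP k l w hkl v hv x hx hvw hxw
  obtain ⟨_, hact, _, _, hvx, _⟩ := vxx P hP
  obtain ⟨_, _, hdt⟩ := hvx k l w hkl
  have hk := hP.unit k hkl.mem₁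
  have hl := hP.unit l hkl.mem₂
  set e : ℂ := (v - w) / (‖v - w‖ : ℂ) + (x - w) / (‖x - w‖ : ℂ) with he
  have hvpos : 0 < ‖v - w‖ := norm_pos_iff.2 (sub_ne_zero.2 hvw)
  have hxpos : 0 < ‖x - w‖ := norm_pos_iff.2 (sub_ne_zero.2 hxw)
  have hc : ip k.1 l.1 ^ 2 < 1 := by
    have := dt_sq hk hl
    have h2 : 0 < dt k.1 l.1 ^ 2 := by positivity
    linarith
  -- `e` and the normals
  have hle : ∀ s ∈ P, ip s.1 w = s.2 → ∀ y ∈ Cl P, ip s.1 (y - w) ≤ 0 := by
    intro s hs h1 y hy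
    rw [ip_sub_right, h1]
    linarith [hy s hs]
  have hes : ∀ s : HP, ip s.1 e = ip s.1 (v - w) / ‖v - w‖ + ip s.1 (x - w) / ‖x - w‖ := by
    intro s
    rw [he, ip_add_right, ip_div_right, ip_div_right]
  have hek : ip k.1 e ≤ 0 := by
    rw [hes]
    have h1 := div_nonpos_of_nonpos_of_nonneg (hle k hkl.mem₁ hkl.on₁ v hv) hvpos.le
    have h2 := div_nonpos_of_nonpos_of_nonneg (hle k hkl.mem₁ hkl.on₁ x hx) hxpos.le
    linarith
  have hel : ip l.1 e ≤ 0 := by
    rw [hes]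
    have h1 := div_nonpos_of_nonpos_of_nonneg (hle l hkl.mem₂ hkl.on₂ v hv) hvpos.le
    have h2 := div_nonpos_of_nonpos_of_nonneg (hle l hkl.mem₂ hkl.on₂ x hx) hxpos.le
    linarith
  constructor
  · by_contra hcon
    push Not at hcon
    obtain ⟨h1, h2⟩ := hcon
    unfold Ac at h1 h2
    push Not at h1 h2
    rw [ip_comm e k.1, ip_comm e l.1] at h1
    rw [ip_comm e k.1, ip_comm e l.1, ip_comm l.1 k.1] at h2
    -- both vanish
    have hq : ip l.1 e = 0 := by
      by_contra hne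
      have hlt : ip l.1 e < 0 := lt_of_le_of_ne hel hne
      rcases le_total 0 (ip k.1 l.1) with hs | hs
      · nlinarith only [h1, hc, hlt, mul_le_mul_of_nonneg_left h2 hs]
      · nlinarith [mul_nonneg_of_nonpos_of_nonpos hs hek]
    have hp : ip k.1 e = 0 := by
      rw [hq, mul_zero] at h2
      exact le_antisymm hek h2
    have e1 : ip k.1 (v - w) = 0 := by
      have h3 := hle k hkl.mem₁ hkl.on₁ v hv
      have h4 := div_nonpos_of_nonpos_of_nonneg (hle k hkl.mem₁ hkl.on₁ x hx) hxpos.le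
      rw [hes] at hp
      have h5 := div_nonpos_of_nonpos_of_nonneg h3 hvpos.le
      have h6 : ip k.1 (v - w) / ‖v - w‖ = 0 := by linarith
      rcases div_eq_zero_iff.1 h6 with h | h
      · exact h
      · exact absurd h hvpos.ne'
    have e2 : ip l.1 (v - w) = 0 := by
      have h3 := hle l hkl.mem₂ hkl.on₂ v hv
      have h4 := div_nonpos_of_nonpos_of_nonneg (hle l hkl.mem₂ hkl.on₂ x hx) hxpos.le
      rw [hes] at hq
      have h5 := div_nonpos_of_nonpos_of_nonneg h3 hvpos.le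
      have h6 : ip l.1 (v - w) / ‖v - w‖ = 0 := by linarith
      rcases div_eq_zero_iff.1 h6 with h | h
      · exact h
      · exact absurd h hvpos.ne'
    exact hvw (sub_eq_zero.1 (eq_zero_of_ip hdt e1 e2))
  · intro hac
    unfold Ac at hac
    -- the direction
    set d : ℂ := ((ip k.1 l.1 : ℝ) : ℂ) * k.1 - l.1 with hd
    have hkk : ip k.1 k.1 = 1 := by
      rw [← normSq_ip, hk]; norm_num
    have hll : ip l.1 l.1 = 1 := by
      rw [← normSq_ip, hl]; norm_num
    have hkd : ip k.1 d = 0 := by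
      rw [hd, ip_sub_right, ip_smul_right, hkk]; ring
    have hld : ip l.1 d < 0 := by
      rw [hd, ip_sub_right, ip_smul_right, hll, ip_comm l.1 k.1]
      linarith only [hc]
    have hed : 0 < ip e d := by
      rw [hd, ip_sub_right, ip_smul_right]
      linarith
    have hd0 : d ≠ 0 := by
      intro h0
      rw [h0] at hed
      simp [ip] at hed
    set M : ℝ := ‖d‖ ^ 2 / (2 * ‖v - w‖) + ‖d‖ ^ 2 / (2 * ‖x - w‖) with hM
    have hM0 : 0 ≤ M := by positivity
    -- small `r`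
    have hev1 : ∀ᶠ r : ℝ in 𝓝[>] 0, r * M < ip e d := by
      have : Tendsto (fun r : ℝ => r * M) (𝓝[>] 0) (𝓝 (0 * M)) :=
        (tendsto_id.mul_const M).mono_left nhdsWithin_le_nhds
      rw [zero_mul] at this
      exact this.eventually (gt_mem_nhds hed)
    have hev2 : ∀ t ∈ P, ∀ᶠ r : ℝ in 𝓝[>] 0, ip t.1 (w + (r : ℂ) * d) ≤ t.2 := by
      intro t ht
      by_cases htk : t = k
      · subst htk
        filter_upwards with r
        rw [ip_add_right, ip_smul_right, hkd, hkl.on₁]; simp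
      by_cases htl : t = l
      · subst htl
        filter_upwards [self_mem_nhdsWithin] with r hr
        rw [ip_add_right, ip_smul_right, hkl.on₂]
        have hr' : (0 : ℝ) < r := hr
        nlinarith only [hld, hr']
      have hlt := hact k l w hkl t ht htk htl
      have : Tendsto (fun r : ℝ => ip t.1 w + r * ip t.1 d) (𝓝[>] 0) (𝓝 (ip t.1 w + 0 * ip t.1 d)) :=
        ((tendsto_id.mul_const (ip t.1 d)).const_add (ip t.1 w)).mono_left nhdsWithin_le_nhds
      rw [zero_mul, add_zero] at this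
      filter_upwards [this.eventually (gt_mem_nhds hlt)] with r hr
      rw [ip_add_right, ip_smul_right]
      exact le_of_lt hr
    have hev3 : ∀ᶠ r : ℝ in 𝓝[>] 0, ∀ t ∈ P, ip t.1 (w + (r : ℂ) * d) ≤ t.2 :=
      (Filter.eventually_all_finset P).2 hev2
    obtain ⟨r, ⟨h1, h2⟩, h3⟩ := ((hev1.and hev3).and self_mem_nhdsWithin).exists
    have hr : (0 : ℝ) < r := h3
    refine ⟨w + (r : ℂ) * d, h2, ?_, ?_, ?_⟩
    · intro h
      have : (r : ℂ) * d = 0 := by simpa using h
      rcases mul_eq_zero.1 this with h' | h'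
      · exact hr.ne' (by exact_mod_cast h')
      · exact hd0 h'
    · rw [ip_add_right, ip_smul_right, hkd, hkl.on₁]; simp
    · have n1 := norm_move (v - w) d (sub_ne_zero.2 hvw) r
      have n2 := norm_move (x - w) d (sub_ne_zero.2 hxw) r
      have e1 : ‖v - (w + (r : ℂ) * d)‖ = ‖v - w - (r : ℂ) * d‖ := by congr 1; ring
      have e2 : ‖w + (r : ℂ) * d - x‖ = ‖x - w - (r : ℂ) * d‖ := by
        rw [← norm_neg]; congr 1; ring
      have e3 : ‖w - x‖ = ‖x - w‖ := norm_sub_rev _ _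
      rw [e1, e2, e3]
      have e4 : ip e d = ip (v - w) d / ‖v - w‖ + ip (x - w) d / ‖x - w‖ := by
        rw [he, ip_add_left, ip_div_left, ip_div_left]
      have h5 : r * (r * M) < r * ip e d := mul_lt_mul_of_pos_left h1 hr
      rw [e4] at h5
      have h6 : r * (r * M) = r ^ 2 * (‖d‖ ^ 2 / (2 * ‖v - w‖)) + r ^ 2 * (‖d‖ ^ 2 / (2 * ‖x - w‖)) := by
        rw [hM]; ring
      rw [h6] at h5
      linarith only [n1, n2, h5]
end Pool.Agent.XQ.H84
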