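import Pool.Agent.Helper84_XQ.Umx

set_option autoImplicit false

namespace Pool.Agent.XQ.H84

open MeasureTheory Complex Filter Topology Pool.Agent.H62T
open Pool.Agent.H16F (Sublin)
open Pool.Agent.AEU
open Pool.Agent.XQ

theorem ip_abs_lt {a b : ℂ} (ha : ‖a‖ = 1) (hb : ‖b‖ = 1) (h : dt a b ≠ 0) : |ip a b| < 1 := by
  have h1 := dt_sq ha hb
  have h2 : 0 < dt a b ^ 2 := by positivity
  have h3 : ip a b ^ 2 < 1 := by linarith
  rw [← one_pow 2] at h3
  exact lt_of_pow_lt_pow_left₀ 2 zero_le_one (by rwa [sq_abs])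

theorem ip_I (a b : ℂ) : ip a (I * b) = - dt a b := by
  unfold ip dt
  simp only [Complex.mul_re, Complex.mul_im, Complex.I_re, Complex.I_im]
  ring

/-- membership in the body for a two point hull -/
theorem hf2 (hul : HulStatement) (a b : ℂ) : Sublin (hf ![a, b]) ∧ In a (hf ![a, b]) ∧
    In b (hf ![a, b]) ∧ (∀ (w : ℂ) (c : ℝ), ip w a ≤ c → ip w b ≤ c → hf ![a, b] w ≤ c) ∧
    ∀ (w : ℂ) (c : ℝ), ip w a < c → ip w b < c → hf ![a, b] w < c := by
  obtain ⟨h1, h2, _, _, h5, h6⟩ := hul 1 ![a, b]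
  refine ⟨h1, h2 0, h2 1, ?_, ?_⟩
  · intro w c ha hb
    rw [h5]
    intro m
    fin_cases m
    · exact ha
    · exact hb
  · intro w c ha hb
    rw [h6]
    intro m
    fin_cases m
    · exact ha
    · exact hb

/-- (TBX) -/
theorem tbx (vxx : VxxStatement) (hul : HulStatement) (per : PerStatement) : TbxStatement := by
  classical
  intro X hX h i j q v d hB
  obtain ⟨hon, hact, _, _, hvx, _⟩ := vxx X hX
  obtain ⟨hv, hvs, hdt⟩ := hvx i j v hB.vi
  have hi := hX.unit i hB.vi.mem₁
  have hj := hX.unit j hB.vi.mem₂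
  have hq := hX.unit q hB.qP
  have hqq : ip q.1 q.1 = 1 := by rw [← normSq_ip, hq]; norm_num
  have hqv : ip q.1 v = q.2 - d := by
    have := hB.foot
    rw [ip_add_right, ip_smul_right, hqq] at this
    linarith
  have hiq : i ≠ q := by
    intro h'
    have := hB.vi.on₁
    rw [h', hqv] at this
    linarith [hB.pos]
  have hjq : j ≠ q := by
    intro h'
    have := hB.vi.on₂
    rw [h', hqv] at this
    linarith [hB.pos]
  have hfi := hB.inner i hB.vi.mem₁ hiq
  have hfj := hB.inner j hB.vi.mem₂ hjq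
  have niq : ip i.1 q.1 < 0 := by
    rw [ip_add_right, ip_smul_right, hB.vi.on₁] at hfi
    by_contra hcon
    push Not at hcon
    nlinarith [mul_nonneg hB.pos.le hcon]
  have njq : ip j.1 q.1 < 0 := by
    rw [ip_add_right, ip_smul_right, hB.vi.on₂] at hfj
    by_contra hcon
    push Not at hcon
    nlinarith [mul_nonneg hB.pos.le hcon]
  obtain ⟨hsub, vin, fin, hle, hlt⟩ := hf2 hul v (v + (d : ℂ) * q.1)
  rw [← hB.body] at hsub vin fin hle hlt
  have hfits : Fits X h := by
    intro t ht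
    refine hle _ _ (hB.vi.cl t ht) ?_
    by_cases htq : t = q
    · rw [htq, hB.foot]
    · exact (hB.inner t ht htq).le
  have htouch : touch X h = {i, j, q} := by
    ext t
    rw [mem_touch]
    simp only [Finset.mem_insert, Finset.mem_singleton]
    constructor
    · rintro ⟨htX, htt⟩
      by_contra hcon
      push Not at hcon
      obtain ⟨h1, h2, h3⟩ := hcon
      have := hlt t.1 t.2 (hact i j v hB.vi t htX h1 h2) (hB.inner t htX h3)
      exact (ne_of_lt this) htt
    · rintro (rfl | rfl | rfl)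
      · exact ⟨hB.vi.mem₁, le_antisymm (hfits _ hB.vi.mem₁) (by
          have := vin t.1; rwa [hB.vi.on₁] at this)⟩
      · exact ⟨hB.vi.mem₂, le_antisymm (hfits _ hB.vi.mem₂) (by
          have := vin t.1; rwa [hB.vi.on₂] at this)⟩
      · exact ⟨hB.qP, le_antisymm (hfits _ hB.qP) (by
          have := fin t.1; rwa [hB.foot] at this)⟩
  have hlam : lam h = 2 * d := by
    rw [hB.body, per.1]
    have : v - (v + (d : ℂ) * q.1) = -((d : ℂ) * q.1) := by ring
    rw [this, norm_neg, norm_mul, hq, Complex.norm_real, Real.norm_of_nonneg hB.pos.le, mul_one]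
  have hcard : (touch X h).card = 3 := by
    rw [htouch]
    exact Finset.card_eq_three.2 ⟨i, j, q, hB.vi.ne, hiq, hjq, rfl⟩
  have hlen : q.2 - ip q.1 (vx i j) = d := by rw [← hv, hqv]; ring
  refine ⟨⟨hsub, hfits, hcard.ge, Or.inl ⟨v, ⟨i, j, hB.vi⟩, vin⟩⟩, htouch, hB.vi.ne, hiq, hjq, hv,
    hlam, ?_, ?_⟩
  · unfold eB
    rw [hlen, abs_of_pos hB.pos, hlam]
  · intro hNp
    have hd1 : dt i.1 q.1 ≠ 0 := hNp i (by simp) q (by simp) hiq
    have hd2 : dt j.1 q.1 ≠ 0 := hNp j (by simp) q (by simp) hjq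
    refine {
      ui := hi
      uj := hj
      uq := hq
      ij := rfl
      iq := rfl
      jq := rfl
      lt := ip_abs_lt hi hj hdt
      lta := (abs_lt.1 (ip_abs_lt hi hq hd1)).1
      ltb := (abs_lt.1 (ip_abs_lt hj hq hd2)).1
      nega := niq
      negb := njq
      len := by rw [hlen, hlam]; ring }

/-- (TAX) -/
theorem tax (vxx : VxxStatement) (hul : HulStatement) (per : PerStatement) : TaxStatement := by
  classical
  intro X hX h i j k v w hA
  obtain ⟨hon, hact, _, _, hvx, _⟩ := vxx X hX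
  obtain ⟨hv, hvs, hdt⟩ := hvx i j v hA.vi
  obtain ⟨hw, hws, hdt'⟩ := hvx j k w hA.wk
  have hi := hX.unit i hA.vi.mem₁
  have hj := hX.unit j hA.vi.mem₂
  have hk := hX.unit k hA.wk.mem₂
  have hij := hA.vi.ne
  have hjk := hA.wk.ne
  have hik := hA.ne
  have iX := hA.vi.mem₁
  have jX := hA.vi.mem₂
  have kX := hA.wk.mem₂
  have vk := hact i j v hA.vi k kX hik.symm hjk.symm
  have wi := hact j k w hA.wk i iX hij hik
  obtain ⟨hsub, vin, win, hle, hlt⟩ := hf2 hul v w
  rw [← hA.body] at hsub vin win hle hlt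
  have hfits : Fits X h := fun t ht => hle _ _ (hA.vi.cl t ht) (hA.wk.cl t ht)
  have htouch : touch X h = {i, j, k} := by
    ext t
    rw [mem_touch]
    simp only [Finset.mem_insert, Finset.mem_singleton]
    constructor
    · rintro ⟨htX, htt⟩
      by_contra hcon
      push Not at hcon
      obtain ⟨h1, h2, h3⟩ := hcon
      have := hlt t.1 t.2 (hact i j v hA.vi t htX h1 h2) (hact j k w hA.wk t htX h2 h3)
      exact (ne_of_lt this) htt
    · rintro (rfl | rfl | rfl)
      · exact ⟨iX, le_antisymm (hfits _ iX) (by have := vin t.1; rwa [hA.vi.on₁] at this)⟩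
      · exact ⟨jX, le_antisymm (hfits _ jX) (by have := vin t.1; rwa [hA.vi.on₂] at this)⟩
      · exact ⟨kX, le_antisymm (hfits _ kX) (by have := win t.1; rwa [hA.wk.on₂] at this)⟩
  have hvw : v - w ≠ 0 := by
    intro h0
    have : v = w := sub_eq_zero.1 h0
    rw [this, hA.wk.on₂] at vk
    exact lt_irrefl _ vk
  have hlam : lam h = eA i j k := by
    rw [hA.body, per.1]
    unfold eA
    rw [← hv, ← hw]
  have hpos : 0 < eA i j k := by
    unfold eA
    rw [← hv, ← hw]
    have := norm_pos_iff.2 hvw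
    positivity
  have hcard3 : ({i, j, k} : Finset HP).card = 3 :=
    Finset.card_eq_three.2 ⟨i, j, k, hij, hik, hjk, rfl⟩
  have hcard : (touch X h).card = 3 := by rw [htouch]; exact hcard3
  -- orientation
  have hor : 0 < dt i.1 j.1 * dt j.1 k.1 := by
    have hI : I * j.1 ≠ 0 := mul_ne_zero Complex.I_ne_zero (by intro h0; rw [h0] at hj; simp at hj)
    have hpar : dt (I * j.1) (w - v) = 0 := by
      have h1 : ip j.1 (w - v) = 0 := by rw [ip_sub_right, hA.wk.on₁, hA.vi.on₂]; ring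
      have : dt (I * j.1) (w - v) = - ip j.1 (w - v) := by unfold dt ip; simp; ring
      rw [this, h1, neg_zero]
    obtain ⟨l, hl⟩ := mult_of_dt hI hpar
    have e1 : ip i.1 (w - v) = -(l * dt i.1 j.1) := by
      rw [hl, ip_smul_right, ip_I]; ring
    have e2 : ip k.1 (v - w) = -(l * dt j.1 k.1) := by
      have : v - w = ((-l : ℝ) : ℂ) * (I * j.1) := by push_cast; linear_combination -hl
      rw [this, ip_smul_right, ip_I]; unfold dt; ring
    have n1 : ip i.1 (w - v) < 0 := by rw [ip_sub_right, hA.vi.on₁]; linarith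
    have n2 : ip k.1 (v - w) < 0 := by rw [ip_sub_right, hA.wk.on₂]; linarith
    rw [e1] at n1
    rw [e2] at n2
    have hl0 : l ≠ 0 := by rintro rfl; simp at n1
    have h3 : 0 < (l * dt i.1 j.1) * (l * dt j.1 k.1) := mul_pos (by linarith) (by linarith)
    have h4 : (l * dt i.1 j.1) * (l * dt j.1 k.1) = l ^ 2 * (dt i.1 j.1 * dt j.1 k.1) := by ring
    rw [h4] at h3
    exact (mul_pos_iff_of_pos_left (by positivity)).1 h3
  have in1 : ip k.1 (vx i j) < k.2 := by rw [← hv]; exact vk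
  have in2 : ip i.1 (vx j k) < i.2 := by rw [← hw]; exact wi
  refine ⟨⟨hsub, hfits, hcard.ge, Or.inl ⟨v, ⟨i, j, hA.vi⟩, vin⟩⟩, htouch, hij, hjk, hv, hw, hlam,
    hpos, ?_, ?_, ?_, ?_⟩
  · intro c1 c2
    refine ⟨i, j, k, rfl, hcard3, ?_⟩
    exact {
      ui := hi
      uj := hj
      uk := hk
      ij := rfl
      jk := rfl
      pos := c1
      pos' := c2
      lt := (abs_lt.1 (ip_abs_lt hi hj hdt)).2
      lt' := (abs_lt.1 (ip_abs_lt hj hk hdt')).2
      or := hor
      len := hlam.symm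
      in₁ := in1
      in₂ := in2 }
  · intro c1 c2
    exact ⟨i, j, k, rfl, hcard3, hi, hj, hk, rfl, c1, (abs_lt.1 (ip_abs_lt hi hj hdt)).2, c2, hor,
      hlam.symm, in1, in2⟩
  · intro c1 c2
    have e1 : vx k j = w := (hvx k j w hws).1.symm
    have e2 : vx j i = v := (hvx j i v hvs).1.symm
    refine ⟨k, j, i, ?_, ?_, hk, hj, hi, ip_comm _ _, c2, (abs_lt.1 (ip_abs_lt hj hk hdt')).2, ?_,
      ?_, ?_, ?_, ?_⟩
    · ext t; simp only [Finset.mem_insert, Finset.mem_singleton]; tauto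
    · exact hcard3
    · rw [ip_comm]; exact c1
    · have : dt k.1 j.1 * dt j.1 i.1 = dt i.1 j.1 * dt j.1 k.1 := by unfold dt; ring
      rw [this]; exact hor
    · rw [hlam]; unfold eA; rw [e1, e2, ← hv, ← hw, norm_sub_rev]
    · rw [e1]; exact wi
    · rw [e2]; exact vk
  · intro c1 c2
    have hjj := normSq_of_norm hj
    have : dt i.1 k.1 = dt i.1 j.1 * ip j.1 k.1 + ip i.1 j.1 * dt j.1 k.1 := by
      unfold dt ip
      linear_combination (-(i.1.re * k.1.im - i.1.im * k.1.re)) * hjj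
    rw [this, c1, c2]; ring

end Pool.Agent.XQ.H84
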