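import Pool.Agent.Helper84_XQ.Xc

set_option autoImplicit false

namespace Pool.Agent.XQ.H84

open MeasureTheory Complex Filter Topology Pool.Agent.H62T
open Pool.Agent.H16F (Sublin)
open Pool.Agent.AEU
open Pool.Agent.XQ

/-- two segments with the same direction and the same length between two independent lines -/
theorem seg_core {p p' q q' r r' u sp sq : ℂ} {l t t' : ℝ} (hdt : dt sp sq ≠ 0)
    (hp : ip sp p = ip sp p') (hq : ip sq q = ip sq q') (e : q = p + (l : ℂ) * u)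
    (e' : q' = p' + (l : ℂ) * u) (ht0 : 0 ≤ t) (ht1 : t ≤ 1) (ht0' : 0 ≤ t') (ht1' : t' ≤ 1)
    (hr : r = p + (t : ℂ) * (q - p)) (hr' : r' = p' + (t' : ℂ) * (q' - p')) :
    p = p' ∧ q = q' ∧ (∀ w, ip w r ≤ max (ip w p) (ip w q)) ∧
      ∀ w, ip w r' ≤ max (ip w p) (ip w q) := by
  have hz : p - p' = 0 := by
    refine eq_zero_of_ip hdt ?_ ?_
    · rw [ip_sub_right, hp]; ring
    · have : p - p' = q - q' := by rw [e, e']; ring
      rw [this, ip_sub_right, hq]; ring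
  have hpp : p = p' := sub_eq_zero.1 hz
  have hqq : q = q' := by rw [e, e', hpp]
  have hmid : ∀ (t : ℝ), 0 ≤ t → t ≤ 1 → ∀ w, ip w (p + (t : ℂ) * (q - p)) ≤ max (ip w p) (ip w q) := by
    intro t h0 h1 w
    rw [ip_add_right, ip_smul_right, ip_sub_right]
    have m1 := le_max_left (ip w p) (ip w q)
    have m2 := le_max_right (ip w p) (ip w q)
    linarith only [mul_le_mul_of_nonneg_left m2 h0, mul_le_mul_of_nonneg_left m1 (sub_nonneg.2 h1)]
  refine ⟨hpp, hqq, ?_, ?_⟩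
  · intro w
    rw [hr]; exact hmid t ht0 ht1 w
  · intro w
    rw [hr', ← hpp, ← hqq]; exact hmid t' ht0' ht1' w

theorem hf3_le {a b c : ℂ} (hul : HulStatement) {w : ℂ} {M : ℝ} (h1 : ip w a ≤ M) (h2 : ip w b ≤ M)
    (h3 : ip w c ≤ M) : hf ![a, b, c] w ≤ M := by
  rw [(hul 2 ![a, b, c]).2.2.2.2.1]
  intro m
  fin_cases m
  · exact h1
  · exact h2
  · exact h3

theorem le_hf3 {a b c : ℂ} (hul : HulStatement) (w : ℂ) : ip w a ≤ hf ![a, b, c] w ∧
    ip w b ≤ hf ![a, b, c] w ∧ ip w c ≤ hf ![a, b, c] w :=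
  ⟨(hul 2 ![a, b, c]).2.1 0 w, (hul 2 ![a, b, c]).2.1 1 w, (hul 2 ![a, b, c]).2.1 2 w⟩

/-- collinear triples, extreme points in the first two places -/
theorem col_core (hul : HulStatement) {p p' q q' r r' u sp sq : ℂ} {al be al' be' : ℝ}
    (hdt : dt sp sq ≠ 0) (hp : ip sp p = ip sp p') (hq : ip sq q = ip sq q')
    (hb0 : 0 ≤ be) (hab : be ≤ al) (hb0' : 0 ≤ be') (hab' : be' ≤ al') (hl : al = al')
    (e1 : q = p + (al : ℂ) * u) (e2 : r = p + (be : ℂ) * u) (e1' : q' = p' + (al' : ℂ) * u)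
    (e2' : r' = p' + (be' : ℂ) * u) : p = p' ∧ q = q' ∧ (∀ w, ip w r ≤ max (ip w p) (ip w q)) ∧
      ∀ w, ip w r' ≤ max (ip w p) (ip w q) := by
  subst hl
  rcases (hb0.trans hab).eq_or_lt with h0 | h0
  · have hbe : be = 0 := le_antisymm (by linarith) hb0
    have hbe' : be' = 0 := le_antisymm (by linarith) hb0'
    refine seg_core (l := al) (t := 0) (t' := 0) (u := u) hdt hp hq e1 e1' le_rfl zero_le_one le_rfl
      zero_le_one ?_ ?_
    · rw [e2, hbe]; simp
    · rw [e2', hbe']; simp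
  · have hne : (al : ℂ) ≠ 0 := by exact_mod_cast h0.ne'
    refine seg_core (l := al) (t := be / al) (t' := be' / al) (u := u) hdt hp hq e1 e1'
      (div_nonneg hb0 h0.le) ((div_le_one h0).2 hab) (div_nonneg hb0' h0.le) ((div_le_one h0).2 hab')
      ?_ ?_
    · rw [e2, e1]; push_cast; field_simp; ring
    · rw [e2', e1']; push_cast; field_simp; ring

/-- comonotone collinear triples have the same hull -/
theorem col_hull (hul : HulStatement) {x0 x1 x2 y0 y1 y2 u s0 s1 s2 : ℂ} {a1 a2 b1 b2 : ℝ}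
    (d01 : dt s0 s1 ≠ 0) (d02 : dt s0 s2 ≠ 0) (d12 : dt s1 s2 ≠ 0)
    (h0 : ip s0 x0 = ip s0 y0) (h1 : ip s1 x1 = ip s1 y1) (h2 : ip s2 x2 = ip s2 y2)
    (e1 : x1 = x0 + (a1 : ℂ) * u) (e2 : x2 = x0 + (a2 : ℂ) * u)
    (f1 : y1 = y0 + (b1 : ℂ) * u) (f2 : y2 = y0 + (b2 : ℂ) * u)
    (c1 : 0 ≤ a1 * b1) (c2 : 0 ≤ a2 * b2) (c3 : 0 ≤ (a1 - a2) * (b1 - b2))
    (hl : |a1| + |a2| + |a1 - a2| = |b1| + |b2| + |b1 - b2|) :
    hf ![x0, x1, x2] = hf ![y0, y1, y2] := by
  have flip : ∀ a b : ℂ, dt a b ≠ 0 → dt b a ≠ 0 := by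
    intro a b h h'
    apply h
    have : dt a b = - dt b a := by unfold dt; ring
    rw [this, h', neg_zero]
  -- signs
  have como : ∀ a b : ℝ, 0 ≤ a * b → 0 ≤ a + b → 0 ≤ a ∧ 0 ≤ b := by
    intro a b h h'
    constructor
    · by_contra hc
      push Not at hc
      have : b ≤ 0 := by
        by_contra hb
        push Not at hb
        nlinarith only [h, h', hc]
      linarith
    · by_contra hc
      push Not at hc
      have : a ≤ 0 := by
        by_contra hb
        push Not at hb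
        nlinarith only [h, h', hc]
      linarith
  -- conclusion from three facts
  have fin : ∀ (p q r p' q' r' : ℂ), p = p' → q = q' → (∀ w, ip w r ≤ max (ip w p) (ip w q)) →
      (∀ w, ip w r' ≤ max (ip w p) (ip w q)) → ∀ w : ℂ,
      max (ip w p) (max (ip w q) (ip w r)) = max (ip w p') (max (ip w q') (ip w r')) := by
    intro p q r p' q' r' hp hq h h' w
    rw [← hp, ← hq]
    have e1 : max (ip w p) (max (ip w q) (ip w r)) = max (ip w p) (ip w q) := by
      rw [← max_assoc]; exact max_eq_left (h w)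
    have e2 : max (ip w p) (max (ip w q) (ip w r')) = max (ip w p) (ip w q) := by
      rw [← max_assoc]; exact max_eq_left (h' w)
    rw [e1, e2]
  have form : ∀ (a b c w : ℂ), hf ![a, b, c] w = max (ip w a) (max (ip w b) (ip w c)) := by
    intro a b c w
    obtain ⟨g1, g2, g3⟩ := le_hf3 (a := a) (b := b) (c := c) hul w
    refine le_antisymm ?_ (max_le g1 (max_le g2 g3))
    exact hf3_le hul (le_max_left _ _) ((le_max_left _ _).trans (le_max_right _ _))
      ((le_max_right _ _).trans (le_max_right _ _))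
  funext w
  rw [form, form]
  -- order of the sums
  rcases le_total 0 (a1 + b1) with g1 | g1 <;> rcases le_total 0 (a2 + b2) with g2 | g2 <;>
    rcases le_total (a1 + b1) (a2 + b2) with g3 | g3
  · -- 0 ≤ 1 ≤ 2 : extremes 0, 2
    obtain ⟨p1, p1'⟩ := como a1 b1 c1 g1
    obtain ⟨p3, p3'⟩ := como (a2 - a1) (b2 - b1) (by linarith only [c3]) (by linarith)
    have hl' : a2 = b2 := by
      rw [abs_of_nonneg p1, abs_of_nonneg p1', abs_of_nonneg (by linarith : 0 ≤ a2),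
        abs_of_nonneg (by linarith : 0 ≤ b2), abs_of_nonpos (by linarith : a1 - a2 ≤ 0),
        abs_of_nonpos (by linarith : b1 - b2 ≤ 0)] at hl
      linarith
    obtain ⟨r1, r2, r3, r4⟩ := col_core hul (p := x0) (p' := y0) (q := x2) (q' := y2) (r := x1)
      (r' := y1) d02 h0 h2 p1 (by linarith) p1' (by linarith) hl' e2 e1 f2 f1
    have := fin _ _ _ _ _ _ r1 r2 r3 r4 w
    rw [max_comm (ip w x1), max_comm (ip w y1)]; exact this
  · -- 0 ≤ 2 ≤ 1 : extremes 0, 1
    obtain ⟨p1, p1'⟩ := como a2 b2 c2 g2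
    obtain ⟨p3, p3'⟩ := como (a1 - a2) (b1 - b2) c3 (by linarith)
    have hl' : a1 = b1 := by
      rw [abs_of_nonneg p1, abs_of_nonneg p1', abs_of_nonneg (by linarith : 0 ≤ a1),
        abs_of_nonneg (by linarith : 0 ≤ b1), abs_of_nonneg (by linarith : 0 ≤ a1 - a2),
        abs_of_nonneg (by linarith : 0 ≤ b1 - b2)] at hl
      linarith
    obtain ⟨r1, r2, r3, r4⟩ := col_core hul (p := x0) (p' := y0) (q := x1) (q' := y1) (r := x2)
      (r' := y2) d01 h0 h1 p1 (by linarith) p1' (by linarith) hl' e1 e2 f1 f2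
    exact fin _ _ _ _ _ _ r1 r2 r3 r4 w
  · -- 2 ≤ 0 ≤ 1, `a1+b1 ≤ a2+b2`: all sums vanish
    obtain ⟨p1, p1'⟩ := como a1 b1 c1 g1
    obtain ⟨p2, p2'⟩ := como (-a2) (-b2) (by linarith only [c2]) (by linarith)
    have z1 : a1 = 0 := by linarith
    have z2 : b1 = 0 := by linarith
    have z3 : a2 = 0 := by linarith
    have z4 : b2 = 0 := by linarith
    obtain ⟨r1, r2, r3, r4⟩ := col_core hul (p := x0) (p' := y0) (q := x1) (q' := y1) (r := x2)
      (r' := y2) (al := a1) (al' := b1) (be := a2) (be' := b2) d01 h0 h1 (by linarith) (by linarith)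
      (by linarith) (by linarith) (by rw [z1, z2]) e1 e2 f1 f2
    exact fin _ _ _ _ _ _ r1 r2 r3 r4 w
  · -- 2 ≤ 0 ≤ 1 : extremes 2, 1
    obtain ⟨p1, p1'⟩ := como a1 b1 c1 g1
    obtain ⟨p2, p2'⟩ := como (-a2) (-b2) (by linarith only [c2]) (by linarith)
    have hl' : a1 - a2 = b1 - b2 := by
      rw [abs_of_nonneg p1, abs_of_nonneg p1', abs_of_nonpos (by linarith : a2 ≤ 0),
        abs_of_nonpos (by linarith : b2 ≤ 0), abs_of_nonneg (by linarith : 0 ≤ a1 - a2),
        abs_of_nonneg (by linarith : 0 ≤ b1 - b2)] at hl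
      linarith
    obtain ⟨r1, r2, r3, r4⟩ := col_core hul (p := x2) (p' := y2) (q := x1) (q' := y1) (r := x0)
      (r' := y0) (al := a1 - a2) (al' := b1 - b2) (be := -a2) (be' := -b2) (u := u) (flip _ _ d12) h2 h1
      p2 (by linarith) p2' (by linarith) hl' (by rw [e1, e2]; push_cast; ring)
      (by rw [e2]; push_cast; ring) (by rw [f1, f2]; push_cast; ring) (by rw [f2]; push_cast; ring)
    have := fin _ _ _ _ _ _ r1 r2 r3 r4 w
    rw [max_comm (ip w x0), max_comm (ip w y0), max_comm (ip w x1), max_comm (ip w y1), max_assoc,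
      max_assoc]
    exact this
  · -- 1 ≤ 0 ≤ 2 : extremes 1, 2
    obtain ⟨p1, p1'⟩ := como a2 b2 c2 g2
    obtain ⟨p2, p2'⟩ := como (-a1) (-b1) (by linarith only [c1]) (by linarith)
    have hl' : a2 - a1 = b2 - b1 := by
      rw [abs_of_nonneg p1, abs_of_nonneg p1', abs_of_nonpos (by linarith : a1 ≤ 0),
        abs_of_nonpos (by linarith : b1 ≤ 0), abs_of_nonpos (by linarith : a1 - a2 ≤ 0),
        abs_of_nonpos (by linarith : b1 - b2 ≤ 0)] at hl
      linarith
    obtain ⟨r1, r2, r3, r4⟩ := col_core hul (p := x1) (p' := y1) (q := x2) (q' := y2) (r := x0)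
      (r' := y0) (al := a2 - a1) (al' := b2 - b1) (be := -a1) (be' := -b1) (u := u) d12 h1 h2
      p2 (by linarith) p2' (by linarith) hl' (by rw [e1, e2]; push_cast; ring)
      (by rw [e1]; push_cast; ring) (by rw [f1, f2]; push_cast; ring) (by rw [f1]; push_cast; ring)
    have := fin _ _ _ _ _ _ r1 r2 r3 r4 w
    rw [max_comm (ip w x0), max_comm (ip w y0), max_assoc, max_assoc]
    exact this
  · -- 1 ≤ 0 ≤ 2, `a2 + b2 ≤ a1 + b1`: all vanish
    obtain ⟨p1, p1'⟩ := como a2 b2 c2 g2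
    obtain ⟨p2, p2'⟩ := como (-a1) (-b1) (by linarith only [c1]) (by linarith)
    have z1 : a1 = 0 := by linarith
    have z2 : b1 = 0 := by linarith
    have z3 : a2 = 0 := by linarith
    have z4 : b2 = 0 := by linarith
    obtain ⟨r1, r2, r3, r4⟩ := col_core hul (p := x0) (p' := y0) (q := x1) (q' := y1) (r := x2)
      (r' := y2) (al := a1) (al' := b1) (be := a2) (be' := b2) d01 h0 h1 (by linarith) (by linarith)
      (by linarith) (by linarith) (by rw [z1, z2]) e1 e2 f1 f2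
    exact fin _ _ _ _ _ _ r1 r2 r3 r4 w
  · -- 1 ≤ 2 ≤ 0 : extremes 1, 0
    obtain ⟨p1, p1'⟩ := como (-a2) (-b2) (by nlinarith) (by linarith)
    obtain ⟨p3, p3'⟩ := como (a2 - a1) (b2 - b1) (by linarith only [c3]) (by linarith)
    have hl' : -a1 = -b1 := by
      rw [abs_of_nonpos (by linarith : a1 ≤ 0), abs_of_nonpos (by linarith : b1 ≤ 0),
        abs_of_nonpos (by linarith : a2 ≤ 0), abs_of_nonpos (by linarith : b2 ≤ 0),
        abs_of_nonpos (by linarith : a1 - a2 ≤ 0), abs_of_nonpos (by linarith : b1 - b2 ≤ 0)] at hl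
      linarith
    obtain ⟨r1, r2, r3, r4⟩ := col_core hul (p := x1) (p' := y1) (q := x0) (q' := y0) (r := x2)
      (r' := y2) (al := -a1) (al' := -b1) (be := a2 - a1) (be' := b2 - b1) (u := u) (flip _ _ d01) h1 h0
      p3 (by linarith) p3' (by linarith) hl' (by rw [e1]; push_cast; ring)
      (by rw [e1, e2]; push_cast; ring) (by rw [f1]; push_cast; ring)
      (by rw [f1, f2]; push_cast; ring)
    have := fin _ _ _ _ _ _ r1 r2 r3 r4 w
    rw [← max_assoc, ← max_assoc, max_comm (ip w x0), max_comm (ip w y0), max_assoc, max_assoc]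
    exact this
  · -- 2 ≤ 1 ≤ 0 : extremes 2, 0
    obtain ⟨p1, p1'⟩ := como (-a1) (-b1) (by linarith only [c1]) (by linarith)
    obtain ⟨p3, p3'⟩ := como (a1 - a2) (b1 - b2) c3 (by linarith)
    have hl' : -a2 = -b2 := by
      rw [abs_of_nonpos (by linarith : a1 ≤ 0), abs_of_nonpos (by linarith : b1 ≤ 0),
        abs_of_nonpos (by linarith : a2 ≤ 0), abs_of_nonpos (by linarith : b2 ≤ 0),
        abs_of_nonneg (by linarith : 0 ≤ a1 - a2), abs_of_nonneg (by linarith : 0 ≤ b1 - b2)] at hl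
      linarith
    obtain ⟨r1, r2, r3, r4⟩ := col_core hul (p := x2) (p' := y2) (q := x0) (q' := y0) (r := x1)
      (r' := y1) (al := -a2) (al' := -b2) (be := a1 - a2) (be' := b1 - b2) (u := u) (flip _ _ d02) h2 h0
      p3 (by linarith) p3' (by linarith) hl' (by rw [e2]; push_cast; ring)
      (by rw [e1, e2]; push_cast; ring) (by rw [f2]; push_cast; ring)
      (by rw [f1, f2]; push_cast; ring)
    have := fin _ _ _ _ _ _ r1 r2 r3 r4 w
    rw [max_comm (ip w x1), max_comm (ip w y1), ← max_assoc, ← max_assoc, max_comm (ip w x0),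
      max_comm (ip w y0), max_assoc, max_assoc]
    exact this

/-- noncollinear case -/
theorem ncol {x0 x1 x2 y0 y1 y2 s0 s1 : ℂ} (d01 : dt s0 s1 ≠ 0)
    (h0 : ip s0 x0 = ip s0 y0) (h1 : ip s1 x1 = ip s1 y1)
    (hc : dt (x0 - x1) (x1 - x2) ≠ 0)
    (r01 : SameRay ℝ (x0 - x1) (y0 - y1)) (r12 : SameRay ℝ (x1 - x2) (y1 - y2))
    (r20 : SameRay ℝ (x2 - x0) (y2 - y0))
    (hl : ‖x0 - x1‖ + ‖x1 - x2‖ + ‖x2 - x0‖ = ‖y0 - y1‖ + ‖y1 - y2‖ + ‖y2 - y0‖) :
    x0 = y0 ∧ x1 = y1 ∧ x2 = y2 := by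
  have n01 : x0 - x1 ≠ 0 := by
    intro h; rw [h] at hc; simp [dt] at hc
  have n12 : x1 - x2 ≠ 0 := by
    intro h; rw [h] at hc; simp [dt] at hc
  have n20 : x2 - x0 ≠ 0 := by
    intro h
    have : x0 - x1 = -(x1 - x2) := by linear_combination -h
    rw [this] at hc
    apply hc; unfold dt; simp only [Complex.neg_re, Complex.neg_im]; ring
  obtain ⟨a, ha, ea⟩ := r01.exists_nonneg_left n01
  obtain ⟨b, hb, eb⟩ := r12.exists_nonneg_left n12
  obtain ⟨c, hcc, ec⟩ := r20.exists_nonneg_left n20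
  rw [Complex.real_smul] at ea eb ec
  -- equal factors
  have hrel : ((a - c : ℝ) : ℂ) * (x0 - x1) + ((b - c : ℝ) : ℂ) * (x1 - x2) = 0 := by
    have : (a : ℂ) * (x0 - x1) + (b : ℂ) * (x1 - x2) + (c : ℂ) * (x2 - x0) = 0 := by
      rw [ea, eb, ec]; ring
    push_cast
    linear_combination this
  have hbc : b = c := by
    have h2 : dt (x0 - x1) (((a - c : ℝ) : ℂ) * (x0 - x1) + ((b - c : ℝ) : ℂ) * (x1 - x2)) = 0 := by
      rw [hrel]; simp [dt]
    have h3 : dt (x0 - x1) (((a - c : ℝ) : ℂ) * (x0 - x1) + ((b - c : ℝ) : ℂ) * (x1 - x2)) =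
        (b - c) * dt (x0 - x1) (x1 - x2) := by
      unfold dt
      simp only [Complex.add_re, Complex.add_im, Complex.mul_re, Complex.mul_im, Complex.ofReal_re,
        Complex.ofReal_im]
      ring
    rw [h3] at h2
    rcases mul_eq_zero.1 h2 with h | h
    · linarith
    · exact absurd h hc
  have hac : a = c := by
    rw [hbc, sub_self, Complex.ofReal_zero, zero_mul, add_zero] at hrel
    rcases mul_eq_zero.1 hrel with h | h
    · have : a - c = 0 := by exact_mod_cast h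
      linarith
    · exact absurd h n01
  have hc1 : c = 1 := by
    rw [← ea, ← eb, ← ec, hac, hbc, norm_mul, norm_mul, norm_mul, Complex.norm_real,
      Real.norm_of_nonneg hcc] at hl
    have hpos : 0 < ‖x0 - x1‖ + ‖x1 - x2‖ + ‖x2 - x0‖ := by
      have := norm_pos_iff.2 n01
      positivity
    have : (c - 1) * (‖x0 - x1‖ + ‖x1 - x2‖ + ‖x2 - x0‖) = 0 := by linear_combination -hl
    rcases mul_eq_zero.1 this with h | h
    · linarith
    · exact absurd h hpos.ne'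
  rw [hac, hc1, Complex.ofReal_one, one_mul] at ea
  rw [hbc, hc1, Complex.ofReal_one, one_mul] at eb
  have hz : x0 - y0 = 0 := by
    refine eq_zero_of_ip d01 ?_ ?_
    · rw [ip_sub_right, h0]; ring
    · have : x0 - y0 = x1 - y1 := by linear_combination ea
      rw [this, ip_sub_right, h1]; ring
  have e0 : x0 = y0 := sub_eq_zero.1 hz
  have e1 : x1 = y1 := by rw [e0] at ea; exact sub_right_injective ea
  have e2 : x2 = y2 := by rw [e1] at eb; exact sub_right_injective eb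
  exact ⟨e0, e1, e2⟩

theorem mult_of_dt {a b : ℂ} (ha : a ≠ 0) (h : dt a b = 0) : ∃ k : ℝ, b = (k : ℂ) * a := by
  refine ⟨ip a b / ip a a, ?_⟩
  have hAA : ip a a ≠ 0 := by
    rw [← normSq_ip]; positivity
  unfold dt at h
  apply Complex.ext
  · simp only [Complex.mul_re, Complex.ofReal_re, Complex.ofReal_im, zero_mul, sub_zero]
    rw [div_mul_eq_mul_div, eq_div_iff hAA]
    unfold ip
    linear_combination (-a.im) * h
  · simp only [Complex.mul_im, Complex.ofReal_re, Complex.ofReal_im, zero_mul, add_zero]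
    rw [div_mul_eq_mul_div, eq_div_iff hAA]
    unfold ip
    linear_combination a.re * h

/-- the hulls agree -/
theorem hull_eq (hul : HulStatement) {x0 x1 x2 y0 y1 y2 s0 s1 s2 : ℂ}
    (d01 : dt s0 s1 ≠ 0) (d02 : dt s0 s2 ≠ 0) (d12 : dt s1 s2 ≠ 0)
    (h0 : ip s0 x0 = ip s0 y0) (h1 : ip s1 x1 = ip s1 y1) (h2 : ip s2 x2 = ip s2 y2)
    (r01 : SameRay ℝ (x0 - x1) (y0 - y1)) (r12 : SameRay ℝ (x1 - x2) (y1 - y2))
    (r20 : SameRay ℝ (x2 - x0) (y2 - y0))
    (hl : ‖x0 - x1‖ + ‖x1 - x2‖ + ‖x2 - x0‖ = ‖y0 - y1‖ + ‖y1 - y2‖ + ‖y2 - y0‖) :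
    hf ![x0, x1, x2] = hf ![y0, y1, y2] := by
  by_cases hcx : dt (x0 - x1) (x1 - x2) ≠ 0
  · obtain ⟨e0, e1, e2⟩ := ncol d01 h0 h1 hcx r01 r12 r20 hl
    rw [e0, e1, e2]
  by_cases hcy : dt (y0 - y1) (y1 - y2) ≠ 0
  · obtain ⟨e0, e1, e2⟩ := ncol d01 h0.symm h1.symm hcy r01.symm r12.symm r20.symm hl.symm
    rw [e0, e1, e2]
  push Not at hcx hcy
  -- a common direction
  have key : ∃ u : ℂ, u ≠ 0 ∧ (∃ a : ℝ, x1 - x0 = (a : ℂ) * u) ∧ (∃ a : ℝ, x2 - x0 = (a : ℂ) * u) ∧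
      (∃ a : ℝ, y1 - y0 = (a : ℂ) * u) ∧ (∃ a : ℝ, y2 - y0 = (a : ℂ) * u) := by
    have hsr : ∀ {p q : ℂ}, SameRay ℝ p q → p ≠ 0 → ∃ k : ℝ, q = (k : ℂ) * p := by
      intro p q h hp
      obtain ⟨k, _, hk⟩ := h.exists_nonneg_left hp
      exact ⟨k, by rw [← hk, Complex.real_smul]⟩
    by_cases n01 : x0 - x1 = 0
    · by_cases n12 : x1 - x2 = 0
      · -- all `x` equal
        have n20 : x2 - x0 = 0 := by linear_combination -n01 - n12
        rw [n01, n12, n20] at hl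
        simp only [norm_zero, add_zero] at hl
        have g1 := norm_nonneg (y0 - y1)
        have g2 := norm_nonneg (y1 - y2)
        have g3 := norm_nonneg (y2 - y0)
        have m01 : y0 - y1 = 0 := norm_eq_zero.1 (by linarith)
        have m20 : y2 - y0 = 0 := norm_eq_zero.1 (by linarith)
        exact ⟨1, one_ne_zero, ⟨0, by simp; linear_combination -n01⟩, ⟨0, by simpa using n20⟩,
          ⟨0, by simp; linear_combination -m01⟩, ⟨0, by simpa using m20⟩⟩
      · -- `x0 = x1 ≠ x2`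
        have n20 : x2 - x0 ≠ 0 := by
          intro h; apply n12; linear_combination -h - n01
        obtain ⟨k1, hk1⟩ := hsr r12 n12
        obtain ⟨k2, hk2⟩ := hsr r20 n20
        have hx20 : x2 - x0 = ((-1 : ℝ) : ℂ) * (x1 - x2) := by
          push_cast; linear_combination -n01
        refine ⟨x1 - x2, n12, ⟨0, by simp; linear_combination -n01⟩, ⟨-1, hx20⟩, ?_, ?_⟩
        · refine ⟨k1 - k2, ?_⟩
          rw [hx20] at hk2
          push_cast at hk2 ⊢
          linear_combination hk1 + hk2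
        · refine ⟨-k2, ?_⟩
          rw [hk2, hx20]; push_cast; ring
    · obtain ⟨k, hk⟩ := mult_of_dt n01 hcx
      obtain ⟨k1, hk1⟩ := hsr r01 n01
      by_cases n12 : x1 - x2 = 0
      · have n20 : x2 - x0 ≠ 0 := by
          intro h; apply n01; linear_combination -h - n12
        obtain ⟨k2, hk2⟩ := hsr r20 n20
        have hx20 : x2 - x0 = ((-1 : ℝ) : ℂ) * (x0 - x1) := by
          push_cast; linear_combination -n12
        refine ⟨x0 - x1, n01, ⟨-1, by push_cast; ring⟩, ⟨-1, hx20⟩, ⟨-k1, by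
          push_cast; linear_combination -hk1⟩, ⟨-k2, ?_⟩⟩
        rw [hk2, hx20]; push_cast; ring
      · obtain ⟨k2, hk2⟩ := hsr r12 n12
        refine ⟨x0 - x1, n01, ⟨-1, by push_cast; ring⟩, ⟨-1 - k, by
          push_cast; linear_combination -hk⟩, ⟨-k1, by push_cast; linear_combination -hk1⟩,
          ⟨-k1 - k2 * k, ?_⟩⟩
        rw [hk] at hk2
        push_cast
        linear_combination -hk1 - hk2
  obtain ⟨u, hu, ⟨a1, e1⟩, ⟨a2, e2⟩, ⟨b1, f1⟩, ⟨b2, f2⟩⟩ := key
  have hun : 0 < ‖u‖ := norm_pos_iff.2 hu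
  -- the products are nonnegative
  have hprod : ∀ {p q : ℝ}, SameRay ℝ ((p : ℂ) * u) ((q : ℂ) * u) → 0 ≤ p * q := by
    intro p q h
    have h3 : ∀ r : ℝ, (r : ℂ) * u = r • u := fun r => (Complex.real_smul).symm
    rw [h3, h3] at h
    by_contra hcon
    push Not at hcon
    have hp : p ≠ 0 := by rintro rfl; simp at hcon
    have hq : q ≠ 0 := by rintro rfl; simp at hcon
    obtain ⟨k, hk, he⟩ := h.exists_nonneg_left (smul_ne_zero hp hu)
    rw [smul_smul] at he
    have : (k * p - q) • u = 0 := by rw [sub_smul, he, sub_self]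
    rcases smul_eq_zero.1 this with h' | h'
    · have : q = k * p := by linarith
      rw [this] at hcon
      linarith only [hcon, mul_nonneg hk (mul_self_nonneg p)]
    · exact hu h'
  have c1 : 0 ≤ a1 * b1 := by
    have h3 : x0 - x1 = ((-a1 : ℝ) : ℂ) * u := by push_cast; linear_combination -e1
    have h4 : y0 - y1 = ((-b1 : ℝ) : ℂ) * u := by push_cast; linear_combination -f1
    rw [h3, h4] at r01
    have := hprod r01
    linarith only [this]
  have c2 : 0 ≤ a2 * b2 := by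
    rw [e2, f2] at r20
    exact hprod r20
  have c3 : 0 ≤ (a1 - a2) * (b1 - b2) := by
    have h3 : x1 - x2 = ((a1 - a2 : ℝ) : ℂ) * u := by push_cast; linear_combination e1 - e2
    have h4 : y1 - y2 = ((b1 - b2 : ℝ) : ℂ) * u := by push_cast; linear_combination f1 - f2
    rw [h3, h4] at r12
    exact hprod r12
  have hl' : |a1| + |a2| + |a1 - a2| = |b1| + |b2| + |b1 - b2| := by
    have h3 : x0 - x1 = ((-a1 : ℝ) : ℂ) * u := by push_cast; linear_combination -e1
    have h4 : y0 - y1 = ((-b1 : ℝ) : ℂ) * u := by push_cast; linear_combination -f1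
    have h5 : x1 - x2 = ((a1 - a2 : ℝ) : ℂ) * u := by push_cast; linear_combination e1 - e2
    have h6 : y1 - y2 = ((b1 - b2 : ℝ) : ℂ) * u := by push_cast; linear_combination f1 - f2
    rw [h3, h4, h5, h6, e2, f2] at hl
    simp only [norm_mul, Complex.norm_real, Real.norm_eq_abs, abs_neg] at hl
    have : (|a1| + |a2| + |a1 - a2| - (|b1| + |b2| + |b1 - b2|)) * ‖u‖ = 0 := by
      linear_combination hl
    rcases mul_eq_zero.1 this with h | h
    · linarith
    · exact absurd h hun.ne'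
  exact col_hull hul (u := u) (a1 := a1) (a2 := a2) (b1 := b1) (b2 := b2) d01 d02 d12 h0 h1 h2
    (by linear_combination e1) (by linear_combination e2)
    (by linear_combination f1) (by linear_combination f2) c1 c2 c3 hl'

/-- (UMX) -/
theorem umx (sup : SupStatement) (hul : HulStatement) (lams : LamStatement) (per : PerStatement) :
    UmxStatement := by
  classical
  intro X hX S hS hcard hNp h h' hs hs' fh fh' ht ht' hlam hmin
  obtain ⟨s0, s1, s2, n01, n02, n12, hSe⟩ := Finset.card_eq_three.1 hcard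
  have m0 : s0 ∈ S := by rw [hSe]; simp
  have m1 : s1 ∈ S := by rw [hSe]; simp
  have m2 : s2 ∈ S := by rw [hSe]; simp
  have d01 := hNp s0 m0 s1 m1 n01
  have d02 := hNp s0 m0 s2 m2 n02
  have d12 := hNp s1 m1 s2 m2 n12
  -- contact points
  have cont : ∀ h : ℂ → ℝ, Sublin h → S ⊆ touch X h → ∀ s ∈ S, ∃ x, In x h ∧ ip s.1 x = s.2 := by
    intro h hs ht s hsS
    obtain ⟨x, hx, e⟩ := (sup h hs).2.2.2 s.1
    exact ⟨x, hx, by rw [e]; exact (mem_touch.1 (ht hsS)).2⟩
  obtain ⟨x0, i0, e0⟩ := cont h hs ht s0 m0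
  obtain ⟨x1, i1, e1⟩ := cont h hs ht s1 m1
  obtain ⟨x2, i2, e2⟩ := cont h hs ht s2 m2
  obtain ⟨y0, j0, f0⟩ := cont h' hs' ht' s0 m0
  obtain ⟨y1, j1, f1⟩ := cont h' hs' ht' s1 m1
  obtain ⟨y2, j2, f2⟩ := cont h' hs' ht' s2 m2
  -- hull of points on the three sides inside the polygon
  have hull : ∀ a b c : ℂ, (∀ t ∈ X, ip t.1 a ≤ t.2) → (∀ t ∈ X, ip t.1 b ≤ t.2) →
      (∀ t ∈ X, ip t.1 c ≤ t.2) → ip s0.1 a = s0.2 → ip s1.1 b = s1.2 → ip s2.1 c = s2.2 →
      lam h ≤ lam (hf ![a, b, c]) := by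
    intro a b c ha hb hc ea eb ec
    have hfit : Fits X (hf ![a, b, c]) := fun t htX => hf3_le hul (ha t htX) (hb t htX) (hc t htX)
    refine hmin _ (hul 2 _).1 hfit ?_
    intro t htS
    rw [mem_touch]
    refine ⟨hS htS, le_antisymm (hfit t (hS htS)) ?_⟩
    rw [hSe] at htS
    simp only [Finset.mem_insert, Finset.mem_singleton] at htS
    rcases htS with rfl | rfl | rfl
    · rw [← ea]; exact (le_hf3 hul _).1
    · rw [← eb]; exact (le_hf3 hul _).2.1
    · rw [← ec]; exact (le_hf3 hul _).2.2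
  have incl : ∀ h : ℂ → ℝ, Fits X h → ∀ x, In x h → ∀ t ∈ X, ip t.1 x ≤ t.2 :=
    fun h fh x hx t ht => (hx t.1).trans (fh t ht)
  have sub3 : ∀ (h : ℂ → ℝ) (a b c : ℂ), In a h → In b h → In c h → ∀ w, hf ![a, b, c] w ≤ h w :=
    fun h a b c ha hb hc w => hf3_le hul (ha w) (hb w) (hc w)
  obtain ⟨_, hmono, _⟩ := lams
  have k1 : h = hf ![x0, x1, x2] := by
    obtain ⟨_, g⟩ := hmono _ h (hul 2 ![x0, x1, x2]).1 hs (sub3 h _ _ _ i0 i1 i2)
    exact (g (hull _ _ _ (incl h fh _ i0) (incl h fh _ i1) (incl h fh _ i2) e0 e1 e2)).symm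
  have k2 : h' = hf ![y0, y1, y2] := by
    obtain ⟨_, g⟩ := hmono _ h' (hul 2 ![y0, y1, y2]).1 hs' (sub3 h' _ _ _ j0 j1 j2)
    refine (g ?_).symm
    rw [← hlam]
    exact hull _ _ _ (incl h' fh' _ j0) (incl h' fh' _ j1) (incl h' fh' _ j2) f0 f1 f2
  obtain ⟨_, per3, _, _⟩ := per
  have l1 : lam h = ‖x0 - x1‖ + ‖x1 - x2‖ + ‖x2 - x0‖ := by rw [k1]; exact per3 _ _ _
  have l2 : lam h' = ‖y0 - y1‖ + ‖y1 - y2‖ + ‖y2 - y0‖ := by rw [k2]; exact per3 _ _ _
  -- midpoints
  have hmid := hull ((1 / 2 : ℝ) * (x0 + y0)) ((1 / 2 : ℝ) * (x1 + y1)) ((1 / 2 : ℝ) * (x2 + y2))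
    (fun t htX => by
      rw [ip_smul_right, ip_add_right]
      linarith only [incl h fh _ i0 t htX, incl h' fh' _ j0 t htX])
    (fun t htX => by
      rw [ip_smul_right, ip_add_right]
      linarith [incl h fh _ i1 t htX, incl h' fh' _ j1 t htX])
    (fun t htX => by
      rw [ip_smul_right, ip_add_right]
      linarith [incl h fh _ i2 t htX, incl h' fh' _ j2 t htX])
    (by rw [ip_smul_right, ip_add_right, e0, f0]; ring)
    (by rw [ip_smul_right, ip_add_right, e1, f1]; ring)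
    (by rw [ip_smul_right, ip_add_right, e2, f2]; ring)
  rw [per3] at hmid
  have hm : ∀ a b c d : ℂ, ‖((1 / 2 : ℝ) : ℂ) * (a + b) - ((1 / 2 : ℝ) : ℂ) * (c + d)‖ =
      ‖(a - c) + (b - d)‖ / 2 := by
    intro a b c d
    have : ((1 / 2 : ℝ) : ℂ) * (a + b) - ((1 / 2 : ℝ) : ℂ) * (c + d) =
        ((1 / 2 : ℝ) : ℂ) * ((a - c) + (b - d)) := by ring
    rw [this, norm_mul, Complex.norm_real, Real.norm_of_nonneg (by norm_num)]
    ring
  rw [hm, hm, hm] at hmid
  have t1 := norm_add_le (x0 - x1) (y0 - y1)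
  have t2 := norm_add_le (x1 - x2) (y1 - y2)
  have t3 := norm_add_le (x2 - x0) (y2 - y0)
  have hl : ‖x0 - x1‖ + ‖x1 - x2‖ + ‖x2 - x0‖ = ‖y0 - y1‖ + ‖y1 - y2‖ + ‖y2 - y0‖ := by
    rw [← l1, ← l2, hlam]
  rw [l1] at hmid
  have r01 : SameRay ℝ (x0 - x1) (y0 - y1) := sameRay_iff_norm_add.2 (by linarith only [hlam, l1, l2, hmid, t2, t3, t1])
  have r12 : SameRay ℝ (x1 - x2) (y1 - y2) := sameRay_iff_norm_add.2 (by linarith only [hlam, l1, l2, hmid, t1, t3, t2])
  have r20 : SameRay ℝ (x2 - x0) (y2 - y0) := sameRay_iff_norm_add.2 (by linarith)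
  rw [k1, k2]
  exact hull_eq hul d01 d02 d12 (by rw [e0, f0]) (by rw [e1, f1]) (by rw [e2, f2]) r01 r12 r20 hl

end Pool.Agent.XQ.H84
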