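import Pool.Agent.Helper84_XQ.C4r

set_option autoImplicit false

namespace Pool.Agent.XQ.H84

open MeasureTheory Complex Filter Topology Pool.Agent.H62T
open Pool.Agent.H16F (Sublin)
open Pool.Agent.AEU
open Pool.Agent.XQ

theorem mem_touch {P : Finset HP} {h : ℂ → ℝ} {s : HP} :
    s ∈ touch P h ↔ s ∈ P ∧ h s.1 = s.2 := by
  simp [AEU.touch]

/-- hull of some points of a body which misses a touched side: shorter -/
theorem lam_lt (lams : LamStatement) {h h' : ℂ → ℝ} (h1 : Sublin h) (h2 : Sublin h')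
    (hle : ∀ w, h' w ≤ h w) {w : ℂ} (hlt : h' w < h w) : lam h' < lam h := by
  obtain ⟨_, hm, _⟩ := lams
  obtain ⟨h3, h4⟩ := hm h' h h2 h1 hle
  rcases h3.eq_or_lt with h5 | h5
  · have := h4 h5.symm.le
    rw [this] at hlt
    exact absurd hlt (lt_irrefl _)
  · exact h5

/-- (XC) -/
theorem xc (hul : HulStatement) (lams : LamStatement) (act : ActStatement)
    (c4r : C4rStatement) (ac4 : Ac4Statement)
    (ghx : GhxStatement) (plc : PlcStatement) (k4x : K4xStatement) : XcStatement := by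
  intro P Q L henv hG h x s hsh hmin hL
  have hQ := henv.pg
  have hP := henv.pg'
  obtain ⟨e, he⟩ := c4r Q hQ h x s hsh hmin
  have hne : ∀ i j : Fin 4, i ≠ j → s (e i) ≠ s (e j) := fun i j hij h' =>
    hij (e.injective (hsh.inj h'))
  have hN : Ne4 (s (e 0)) (s (e 1)) (s (e 2)) (s (e 3)) := ⟨hne _ _ (by decide), hne _ _ (by decide),
    hne _ _ (by decide), hne _ _ (by decide), hne _ _ (by decide), hne _ _ (by decide)⟩
  have hu : ∀ i, ‖(s i).1‖ = 1 := fun i => hQ.unit _ (hsh.mem i)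
  -- shorter bodies
  have hsub : Sublin h := by rw [hsh.body]; exact (hul 3 x).1
  have hfits : Fits Q h := by
    intro t ht
    rw [hsh.body, (hul 3 x).2.2.2.2.1]
    intro i
    by_cases hti : t = s i
    · rw [hti, hsh.on]
    · exact (hsh.ins i t ht hti).le
  have hlt : ∀ i : Fin 4, ∀ S : Finset HP, (∀ t ∈ S, ∃ j, j ≠ i ∧ t = s j) → Lt Q S L := by
    intro i S hS
    obtain ⟨hs1, hin, _, hmn, hle, hlt⟩ := hul 2 (fun k => x (i.succAbove k))
    have hin' := (hul 3 x).2.1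
    have hle' : ∀ w, hf (fun k => x (i.succAbove k)) w ≤ h w := by
      rw [hsh.body]
      exact hmn _ (fun k => hin' _)
    have hfit : Fits Q (hf (fun k => x (i.succAbove k))) := fun t ht => (hle' t.1).trans (hfits t ht)
    refine ⟨hf (fun k => x (i.succAbove k)), hs1, hfit, ?_, ?_⟩
    · intro t ht
      obtain ⟨j, hj, rfl⟩ := hS t ht
      rw [mem_touch]
      refine ⟨hsh.mem j, le_antisymm (hfit _ (hsh.mem j)) ?_⟩
      obtain ⟨k, hk⟩ := Fin.exists_succAbove_eq hj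
      have := hin k (s j).1
      rw [hk, hsh.on] at this
      exact this
    · rw [← hL]
      refine lam_lt lams hsub hs1 hle' (w := (s i).1) ?_
      have h1 : hf (fun k => x (i.succAbove k)) (s i).1 < (s i).2 := by
        rw [hlt]
        intro k
        exact hsh.ins _ (s i) (hsh.mem i) (fun h' => Fin.succAbove_ne i k (hsh.inj h').symm)
      have h2 : (s i).2 ≤ h (s i).1 := by
        have := hin' i (s i).1
        rw [hsh.on] at this
        rw [hsh.body]; exact this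
      linarith
  generalize ha : s (e 0) = a at *
  generalize hb : s (e 1) = b at *
  generalize hc : s (e 2) = c at *
  generalize hd : s (e 3) = d at *
  have ua : ‖a.1‖ = 1 := by rw [← ha]; exact hu _
  have ub : ‖b.1‖ = 1 := by rw [← hb]; exact hu _
  have uc : ‖c.1‖ = 1 := by rw [← hc]; exact hu _
  have ud : ‖d.1‖ = 1 := by rw [← hd]; exact hu _
  have aQ : a ∈ Q := by rw [← ha]; exact hsh.mem _
  have bQ : b ∈ Q := by rw [← hb]; exact hsh.mem _
  have cQ : c ∈ Q := by rw [← hc]; exact hsh.mem _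
  have dQ : d ∈ Q := by rw [← hd]; exact hsh.mem _
  obtain ⟨t₀, ht₀, hac⟩ := ac4 a b c d ua ub uc ud hN he
  obtain ⟨hab, hac', had, hbc, hbd, hcd⟩ := hN
  classical
  have hF : ∀ t ∈ ({a, b, c, d} : Finset HP), ∃ i, t = s (e i) := by
    intro t ht
    simp only [Finset.mem_insert, Finset.mem_singleton] at ht
    rcases ht with rfl | rfl | rfl | rfl
    · exact ⟨0, ha.symm⟩
    · exact ⟨1, hb.symm⟩
    · exact ⟨2, hc.symm⟩
    · exact ⟨3, hd.symm⟩
  have hcard : ({a, b, c, d} : Finset HP).card = 4 := by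
    rw [Finset.card_insert_of_notMem, Finset.card_insert_of_notMem, Finset.card_insert_of_notMem,
      Finset.card_singleton]
    · simpa using hcd
    · simp [hbc, hbd]
    · simp [hab, hac', had]
  have hplace : ∀ t ∈ ({a, b, c, d} : Finset HP), t ≠ t₀ → ∃ g : Iso2,
      ∀ u ∈ ({a, b, c, d} : Finset HP), u ≠ t → mv g u ∈ P := by
    intro t ht htt
    have hnotg : ¬ Ghost Q (({a, b, c, d} : Finset HP).erase t) := by
      intro hg
      refine hac t ht htt ?_
      have h9 := (ghx Q hQ _ hg).1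
      convert h9
    have hsubQ : ({a, b, c, d} : Finset HP).erase t ⊆ Q := by
      intro u hu
      have := Finset.mem_of_mem_erase hu
      simp only [Finset.mem_insert, Finset.mem_singleton] at this
      rcases this with rfl | rfl | rfl | rfl <;> assumption
    have hcard3 : (({a, b, c, d} : Finset HP).erase t).card = 3 := by
      rw [Finset.card_erase_of_mem ht, hcard]
    obtain ⟨i, hi⟩ := hF t ht
    have hLt : Lt Q (({a, b, c, d} : Finset HP).erase t) L := by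
      refine hlt (e i) _ ?_
      intro u hu
      obtain ⟨hut, hu'⟩ := Finset.mem_erase.1 hu
      obtain ⟨j, hj⟩ := hF u hu'
      refine ⟨e j, ?_, hj⟩
      intro h'
      exact hut (by rw [hj, h', ← hi])
    obtain ⟨g, hg, _⟩ := plc Q P L henv _ hsubQ hcard3 hLt hnotg
    exact ⟨g, fun u hu hut => hg u (Finset.mem_erase.2 ⟨hut, hu⟩)⟩
  -- one isometry places all four sides
  have hall : ∃ g : Iso2, mv g a ∈ P ∧ mv g b ∈ P ∧ mv g c ∈ P ∧ mv g d ∈ P := by
    have hk := k4x Q P hQ.unit hP hG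
    have ma : a ∈ ({a, b, c, d} : Finset HP) := by simp
    have mb : b ∈ ({a, b, c, d} : Finset HP) := by simp
    have mc : c ∈ ({a, b, c, d} : Finset HP) := by simp
    have md : d ∈ ({a, b, c, d} : Finset HP) := by simp
    simp only [Finset.mem_insert, Finset.mem_singleton] at ht₀
    rcases ht₀ with rfl | rfl | rfl | rfl
    · obtain ⟨g, hg⟩ := hplace d md had.symm
      obtain ⟨g', hg'⟩ := hplace c mc hac'.symm
      obtain ⟨g'', hg''⟩ := hplace b mb hab.symm
      obtain ⟨h1, _⟩ := hk g g' g'' t₀ b c d aQ bQ cQ dQ ⟨hab, hac', had, hbc, hbd, hcd⟩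
        (hg _ ma had) (hg _ mb hbd) (hg _ mc hcd) (hg' _ ma hac') (hg' _ mb hbc) (hg' _ md hcd.symm)
        (hg'' _ ma hab) (hg'' _ mc hbc.symm) (hg'' _ md hbd.symm)
      exact ⟨g, hg _ ma had, hg _ mb hbd, hg _ mc hcd, by rw [h1]; exact hg' _ md hcd.symm⟩
    · obtain ⟨g, hg⟩ := hplace d md hbd.symm
      obtain ⟨g', hg'⟩ := hplace c mc hbc.symm
      obtain ⟨g'', hg''⟩ := hplace a ma hab
      obtain ⟨h1, _⟩ := hk g g' g'' t₀ a c d bQ aQ cQ dQ ⟨hab.symm, hbc, hbd, hac', had, hcd⟩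
        (hg _ mb hbd) (hg _ ma had) (hg _ mc hcd) (hg' _ mb hbc) (hg' _ ma hac') (hg' _ md hcd.symm)
        (hg'' _ mb hab.symm) (hg'' _ mc hac'.symm) (hg'' _ md had.symm)
      exact ⟨g, hg _ ma had, hg _ mb hbd, hg _ mc hcd, by rw [h1]; exact hg' _ md hcd.symm⟩
    · obtain ⟨g, hg⟩ := hplace d md hcd.symm
      obtain ⟨g', hg'⟩ := hplace b mb hbc
      obtain ⟨g'', hg''⟩ := hplace a ma hac'
      obtain ⟨h1, _⟩ := hk g g' g'' t₀ a b d cQ aQ bQ dQ ⟨hac'.symm, hbc.symm, hcd, hab, had, hbd⟩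
        (hg _ mc hcd) (hg _ ma had) (hg _ mb hbd) (hg' _ mc hbc.symm) (hg' _ ma hab) (hg' _ md hbd.symm)
        (hg'' _ mc hac'.symm) (hg'' _ mb hab.symm) (hg'' _ md had.symm)
      exact ⟨g, hg _ ma had, hg _ mb hbd, hg _ mc hcd, by rw [h1]; exact hg' _ md hbd.symm⟩
    · obtain ⟨g, hg⟩ := hplace c mc hcd
      obtain ⟨g', hg'⟩ := hplace b mb hbd
      obtain ⟨g'', hg''⟩ := hplace a ma had
      obtain ⟨h1, _⟩ := hk g g' g'' t₀ a b c dQ aQ bQ cQ ⟨had.symm, hbd.symm, hcd.symm, hab, hac', hbc⟩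
        (hg _ md hcd.symm) (hg _ ma hac') (hg _ mb hbc) (hg' _ md hbd.symm) (hg' _ ma hab)
        (hg' _ mc hbc.symm) (hg'' _ md had.symm) (hg'' _ mb hab.symm) (hg'' _ mc hac'.symm)
      exact ⟨g, hg _ ma hac', hg _ mb hbc, by rw [h1]; exact hg' _ mc hbc.symm, hg _ md hcd.symm⟩
  obtain ⟨g, ga, gb, gc, gd⟩ := hall
  obtain ⟨_, _, _, _, _, _, _, hip, _, hnorm, _⟩ := act
  have e1 : ip a.1 b.1 = -ip c.1 d.1 := ip_rel ub uc he
  have hmvne : ∀ {p q : HP}, ‖p.1‖ = 1 → ‖q.1‖ = 1 → mv g p = mv g q → p = q := by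
    intro p q _ _ h'
    have h1 : (mv g p).1 = (mv g q).1 := by rw [h']
    have h2 : (mv g p).2 = (mv g q).2 := by rw [h']
    have h3 : p.1 = q.1 := g.linearIsometryEquiv.injective h1
    have h4 : p.2 = q.2 := by
      simp only [mv] at h2
      rw [h3] at h2
      linarith
    exact Prod.ext h3 h4
  have hmab : mv g a ≠ mv g b := fun h' => hab (hmvne ua ub h')
  have hmcd : mv g c ≠ mv g d := fun h' => hcd (hmvne uc ud h')
  have habs : |ip (mv g a).1 (mv g b).1| = |ip (mv g c).1 (mv g d).1| := by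
    rw [hip, hip, e1, abs_neg]
  rcases hG.inj _ ga _ gb _ gc _ gd hmab hmcd habs with ⟨h1, _⟩ | ⟨h1, _⟩
  · exact hac' (hmvne ua uc h1)
  · exact had (hmvne ua ud h1)

/-- (XF) -/
theorem xf (vxx : VxxStatement) (hul : HulStatement) (lams : LamStatement) (lcx : LcxStatement)
    (k4x : K4xStatement) : XfStatement := by
  intro P Q L henv hG h i j k s v w x hsh hunl hL
  have hQ := henv.pg
  have hP := henv.pg'
  obtain ⟨_, hact, _, _, _, _⟩ := vxx Q hQ
  obtain ⟨hij, hik, his, hjk, hjs, hks⟩ := hsh.ne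
  have iQ := hsh.vi.mem₁
  have jQ := hsh.vi.mem₂
  have kQ := hsh.wk.mem₂
  have sQ := hsh.sX
  -- position of the three points
  have vk := hact i j v hsh.vi k kQ hik.symm hjk.symm
  have vs := hact i j v hsh.vi s sQ his.symm hjs.symm
  have wi := hact j k w hsh.wk i iQ hij hik
  have ws := hact j k w hsh.wk s sQ hjs.symm hks.symm
  have xi := hsh.xt i iQ his
  have xj := hsh.xt j jQ hjs
  have xk := hsh.xt k kQ hks
  obtain ⟨hsub, hin, _, hmn, hle, hlt⟩ := hul 2 ![v, w, x]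
  rw [← hsh.body] at hsub hin hle hlt
  have vin : In v h := hin 0
  have win : In w h := hin 1
  have xin : In x h := hin 2
  have hfits := hunl.1.fits
  have hti : h i.1 = i.2 := le_antisymm (hfits i iQ) (by rw [← hsh.vi.on₁]; exact vin i.1)
  have htj : h j.1 = j.2 := le_antisymm (hfits j jQ) (by rw [← hsh.vi.on₂]; exact vin j.1)
  have htk : h k.1 = k.2 := le_antisymm (hfits k kQ) (by rw [← hsh.wk.on₂]; exact win k.1)
  have hts : h s.1 = s.2 := le_antisymm (hfits s sQ) (by rw [← hsh.xs]; exact xin s.1)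
  -- a subsegment touching three sides
  have seg : ∀ (p q : ℂ) (a b c : HP), In p h → In q h → a ∈ Q → b ∈ Q → c ∈ Q → a ≠ b → a ≠ c →
      b ≠ c → (∃ u, Vx Q u ∧ (u = p ∨ u = q)) → (ip a.1 p = a.2 ∨ ip a.1 q = a.2) →
      (ip b.1 p = b.2 ∨ ip b.1 q = b.2) → (ip c.1 p = c.2 ∨ ip c.1 q = c.2) →
      (∃ d : HP, ip d.1 p < h d.1 ∧ ip d.1 q < h d.1) →
      ∃ g : Iso2, Fits P (mb g h) ∧ mv g a ∈ P ∧ mv g b ∈ P ∧ mv g c ∈ P := by
    intro p q a b c hp hq aQ bQ cQ hab hac hbc hv ta tb tc hd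
    obtain ⟨hsub', hin', _, hmn', _, hlt'⟩ := hul 1 ![p, q]
    have pin : In p (hf ![p, q]) := hin' 0
    have qin : In q (hf ![p, q]) := hin' 1
    have hle' : ∀ w, hf ![p, q] w ≤ h w := by
      refine hmn' h ?_
      intro m
      fin_cases m
      · exact hp
      · exact hq
    have hfit' : Fits Q (hf ![p, q]) := fun t ht => (hle' t.1).trans (hfits t ht)
    have htt : ∀ c ∈ Q, (ip c.1 p = c.2 ∨ ip c.1 q = c.2) → hf ![p, q] c.1 = c.2 ∧ h c.1 = c.2 := by
      intro c hc h'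
      have h1 : c.2 ≤ hf ![p, q] c.1 := by
        rcases h' with h' | h'
        · rw [← h']; exact pin c.1
        · rw [← h']; exact qin c.1
      exact ⟨le_antisymm (hfit' c hc) h1, le_antisymm (hfits c hc) (h1.trans (hle' _))⟩
    have hmem : ∀ c ∈ Q, (ip c.1 p = c.2 ∨ ip c.1 q = c.2) →
        c ∈ touch Q (hf ![p, q]) ∩ touch Q h := by
      intro c hc h'
      obtain ⟨h1, h2⟩ := htt c hc h'
      exact Finset.mem_inter.2 ⟨mem_touch.2 ⟨hc, h1⟩, mem_touch.2 ⟨hc, h2⟩⟩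
    have hcard : 3 ≤ (touch Q (hf ![p, q]) ∩ touch Q h).card := by
      have : ({a, b, c} : Finset HP) ⊆ touch Q (hf ![p, q]) ∩ touch Q h := by
        intro t ht
        simp only [Finset.mem_insert, Finset.mem_singleton] at ht
        rcases ht with rfl | rfl | rfl
        · exact hmem _ aQ ta
        · exact hmem _ bQ tb
        · exact hmem _ cQ tc
      have h3 : ({a, b, c} : Finset HP).card = 3 := Finset.card_eq_three.2 ⟨a, b, c, hab, hac, hbc, rfl⟩
      rw [← h3]; exact Finset.card_le_card this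
    obtain ⟨d, hd1, hd2⟩ := hd
    have hlam : lam (hf ![p, q]) < L := by
      rw [← hL]
      refine lam_lt lams hsub hsub' hle' (w := d.1) ?_
      rw [hlt']
      intro m
      fin_cases m
      · exact hd1
      · exact hd2
    obtain ⟨u, hu, hu'⟩ := hv
    obtain ⟨g, _, hg2, hg3⟩ := lcx Q P L henv (hf ![p, q]) h hsub' hsub hfit' hfits hlam hL.le hcard
      (Or.inl ⟨u, hu, by rcases hu' with rfl | rfl <;> assumption,
        by rcases hu' with rfl | rfl <;> assumption⟩)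
    exact ⟨g, hg2, hg3 _ (hmem _ aQ ta), hg3 _ (hmem _ bQ tb), hg3 _ (hmem _ cQ tc)⟩
  obtain ⟨g, gf, gj, gi, gk⟩ := seg v w j i k vin win jQ iQ kQ hij.symm hjk hik
    ⟨v, ⟨i, j, hsh.vi⟩, Or.inl rfl⟩ (Or.inl hsh.vi.on₂) (Or.inl hsh.vi.on₁) (Or.inr hsh.wk.on₂)
    ⟨s, by rw [hts]; exact vs, by rw [hts]; exact ws⟩
  obtain ⟨g', _, gj', gi', gs'⟩ := seg v x j i s vin xin jQ iQ sQ hij.symm hjs his
    ⟨v, ⟨i, j, hsh.vi⟩, Or.inl rfl⟩ (Or.inl hsh.vi.on₂) (Or.inl hsh.vi.on₁) (Or.inr hsh.xs)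
    ⟨k, by rw [htk]; exact vk, by rw [htk]; exact xk⟩
  obtain ⟨g'', _, gj'', gk'', gs''⟩ := seg w x j k s win xin jQ kQ sQ hjk hjs hks
    ⟨w, ⟨j, k, hsh.wk⟩, Or.inl rfl⟩ (Or.inl hsh.wk.on₁) (Or.inl hsh.wk.on₂) (Or.inr hsh.xs)
    ⟨i, by rw [hti]; exact wi, by rw [hti]; exact xi⟩
  obtain ⟨h1, _⟩ := k4x Q P hQ.unit hP hG g g' g'' j i k s jQ iQ kQ sQ
    ⟨hij.symm, hjk, hjs, hik, his, hks⟩ gj gi gk gj' gi' gs' gj'' gk'' gs''
  refine hunl.2 ⟨g, gf, ?_⟩
  intro t ht
  obtain ⟨htQ, htt⟩ := mem_touch.1 ht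
  by_contra hcon
  have ht1 : t ≠ i := fun h' => hcon (by rw [h']; exact gi)
  have ht2 : t ≠ j := fun h' => hcon (by rw [h']; exact gj)
  have ht3 : t ≠ k := fun h' => hcon (by rw [h']; exact gk)
  have ht4 : t ≠ s := fun h' => hcon (by rw [h', h1]; exact gs')
  have : h t.1 < t.2 := by
    rw [hlt]
    intro m
    fin_cases m
    · exact hact i j v hsh.vi t htQ ht1 ht2
    · exact hact j k w hsh.wk t htQ ht2 ht3
    · exact hsh.xt t htQ ht4
  exact (ne_of_lt this) htt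

end Pool.Agent.XQ.H84
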