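import Pool.Agent.Helper16_XQ.StmtG

set_option autoImplicit false

namespace Pool.Agent.XQ.H84

open MeasureTheory Complex Filter Topology Pool.Agent.H62T
open Pool.Agent.H16F (Sublin)
open Pool.Agent.AEU
open Pool.Agent.XQ

theorem normSq_of_norm {z : ℂ} (h : ‖z‖ = 1) : z.re * z.re + z.im * z.im = 1 := by
  have := Complex.normSq_eq_norm_sq z
  rw [h, Complex.normSq_apply] at this
  linarith

/-- the product relation gives `ip a b = - ip c d` -/
theorem ip_rel {a b c d : ℂ} (hb : ‖b‖ = 1) (hc : ‖c‖ = 1)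
    (h : a * c = -(b * d)) : ip a b = -ip c d := by
  have h1 := congrArg Complex.re h
  have h2 := congrArg Complex.im h
  simp only [Complex.mul_re, Complex.mul_im, Complex.neg_re, Complex.neg_im] at h1 h2
  have hb' := normSq_of_norm hb
  have hc' := normSq_of_norm hc
  unfold ip
  linear_combination (b.re * c.re - b.im * c.im) * h1 + (b.re * c.im + b.im * c.re) * h2 -
    (a.re * b.re + a.im * b.im) * hc' - (c.re * d.re + c.im * d.im) * hb'

open Classical in
/-- (AC4) -/
theorem ac4 : Ac4Statement := by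
  intro a b c d ha hb hc hd hne h
  obtain ⟨hab, hac, had, hbc, hbd, hcd⟩ := hne
  have e1 : ip a.1 b.1 = -ip c.1 d.1 := ip_rel hb hc h
  have e2 : ip a.1 d.1 = -ip b.1 c.1 := by
    have h' : a.1 * c.1 = -(d.1 * b.1) := by rw [h]; ring
    have := ip_rel hd hc h'
    rw [this]; unfold ip; ring
  -- not acute if one of the products is nonnegative
  have key : ∀ s t u : HP, s ≠ t → s ≠ u → t ≠ u → s ∈ ({a, b, c, d} : Finset HP) →
      t ∈ ({a, b, c, d} : Finset HP) → s ≠ u → t ≠ u → 0 ≤ ip s.1 t.1 →
      ¬ Acute (({a, b, c, d} : Finset HP).erase u) := by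
    intro s t u hst _ _ hs ht hsu htu h0 hA
    have := hA s (Finset.mem_erase.2 ⟨hsu, hs⟩) t (Finset.mem_erase.2 ⟨htu, ht⟩) hst
    linarith
  have hcomm : ∀ s t : ℂ, ip s t = ip t s := fun s t => by unfold ip; ring
  have ma : a ∈ ({a, b, c, d} : Finset HP) := by simp
  have mb : b ∈ ({a, b, c, d} : Finset HP) := by simp
  have mc : c ∈ ({a, b, c, d} : Finset HP) := by simp
  have md : d ∈ ({a, b, c, d} : Finset HP) := by simp
  -- one of `ab`, `cd` and one of `ad`, `bc` are nonnegative
  rcases le_total 0 (ip a.1 b.1) with h1 | h1 <;> rcases le_total 0 (ip a.1 d.1) with h2 | h2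
  · -- `ab`, `ad` nonnegative: exceptional is the triple without `a`
    refine ⟨a, ma, ?_⟩
    intro t ht hta
    simp only [Finset.mem_insert, Finset.mem_singleton] at ht
    rcases ht with rfl | rfl | rfl | rfl
    · exact absurd rfl hta
    · exact key a d t had hab (Ne.symm hbd) ma md hab (Ne.symm hbd) h2
    · exact key a b t hab hac hbc ma mb hac hbc h1
    · exact key a b t hab had hbd ma mb had hbd h1
  · -- `ab`, `bc` nonnegative
    have h3 : 0 ≤ ip b.1 c.1 := by linarith
    refine ⟨b, mb, ?_⟩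
    intro t ht htb
    simp only [Finset.mem_insert, Finset.mem_singleton] at ht
    rcases ht with rfl | rfl | rfl | rfl
    · exact key b c t hbc (Ne.symm hab) (Ne.symm hac) mb mc (Ne.symm hab) (Ne.symm hac) h3
    · exact absurd rfl htb
    · exact key a b t hab hac hbc ma mb hac hbc h1
    · exact key a b t hab had hbd ma mb had hbd h1
  · -- `cd`, `ad` nonnegative
    have h3 : 0 ≤ ip c.1 d.1 := by linarith
    refine ⟨d, md, ?_⟩
    intro t ht htd
    simp only [Finset.mem_insert, Finset.mem_singleton] at ht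
    rcases ht with rfl | rfl | rfl | rfl
    · exact key c d t hcd (Ne.symm hac) (Ne.symm had) mc md (Ne.symm hac) (Ne.symm had) h3
    · exact key a d t had hab (Ne.symm hbd) ma md hab (Ne.symm hbd) h2
    · exact key a d t had hac (Ne.symm hcd) ma md hac (Ne.symm hcd) h2
    · exact absurd rfl htd
  · -- `cd`, `bc` nonnegative
    have h3 : 0 ≤ ip c.1 d.1 := by linarith
    have h4 : 0 ≤ ip b.1 c.1 := by linarith
    refine ⟨c, mc, ?_⟩
    intro t ht htc
    simp only [Finset.mem_insert, Finset.mem_singleton] at ht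
    rcases ht with rfl | rfl | rfl | rfl
    · exact key c d t hcd (Ne.symm hac) (Ne.symm had) mc md (Ne.symm hac) (Ne.symm had) h3
    · exact key c d t hcd (Ne.symm hbc) (Ne.symm hbd) mc md (Ne.symm hbc) (Ne.symm hbd) h3
    · exact absurd rfl htc
    · exact key b c t hbc hbd hcd mb mc hbd hcd h4
end Pool.Agent.XQ.H84
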